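import Pool.Agent.H334R5.Ps.Stmts
import Pool.Agent.H334R5.Nd.Main
import Pool.Agent.H656R2.AK.AKIn

/-!
# The easy directions
-/

set_option autoImplicit false

namespace Pool.Agent.H334R5.Ps

open Pool.Agent.NPC
open Pool.Agent.H623R2.PS (InPSPACE PSPACEHard evq)
open Pool.Agent.H656R2.AK (QF evc qbf_hard evq_not)
open Pool.Agent.H251R5.PQ (Ver t_PAD)
open Pool.Agent.H334R5.Nd (Pattern DetExcluder ref ref_poly)
open Pool.Agent.H334R5.Cnt (usz bits_poly fpoly_of_poly)

theorem detExcluder_of_inP {A : Set (List Bool)} (hA : InP A) :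
    ∃ (q : Polynomial ℕ) (E : List (List Bool) → ℕ), DetExcluder A q E := by
  obtain ⟨V, hV, hVA⟩ := hA
  have pV : Poly V := PIso.poly_iff.2 hV
  set E : List (List Bool) → ℕ := fun L => L.head?.elim 0
    (fun x => if V x = [true] then 0 else L.length) with hE
  have pE : Poly E := by
    refine Poly.optElim (o := fun L : List (List Bool) => L.head?)
      (g := fun _ => 0) (h := fun L x => if V x = [true] then 0 else L.length)
      (Poly.head? Poly.id) (NPC.Poly.const 0) ?_
    exact Poly.ite (Poly.decide_eq (pV.comp (Poly.snd Poly.id)) (NPC.Poly.const _))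
      (NPC.Poly.const _) (Poly.length (Poly.fst Poly.id))
  refine ⟨1, E, fpoly_of_poly pE, ?_⟩
  intro L n _ hq _
  cases L with
  | nil => simp at hq
  | cons x L =>
    have hr : E (x :: L) = if V x = [true] then 0 else (x :: L).length := rfl
    rw [hr]
    split_ifs with g
    · exact ⟨Nat.zero_le _, fun hp => hp.2.2 x (by simp) ((hVA x).2 g)⟩
    · exact ⟨le_rfl, fun hp => g ((hVA x).1 (hp.2.1 x (by simp)))⟩

/-- Polynomial space is closed under complements. -/
theorem inPSPACE_compl {L : Set (List Bool)} (hL : InPSPACE L) : InPSPACE Lᶜ := by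
  obtain ⟨g, pg, -, hgL⟩ := qbf_hard hL
  have pevc : Poly (fun p : List (List (Bool × ℕ)) × List Bool => !evc p.2 p.1) := by
    unfold evc
    refine Poly.not (Poly.all (l := fun p : List (List (Bool × ℕ)) × List Bool => p.1)
      (p := fun p c => c.any fun l => p.2.getD l.2 false == l.1) (Poly.fst Poly.id) ?_)
    refine Poly.any (l := fun p : (List (List (Bool × ℕ)) × List Bool) × List (Bool × ℕ) => p.2)
      (p := fun p l => p.1.2.getD l.2 false == l.1) (Poly.snd Poly.id) ?_
    have h1 : Poly (fun p : ((List (List (Bool × ℕ)) × List Bool) × List (Bool × ℕ)) × Bool × ℕ =>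
        decide (p.1.1.2.getD p.2.2 false = p.2.1)) :=
      Poly.decide_eq (Poly.getD (Poly.snd (Poly.fst (Poly.fst Poly.id)))
        (Poly.snd (Poly.snd Poly.id)) (NPC.Poly.const false)) (Poly.fst (Poly.snd Poly.id))
    exact h1.congr fun p => by
      cases p.1.1.2.getD p.2.2 false <;> cases p.2.1 <;> rfl
  have pqs : Poly (fun x => (g x).1.map not) :=
    NPC.Poly.map (l := fun x => (g x).1) (F := fun _ b => !b) (Poly.fst pg)
      (Poly.not (Poly.snd Poly.id))
  refine Pool.Agent.H623R2.PS.inPSPACE_of_evq (α := List (List (Bool × ℕ)))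
    (init := fun x => (g x).2) (Poly.snd pg) (qs := fun x => (g x).1.map not) pqs
    (φ := fun C v => !evc v C) pevc ?_
  intro x
  rw [Set.mem_compl_iff, hgL x, evq_not (g x).1 (fun v => evc v (g x).2)]
  simp

/-- The refuter obtained from verifiers for `A` and for its complement. -/
theorem refuter2_of_np {A : Set (List Bool)} (h1 : InNP A) (h2 : InNP Aᶜ) :
    ∃ (q ℓ : Polynomial ℕ) (E : List (List Bool) → List Bool → ℕ), Refuter2 A q ℓ E := by
  obtain ⟨V, hV⟩ := t_PAD A h1
  obtain ⟨W, hW⟩ := t_PAD Aᶜ h2
  have hbd : ∀ U : Ver, ∃ p : Polynomial ℕ, ∀ x, U.n x ≤ p.eval (sz x) := by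
    intro U
    obtain ⟨p, hp⟩ := U.hn.sz_le
    refine ⟨p, fun x => ?_⟩
    have h1 := hp x
    have h2 := length_lt_sz (List.replicate (U.n x) ())
    rw [List.length_replicate] at h2
    omega
  obtain ⟨p1, hp1⟩ := hbd V
  obtain ⟨p2, hp2⟩ := hbd W
  have hszx : ∀ (x : List Bool) (L : List (List Bool)), sz x ≤ (bits (x :: L)).length := by
    intro x L
    rw [bits_length, sz_list_cons]
    omega
  have hev : ∀ n, (p1 + p2 + 1 : Polynomial ℕ).eval n = p1.eval n + p2.eval n + 1 := fun n => by
    simp [Polynomial.eval_add]
  have hlen : ∀ (x : List Bool) (L : List (List Bool)) (w : List Bool),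
      w.length = (p1 + p2 + 1).eval (bits (x :: L)).length →
        (w.tail.take (V.n x)).length = V.n x ∧ (w.tail.take (W.n x)).length = W.n x := by
    intro x L w hw
    have e2 := (hp1 x).trans (eval_mono p1 (hszx x L))
    have e3 := (hp2 x).trans (eval_mono p2 (hszx x L))
    rw [hev] at hw
    simp only [List.length_take, List.length_tail]
    omega
  have hr : ∀ (x : List Bool) (L : List (List Bool)) (w : List Bool), ref V W (x :: L) w =
      if w.headD false = true then
        (if V.V x (w.tail.take (V.n x)) = true then 0 else (x :: L).length + 1)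
        else (if W.V x (w.tail.take (W.n x)) = true then (x :: L).length
          else (x :: L).length + 1) := fun x L w => rfl
  refine ⟨1, p1 + p2 + 1, ref V W, ?_, ?_, ?_⟩
  · obtain ⟨F, hF, h⟩ := fpoly_of_poly (ref_poly V W)
    exact ⟨F, hF, fun L r => h (L, r)⟩
  · intro L w hw hpat
    cases L with
    | nil => exact absurd hpat.1 (by simp [ref])
    | cons x L =>
      obtain ⟨e1, e2⟩ := hlen x L w hw
      rw [hr] at hpat
      split_ifs at hpat with g1 g2 g2
      · exact hpat.2.2 x (by simp) ((hV x).2 ⟨_, e1, g2⟩)
      · have := hpat.1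
        omega
      · exact ((hW x).2 ⟨_, e2, g2⟩) (hpat.2.1 x (by simp))
      · have := hpat.1
        omega
  · intro L n _ hq _
    cases L with
    | nil => simp at hq
    | cons x L =>
      have e2 := (hp1 x).trans (eval_mono p1 (hszx x L))
      have e3 := (hp2 x).trans (eval_mono p2 (hszx x L))
      by_cases hx : x ∈ A
      · obtain ⟨u, hu, hu'⟩ := (hV x).1 hx
        refine ⟨true :: (u ++ List.replicate ((p1 + p2 + 1).eval (bits (x :: L)).length - 1 -
          u.length) false), ?_, ?_⟩
        · rw [hev]
          simp only [List.length_cons, List.length_append, List.length_replicate]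
          omega
        · rw [hr]
          simp only [List.headD_cons, if_true, List.tail_cons]
          have e5 : (u ++ List.replicate ((p1 + p2 + 1).eval (bits (x :: L)).length - 1 -
              u.length) false).take (V.n x) = u := List.take_left' hu
          rw [if_pos (by rw [e5]; exact hu')]
          omega
      · obtain ⟨u, hu, hu'⟩ := (hW x).1 hx
        refine ⟨false :: (u ++ List.replicate ((p1 + p2 + 1).eval (bits (x :: L)).length - 1 -
          u.length) false), ?_, ?_⟩
        · rw [hev]
          simp only [List.length_cons, List.length_append, List.length_replicate]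
          omega
        · rw [hr]
          simp only [List.headD_cons, Bool.false_eq_true, if_false, List.tail_cons]
          have e5 : (u ++ List.replicate ((p1 + p2 + 1).eval (bits (x :: L)).length - 1 -
              u.length) false).take (W.n x) = u := List.take_left' hu
          rw [if_pos (by rw [e5]; exact hu')]

end Pool.Agent.H334R5.Ps
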