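import Pool.Agent.H334R5.Ps.Stmts

/-!
# The search machine for a language in polynomial space
-/

set_option autoImplicit false

namespace Pool.Agent.H334R5.Ps

open Pool.Agent.NPC
open Pool.Agent.H623R2.PS (InPSPACE PSPACEHard evq)
open Pool.Agent.H656R2.AK (QF evc QFwf qbf_hard)
open Pool.Agent.H334R5.Clo (num ext)
open Pool.Agent.H334R5.Nd (Pattern DetExcluder remove_sublist length_remove)
open Pool.Agent.H334R5.Cnt (usz bits_poly fpoly_of_poly)

theorem pattern_target {f : List Bool → List Bool} {A : Set (List Bool)} {c : Ctx}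
    (hf : ∀ u, f (bits ((c, u) : Ctx × List Bool)) ∈ A ↔ num u ≤ num ((W c).take u.length))
    {Cs : List (List Bool)} {i : ℕ} (hlen : ∀ u ∈ Cs, u.length = i)
    (hsort : Cs.Pairwise (fun v w => num v < num w)) {k : ℕ} (hk : k < Cs.length)
    (hkw : Cs[k] = (W c).take i) :
    Pattern A (Cs.tail.map fun u => f (bits ((c, u) : Ctx × List Bool))) k := by
  set L := Cs.tail.map fun u => f (bits ((c, u) : Ctx × List Bool)) with hL
  have hLlen : L.length = Cs.length - 1 := by rw [hL, List.length_map, List.length_tail]
  have hsorted : ∀ (j j' : ℕ) (hj : j < Cs.length) (hj' : j' < Cs.length), j < j' →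
      num Cs[j] < num Cs[j'] := fun j j' hj hj' h =>
    List.pairwise_iff_getElem.1 hsort j j' hj hj' h
  have hLget : ∀ (j : ℕ) (hj : j < L.length),
      L[j] = f (bits ((c, Cs[j + 1]'(by omega)) : Ctx × List Bool)) := by
    intro j hj
    simp only [hL, List.getElem_map, List.getElem_tail]
  refine ⟨by omega, fun y hy => ?_, fun y hy => ?_⟩
  · obtain ⟨j, hj, rfl⟩ := List.getElem_of_mem hy
    rw [List.length_take] at hj
    rw [List.getElem_take, hLget j (by omega), hf, hlen _ (List.getElem_mem _), ← hkw]
    rcases Nat.lt_or_ge (j + 1) k with h2 | h2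
    · exact (hsorted _ _ _ hk h2).le
    · have h3 : j + 1 = k := by omega
      simp only [h3, le_refl]
  · obtain ⟨j, hj, rfl⟩ := List.getElem_of_mem hy
    rw [List.length_drop] at hj
    rw [List.getElem_drop, hLget (k + j) (by omega), hf, hlen _ (List.getElem_mem _), ← hkw,
      not_le]
    exact hsorted _ _ hk _ (by omega)

theorem upd_length (a : List ℕ) (j v : ℕ) : (upd a j v).length = a.length := by
  unfold upd
  rw [List.length_map, List.length_range]

theorem mem_upd {a : List ℕ} {j v y : ℕ} (h : y ∈ upd a j v) : y = v ∨ y ∈ a := by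
  unfold upd at h
  rw [List.mem_map] at h
  obtain ⟨i, hi, rfl⟩ := h
  rw [List.mem_range] at hi
  split_ifs with h1
  · exact Or.inl rfl
  · right
    rw [List.getD_eq_getElem?_getD, List.getElem?_eq_getElem hi, Option.getD_some]
    exact List.getElem_mem hi

theorem pickz_le (P M N : ℕ) (V : List (List ℕ)) : pickz P M N V ≤ M * M * N := by
  unfold pickz
  set l := (List.range (M * M * N + 1)).filter fun z => V.all fun v => V.all fun v' =>
    decide (v = v') || !decide (extr P v z = extr P v' z) with hl
  cases h : l.head? with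
  | none => simp
  | some z =>
    rw [Option.getD_some]
    have h1 : z ∈ l := List.mem_of_head? h
    rw [hl, List.mem_filter, List.mem_range] at h1
    omega

theorem extr_lt {P : ℕ} (hP : 0 < P) (v : List ℕ) (z : ℕ) : extr P v z < P := Nat.mod_lt _ hP

/-- The shape of the states. -/
structure ShP (P M N w k len : ℕ) (s : PSt) : Prop where
  t_le : s.1 ≤ len
  a_len : s.2.1.length = k
  a_lt : ∀ y ∈ s.2.1, y < P
  b_len : s.2.2.1.length ≤ 2 * M + 2
  b_lt : ∀ b ∈ s.2.2.1, b.1 < P
  rem : s.2.2.2.1 ≤ N * w
  c_len : ∀ u ∈ s.2.2.2.2, u.length = N * w - s.2.2.2.1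
  sorted : s.2.2.2.2.Pairwise (fun v w => num v < num w)
  short : s.2.2.2.2.length ≤ 2 * M

variable {P M N w k : ℕ} {ops : List Op}

theorem stepP_shape (hP : M * M * N < P) (hM : 1 ≤ M) {s : PSt}
    (hs : ShP P M N w k ops.length s) (m : ℕ) :
    ShP P M N w k ops.length (stepP P M N w ops s m) := by
  have hP0 : 0 < P := by omega
  unfold stepP
  split_ifs with h1 h2 h3
  · exact hs
  · have hsub := remove_sublist s.2.2.2.2 (min m (s.2.2.2.2.length - 1))
    exact ⟨hs.t_le, hs.a_len, hs.a_lt, hs.b_len, hs.b_lt, hs.rem,
      fun u hu => hs.c_len u (hsub.subset hu), hs.sorted.sublist hsub,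
      hsub.length_le.trans hs.short⟩
  · refine ⟨by simp only [trans]; omega, ?_, ?_, ?_, ?_, le_rfl, ?_, ?_, ?_⟩
    · simp only [trans]
      rw [upd_length, hs.a_len]
    · intro y hy
      simp only [trans] at hy
      rcases mem_upd hy with rfl | hy
      · exact lt_of_le_of_lt (pickz_le _ _ _ _) hP
      · exact hs.a_lt y hy
    · simp only [trans]
      rw [List.length_flatMap]
      have h4 : ∀ n ∈ ((s.2.2.2.2.map (decv P N w)).map fun v => ([false, true].flatMap (fun b =>
        if (comb P (ops.getD s.1 (0, 0)).1 (s.2.1.getD (ops.getD s.1 (0, 0)).2 0) (v.getD 0 0)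
          (v.getD 1 0), b) ∈ s.2.2.1 then
            [(extr P v (pickz P M N (s.2.2.2.2.map (decv P N w))), b)] else [])).length),
          n ≤ 2 := by
        intro n hn
        rw [List.mem_map] at hn
        obtain ⟨v, -, rfl⟩ := hn
        simp only [List.flatMap_cons, List.flatMap_nil, List.append_nil, List.length_append]
        split_ifs <;> simp
      have h5 := List.sum_le_card_nsmul _ 2 h4
      rw [List.length_map, List.length_map, smul_eq_mul] at h5
      refine h5.trans ?_
      omega
    · intro b hb
      simp only [trans, List.mem_flatMap] at hb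
      obtain ⟨v, -, c, -, hb⟩ := hb
      split_ifs at hb with h4
      · rw [List.mem_singleton] at hb
        subst hb
        exact extr_lt hP0 _ _
      · simp at hb
    · intro u hu
      simp only [trans, List.mem_singleton] at hu
      subst hu
      simp [trans]
    · simp [trans]
    · simp [trans]
      omega
  · have hr := hs.rem
    refine ⟨hs.t_le, hs.a_len, hs.a_lt, hs.b_len, hs.b_lt, by simp only; omega, fun u hu => ?_,
      Clo.ext_sorted hs.sorted, ?_⟩
    · obtain ⟨v, hv, c, rfl⟩ := Clo.mem_ext.1 hu
      have := hs.c_len v hv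
      simp only [List.length_append, List.length_cons, List.length_nil]
      omega
    · simp only
      rw [Clo.ext_length]
      omega

/-- The potential. -/
def potP (M N w len : ℕ) (s : PSt) : ℕ :=
  (len - s.1) * (N * w * (M + 1) + 3) + (s.2.2.2.1 * (M + 1) + s.2.2.2.2.length)

theorem stepP_pot {s : PSt} (m : ℕ) :
    (stepP P M N w ops s m = s ∧ ops.length ≤ s.1) ∨
      potP M N w ops.length (stepP P M N w ops s m) < potP M N w ops.length s := by
  unfold stepP
  split_ifs with h1 h2 h3
  · exact Or.inl ⟨rfl, h1⟩
  · right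
    have h3 := length_remove (l := s.2.2.2.2) (k := min m (s.2.2.2.2.length - 1)) (by omega)
    unfold potP
    simp only
    omega
  · right
    unfold potP
    simp only [trans, List.length_cons, List.length_nil]
    obtain ⟨d, hd⟩ : ∃ d, ops.length - s.1 = d + 1 := ⟨ops.length - s.1 - 1, by omega⟩
    have h4 : ops.length - (s.1 + 1) = d := by omega
    rw [hd, h4, add_mul, one_mul]
    omega
  · right
    unfold potP
    simp only
    rw [Clo.ext_length]
    obtain ⟨j, hj⟩ := Nat.exists_eq_succ_of_ne_zero h3
    rw [hj]
    simp only [Nat.succ_eq_add_one, Nat.add_sub_cancel, add_mul, one_mul]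
    omega

theorem run_rank (x : List Bool) (init : PSt) (ks : ℕ → ℕ) (T : ℕ)
    (h : potP M N w ops.length init < T) (hle : ∀ s : PSt, s.1 ≤ ops.length →
      ∀ m, (stepP P M N w ops s m).1 ≤ ops.length) (h0 : init.1 ≤ ops.length) :
    (Nat.rec (motive := fun _ => PSt) init (fun t s => stepP P M N w ops s (ks t)) T).1 =
      ops.length := by
  set r : ℕ → PSt := fun T => Nat.rec (motive := fun _ => PSt) init
    (fun t s => stepP P M N w ops s (ks t)) T with hr
  have hr0 : r 0 = init := rfl
  have hrs : ∀ t, r (t + 1) = stepP P M N w ops (r t) (ks t) := fun t => rfl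
  have hb : ∀ t, (r t).1 ≤ ops.length := by
    intro t
    induction t with
    | zero => exact h0
    | succ t ih => rw [hrs]; exact hle _ ih _
  have key : ∀ t, (r t).1 = ops.length ∨ potP M N w ops.length (r t) + t ≤
      potP M N w ops.length init := by
    intro t
    induction t with
    | zero => right; rw [hr0]; omega
    | succ t ih =>
      rw [hrs]
      rcases ih with h1 | h1
      · left
        have : stepP P M N w ops (r t) (ks t) = r t := by
          unfold stepP
          rw [if_pos (le_of_eq h1.symm)]
        rw [this, h1]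
      · rcases stepP_pot (P := P) (M := M) (N := N) (w := w) (ops := ops) (s := r t) (ks t) with
          ⟨h2, h3⟩ | h2
        · left
          rw [h2]
          exact le_antisymm (hb t) h3
        · right
          omega
  rcases key T with h1 | h1
  · exact h1
  · omega

end Pool.Agent.H334R5.Ps
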