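import Pool.Agent.H334R5.Ps.Stmts
import Pool.Agent.H334R5.Clo.PolyPart
import Pool.Agent.H671R2.PolyAuto

/-!
# One step of the search runs in polynomial time (task TaskPolyStep)
-/

set_option autoImplicit false

namespace Pool.Agent.H334R5.Ps

open Pool.Agent.NPC
open Pool.Agent.H334R5.Clo (num ext poly_take poly_drop poly_ext)

namespace StepAux

variable {α β : Type} [TEnc α] [TEnc β]

theorem p_num {l : α → List Bool} (hl : Poly l) : Poly (fun a => num (l a)) :=
  Poly.valBits (Poly.reverse hl)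

theorem p_cpl {P x : α → ℕ} (hP : Poly P) (hx : Poly x) : Poly (fun a => cpl (P a) (x a)) := by
  unfold cpl
  fun_prop

theorem p_comb {P kd x v0 v1 : α → ℕ} (hP : Poly P) (hk : Poly kd) (hx : Poly x)
    (h0 : Poly v0) (h1 : Poly v1) :
    Poly (fun a => comb (P a) (kd a) (x a) (v0 a) (v1 a)) := by
  unfold comb
  refine Poly.ite (Poly.decide_eq hk (NPC.Poly.const 0)) (by fun_prop) ?_
  refine Poly.ite (Poly.decide_eq hk (NPC.Poly.const 1)) ?_ ?_
  · exact p_cpl hP (Poly.mul (p_cpl hP h0) (p_cpl hP h1))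
  · exact Poly.mod (Poly.add (Poly.mul (p_cpl hP hx) h0) (Poly.mul hx h1)) hP

theorem p_upd {a : α → List ℕ} {j v : α → ℕ} (ha : Poly a) (hj : Poly j) (hv : Poly v) :
    Poly (fun x => upd (a x) (j x) (v x)) := by
  unfold upd
  refine NPC.Poly.map (l := fun x => List.range (a x).length)
    (F := fun x i => if i = j x then v x else (a x).getD i 0) (Poly.range_length ha) ?_
  exact Poly.ite (Poly.decide_eq (Poly.snd Poly.id) (hj.comp (Poly.fst Poly.id)))
    (hv.comp (Poly.fst Poly.id))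
    (Poly.getD (ha.comp (Poly.fst Poly.id)) (Poly.snd Poly.id) (NPC.Poly.const 0))

theorem p_decv {P N w : α → ℕ} {y : α → List Bool} (hP : Poly P) (hN : UPoly N) (hw : Poly w)
    (hy : Poly y) : Poly (fun x => decv (P x) (N x) (w x) (y x)) := by
  unfold decv
  refine NPC.Poly.map (l := fun x => List.range (N x))
    (F := fun x i => num (((y x).drop (i * w x)).take (w x)) % P x) hN.range ?_
  refine Poly.mod (p_num ?_) (hP.comp (Poly.fst Poly.id))
  refine poly_take (poly_drop (hy.comp (Poly.fst Poly.id)) ?_) (hw.comp (Poly.fst Poly.id))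
  exact Poly.mul (Poly.snd Poly.id) (hw.comp (Poly.fst Poly.id))

theorem p_dif {P : α → ℕ} {v : α → List ℕ} (hP : Poly P) (hv : Poly v) :
    Poly (fun x => dif (P x) (v x)) := by
  unfold dif
  have h : Poly (fun x => List.range ((v x).length - 1)) :=
    (Poly.range_length (Poly.tail hv)).congr fun x => by rw [List.length_tail]
  refine NPC.Poly.map (l := fun x => List.range ((v x).length - 1))
    (F := fun x i => ((v x).getD (i + 1) 0 + (P x - (v x).getD i 0 % P x)) % P x) h ?_
  fun_prop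

theorem p_shf {P : α → ℕ} {v : α → List ℕ} (hP : Poly P) (hv : Poly v) :
    Poly (fun x => shf (P x) (v x)) := by
  unfold shf
  refine NPC.Poly.map (l := fun x => List.range (v x).length)
    (F := fun x i => ((v x).getD i 0 + (v x).getD (i + 1) 0) % P x) (Poly.range_length hv) ?_
  fun_prop

theorem sz_iter {P : ℕ} (g : List ℕ → List ℕ) (hlen : ∀ u, (g u).length ≤ u.length)
    (hlt : ∀ u, ∀ y ∈ g u, y < P) (v : List ℕ) (k : ℕ) :
    sz (g^[k] v) ≤ sz v + (sz v * (2 * sz P + 1) + 1) := by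
  have hl : ∀ k, (g^[k] v).length ≤ v.length := by
    intro k
    induction k with
    | zero => exact le_rfl
    | succ k ih =>
      rw [Function.iterate_succ_apply']
      exact (hlen _).trans ih
  cases k with
  | zero => exact Nat.le_add_right _ _
  | succ k =>
    have h1 := sz_le_length_mul (g^[k + 1] v) (2 * sz P) (by
      intro y hy
      rw [Function.iterate_succ_apply'] at hy
      exact sz_nat_mono_le (hlt _ y hy).le)
    have h2 := hl (k + 1)
    have h3 := length_lt_sz v
    have h4 : (g^[k + 1] v).length * (2 * sz P + 1) ≤ sz v * (2 * sz P + 1) :=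
      Nat.mul_le_mul_right _ (h2.trans h3.le)
    omega

theorem p_iter (g : ℕ → List ℕ → List ℕ) (hg : Poly (fun p : ℕ × List ℕ => g p.1 p.2))
    (hlen : ∀ P u, (g P u).length ≤ u.length) (hlt : ∀ P u, 1 ≤ P → ∀ y ∈ g P u, y < P)
    {P : α → ℕ} {v : α → List ℕ} {z : α → ℕ} (hP : Poly P) (hv : Poly v) (hz : UPoly z)
    (h1 : ∀ x, 1 ≤ P x) :
    Poly (fun x => (List.range (z x)).foldl (fun u _ => g (P x) u) (v x)) := by
  obtain ⟨r, hr⟩ := hv.sz_le
  obtain ⟨t, ht⟩ := hP.sz_le
  refine NPC.Poly.foldl (l := fun x => List.range (z x)) (s := v)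
    (F := fun x u _ => g (P x) u) hz.range hv ?_
    (r + (r * (Polynomial.C 2 * t + Polynomial.C 1) + Polynomial.C 1)) ?_
  · exact Poly.comp (g := fun p : ℕ × List ℕ => g p.1 p.2)
      (f := fun p : α × List ℕ × ℕ => (P p.1, p.2.1)) hg
      (Poly.pair (hP.comp (Poly.fst Poly.id)) (Poly.fst (Poly.snd Poly.id)))
  · intro x k _
    rw [List.foldl_const]
    refine (sz_iter (g (P x)) (hlen _) (fun u => hlt _ u (h1 x)) (v x) _).trans ?_
    simp only [Polynomial.eval_add, Polynomial.eval_mul, Polynomial.eval_C]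
    have e1 := hr x
    have e2 := ht x
    have e3 : sz (v x) * (2 * sz (P x) + 1) ≤
        r.eval (sz x) * (2 * t.eval (sz x) + 1) := Nat.mul_le_mul e1 (by omega)
    omega

theorem headD_eq (l : List ℕ) : l.headD 0 = l.head?.getD 0 := by
  cases l <;> rfl

theorem p_headD {l : α → List ℕ} (hl : Poly l) : Poly (fun a => (l a).headD 0) :=
  (Poly.optGetD (o := fun a => (l a).head?) (g := fun _ => 0) (Poly.head? hl)
    (NPC.Poly.const 0)).congr fun a => (headD_eq (l a)).symm

theorem dif_len (P : ℕ) (u : List ℕ) : (dif P u).length ≤ u.length := by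
  simp [dif]

theorem dif_lt (P : ℕ) (u : List ℕ) (hP : 1 ≤ P) : ∀ y ∈ dif P u, y < P := by
  intro y hy
  simp only [dif, List.mem_map] at hy
  obtain ⟨i, _, rfl⟩ := hy
  exact Nat.mod_lt _ hP

theorem shf_len (P : ℕ) (u : List ℕ) : (shf P u).length ≤ u.length := by
  simp [shf]

theorem shf_lt (P : ℕ) (u : List ℕ) (hP : 1 ≤ P) : ∀ y ∈ shf P u, y < P := by
  intro y hy
  simp only [shf, List.mem_map] at hy
  obtain ⟨i, _, rfl⟩ := hy
  exact Nat.mod_lt _ hP

theorem p_newton {P : α → ℕ} {v : α → List ℕ} (hP : Poly P) (hv : Poly v)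
    (h1 : ∀ x, 1 ≤ P x) : Poly (fun x => newton (P x) (v x)) := by
  have hm : UPoly (fun p : α × ℕ => min p.2 (v p.1).length) :=
    UPoly.of_le (Poly.min (Poly.snd Poly.id) (Poly.length (hv.comp (Poly.fst Poly.id))))
      (UPoly.length (hv.comp (Poly.fst Poly.id))) (fun p => min_le_right _ _)
  have h2 : Poly (fun p : α × ℕ => ((List.range (min p.2 (v p.1).length)).foldl
      (fun u _ => dif (P p.1) u) (v p.1)).headD 0) :=
    p_headD (p_iter dif (p_dif (Poly.fst Poly.id) (Poly.snd Poly.id)) dif_len dif_lt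
      (P := fun p : α × ℕ => P p.1) (v := fun p : α × ℕ => v p.1)
      (hP.comp (Poly.fst Poly.id)) (hv.comp (Poly.fst Poly.id)) hm (fun p => h1 p.1))
  refine (NPC.Poly.map (l := fun x => List.range (v x).length)
    (F := fun x k => ((List.range (min k (v x).length)).foldl
      (fun u _ => dif (P x) u) (v x)).headD 0) (Poly.range_length hv) h2).congr fun x => ?_
  unfold newton
  refine List.map_congr_left fun k hk => ?_
  rw [List.mem_range] at hk
  rw [min_eq_left hk.le]

theorem p_extr {P z : α → ℕ} {v : α → List ℕ} (hP : Poly P) (hv : Poly v) (hz : UPoly z)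
    (h1 : ∀ x, 1 ≤ P x) : Poly (fun x => extr (P x) (v x) (z x)) := by
  unfold extr
  refine Poly.mod (p_headD ?_) hP
  exact p_iter shf (p_shf (Poly.fst Poly.id) (Poly.snd Poly.id)) shf_len shf_lt hP
    (p_newton hP hv h1) hz h1

theorem pickz_le (P M N : ℕ) (V : List (List ℕ)) : pickz P M N V ≤ M * M * N := by
  unfold pickz
  cases h : ((List.range (M * M * N + 1)).filter fun z => V.all fun v => V.all fun v' =>
    decide (v = v') || !decide (extr P v z = extr P v' z)).head? with
  | none => simp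
  | some z =>
    have h2 := List.mem_of_mem_head? (l := ((List.range (M * M * N + 1)).filter fun z =>
      V.all fun v => V.all fun v' =>
      decide (v = v') || !decide (extr P v z = extr P v' z))) (a := z) (by rw [h]; rfl)
    have h3 := List.mem_range.1 (List.mem_filter.1 h2).1
    simp only [Option.getD_some]
    omega

theorem p_pickz {P M N : α → ℕ} {V : α → List (List ℕ)} (hP : Poly P) (hM : UPoly M)
    (hN : UPoly N) (hV : Poly V) (h1 : ∀ x, 1 ≤ P x) :
    Poly (fun x => pickz (P x) (M x) (N x) (V x)) := by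
  have hT : UPoly (fun x => M x * M x * N x + 1) := ((hM.mul hM).mul hN).add (UPoly.const 1)
  have hz : UPoly (fun q : ((α × ℕ) × List ℕ) × List ℕ =>
      min q.1.1.2 (M q.1.1.1 * M q.1.1.1 * N q.1.1.1 + 1)) :=
    UPoly.of_le (Poly.min (Poly.snd (Poly.fst (Poly.fst Poly.id)))
      (hT.toPoly.comp (Poly.fst (Poly.fst (Poly.fst Poly.id)))))
      (hT.comp (Poly.fst (Poly.fst (Poly.fst Poly.id)))) (fun q => min_le_right _ _)
  have hPq : Poly (fun q : ((α × ℕ) × List ℕ) × List ℕ => P q.1.1.1) :=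
    hP.comp (Poly.fst (Poly.fst (Poly.fst Poly.id)))
  have h2 : Poly (fun q : ((α × ℕ) × List ℕ) × List ℕ => extr (P q.1.1.1) q.1.2
      (min q.1.1.2 (M q.1.1.1 * M q.1.1.1 * N q.1.1.1 + 1))) :=
    p_extr hPq (Poly.snd (Poly.fst Poly.id)) hz (fun q => h1 _)
  have h3 : Poly (fun q : ((α × ℕ) × List ℕ) × List ℕ => extr (P q.1.1.1) q.2
      (min q.1.1.2 (M q.1.1.1 * M q.1.1.1 * N q.1.1.1 + 1))) :=
    p_extr hPq (Poly.snd Poly.id) hz (fun q => h1 _)
  have h4 : Poly (fun p : α × ℕ => (V p.1).all fun v => (V p.1).all fun v' =>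
      decide (v = v') || !decide (extr (P p.1) v (min p.2 (M p.1 * M p.1 * N p.1 + 1)) =
        extr (P p.1) v' (min p.2 (M p.1 * M p.1 * N p.1 + 1)))) := by
    refine NPC.Poly.all (l := fun p : α × ℕ => V p.1)
      (p := fun (p : α × ℕ) v => (V p.1).all fun v' =>
        decide (v = v') || !decide (extr (P p.1) v (min p.2 (M p.1 * M p.1 * N p.1 + 1)) =
          extr (P p.1) v' (min p.2 (M p.1 * M p.1 * N p.1 + 1))))
      (hV.comp (Poly.fst Poly.id)) ?_
    refine NPC.Poly.all (l := fun q : (α × ℕ) × List ℕ => V q.1.1)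
      (p := fun (q : (α × ℕ) × List ℕ) v' =>
        decide (q.2 = v') || !decide (extr (P q.1.1) q.2
          (min q.1.2 (M q.1.1 * M q.1.1 * N q.1.1 + 1)) =
          extr (P q.1.1) v' (min q.1.2 (M q.1.1 * M q.1.1 * N q.1.1 + 1))))
      (hV.comp (Poly.fst (Poly.fst Poly.id))) ?_
    exact Poly.or (Poly.decide_eq (Poly.snd (Poly.fst Poly.id)) (Poly.snd Poly.id))
      (Poly.not (Poly.decide_eq h2 h3))
  refine (Poly.optGetD (o := fun x => ((List.range (M x * M x * N x + 1)).filter fun z =>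
    (V x).all fun v => (V x).all fun v' =>
      decide (v = v') || !decide (extr (P x) v (min z (M x * M x * N x + 1)) =
        extr (P x) v' (min z (M x * M x * N x + 1)))).head?) (g := fun _ => 0)
    (Poly.head? (NPC.Poly.filter hT.range h4)) (NPC.Poly.const 0)).congr fun x => ?_
  unfold pickz
  congr 2
  refine List.filter_congr fun z hz => ?_
  rw [List.mem_range] at hz
  rw [min_eq_left hz.le]

theorem u_pickz {P M N : α → ℕ} {V : α → List (List ℕ)} (hP : Poly P) (hM : UPoly M)
    (hN : UPoly N) (hV : Poly V) (h1 : ∀ x, 1 ≤ P x) :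
    UPoly (fun x => pickz (P x) (M x) (N x) (V x)) :=
  UPoly.of_le (p_pickz hP hM hN hV h1) ((hM.mul hM).mul hN) (fun _ => pickz_le _ _ _ _)

theorem p_trans {P M N w : α → ℕ} {ops : α → List Op} {s : α → PSt} (hP : Poly P)
    (hM : UPoly M) (hN : UPoly N) (hw : UPoly w) (hops : Poly ops) (hs : Poly s)
    (h1 : ∀ x, 1 ≤ P x) :
    Poly (fun x => trans (P x) (M x) (N x) (w x) (ops x) (s x)) := by
  have hV : Poly (fun x => (s x).2.2.2.2.map (decv (P x) (N x) (w x))) := by
    refine NPC.Poly.map (l := fun x => (s x).2.2.2.2) (F := fun x y => decv (P x) (N x) (w x) y)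
      (Poly.snd (Poly.snd (Poly.snd (Poly.snd hs)))) ?_
    exact p_decv (hP.comp (Poly.fst Poly.id)) (hN.comp (Poly.fst Poly.id))
      (hw.toPoly.comp (Poly.fst Poly.id)) (Poly.snd Poly.id)
  have hp := p_pickz hP hM hN hV h1
  have hu := u_pickz hP hM hN hV h1
  have ho : Poly (fun x => (ops x).getD (s x).1 (0, 0)) :=
    Poly.getD hops (Poly.fst hs) (NPC.Poly.const (0, 0))
  have hg : Poly (fun x => (s x).2.1.getD ((ops x).getD (s x).1 (0, 0)).2 0) :=
    Poly.getD (Poly.fst (Poly.snd hs)) (Poly.snd ho) (NPC.Poly.const 0)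
  unfold trans
  refine Poly.pair (Poly.succ (Poly.fst hs)) (Poly.pair (p_upd (Poly.fst (Poly.snd hs))
    (Poly.snd ho) hp) (Poly.pair ?_ (Poly.pair (Poly.mul hN.toPoly hw.toPoly)
    (NPC.Poly.const _))))
  refine NPC.Poly.flatMap (l := fun x => (s x).2.2.2.2.map (decv (P x) (N x) (w x)))
    (F := fun x v => [false, true].flatMap (fun b =>
      if (comb (P x) ((ops x).getD (s x).1 (0, 0)).1
          ((s x).2.1.getD ((ops x).getD (s x).1 (0, 0)).2 0) (v.getD 0 0)
        (v.getD 1 0), b) ∈ (s x).2.2.1 then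
          [(extr (P x) v (pickz (P x) (M x) (N x)
            ((s x).2.2.2.2.map (decv (P x) (N x) (w x)))), b)] else [])) hV ?_
  refine NPC.Poly.flatMap (l := fun _ => [false, true])
    (F := fun (q : α × List ℕ) b =>
      if (comb (P q.1) ((ops q.1).getD (s q.1).1 (0, 0)).1
          ((s q.1).2.1.getD ((ops q.1).getD (s q.1).1 (0, 0)).2 0) (q.2.getD 0 0)
        (q.2.getD 1 0), b) ∈ (s q.1).2.2.1 then
          [(extr (P q.1) q.2 (pickz (P q.1) (M q.1) (N q.1)
            ((s q.1).2.2.2.2.map (decv (P q.1) (N q.1) (w q.1)))), b)] else [])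
    (NPC.Poly.const _) ?_
  have f1 : Poly (fun r : (α × List ℕ) × Bool => r.1.1) := Poly.fst (Poly.fst Poly.id)
  have f2 : Poly (fun r : (α × List ℕ) × Bool => r.1.2) := Poly.snd (Poly.fst Poly.id)
  have hc : Poly (fun r : (α × List ℕ) × Bool => comb (P r.1.1)
      ((ops r.1.1).getD (s r.1.1).1 (0, 0)).1
      ((s r.1.1).2.1.getD ((ops r.1.1).getD (s r.1.1).1 (0, 0)).2 0) (r.1.2.getD 0 0)
        (r.1.2.getD 1 0)) :=
    p_comb (hP.comp f1) (Poly.fst (ho.comp f1)) (hg.comp f1)
      (Poly.getD f2 (NPC.Poly.const 0) (NPC.Poly.const 0))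
      (Poly.getD f2 (NPC.Poly.const 1) (NPC.Poly.const 0))
  have he : Poly (fun r : (α × List ℕ) × Bool => extr (P r.1.1) r.1.2
      (pickz (P r.1.1) (M r.1.1) (N r.1.1)
        ((s r.1.1).2.2.2.2.map (decv (P r.1.1) (N r.1.1) (w r.1.1))))) :=
    p_extr (hP.comp f1) f2 (hu.comp f1) (fun r => h1 _)
  refine Poly.ite ?_ ?_ (NPC.Poly.const [])
  · exact Poly.dec_mem (Poly.pair hc (Poly.snd Poly.id))
      (Poly.fst (Poly.snd (Poly.snd (hs.comp f1))))
  · exact Poly.cons (Poly.pair he (Poly.snd Poly.id)) (NPC.Poly.const [])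

end StepAux

open StepAux in
theorem taskPolyStep : TaskPolyStep := by
  intro α _ P M N w ops s k hP hM hN hw hops hs hk h1
  unfold stepP
  have hC : Poly (fun x => (s x).2.2.2.2) := Poly.snd (Poly.snd (Poly.snd (Poly.snd hs)))
  refine Poly.ite (Poly.decide_le (Poly.length hops) (Poly.fst hs)) hs ?_
  refine Poly.ite (Poly.decide_lt hM.toPoly (Poly.length hC)) ?_ ?_
  · have hm : Poly (fun x => min (k x) ((s x).2.2.2.2.length - 1)) :=
      Poly.min hk (Poly.sub (Poly.length hC) (NPC.Poly.const 1))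
    refine Poly.pair (Poly.fst hs) (Poly.pair (Poly.fst (Poly.snd hs)) (Poly.pair
      (Poly.fst (Poly.snd (Poly.snd hs))) (Poly.pair
        (Poly.fst (Poly.snd (Poly.snd (Poly.snd hs)))) ?_)))
    exact Poly.append (poly_take hC hm) (poly_drop hC (Poly.succ hm))
  · refine Poly.ite (Poly.decide_eq (Poly.fst (Poly.snd (Poly.snd (Poly.snd hs))))
      (NPC.Poly.const 0)) (p_trans hP hM hN hw hops hs h1) ?_
    exact Poly.pair (Poly.fst hs) (Poly.pair (Poly.fst (Poly.snd hs)) (Poly.pair
      (Poly.fst (Poly.snd (Poly.snd hs))) (Poly.pair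
        (Poly.sub (Poly.fst (Poly.snd (Poly.snd (Poly.snd hs)))) (NPC.Poly.const 1))
        (poly_ext hC))))

end Pool.Agent.H334R5.Ps
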