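import Pool.Agent.H334R5.Ps.Stmts
import Pool.Agent.H334R5.Clo.PolyPart
import Pool.Agent.H671R2.PolyAuto

/-!
# TASK LB: the vector of values is computable in polynomial space
-/

set_option autoImplicit false

namespace Pool.Agent.H334R5.Ps

open Pool.Agent.NPC
open Pool.Agent.H623R2.PS (InPSPACE PSPACEHard evq)
open Pool.Agent.H334R5.Clo (num ext)

namespace LBx

variable {α : Type} [TEnc α]

/-! ### Polynomial-time computability of the operations -/

@[fun_prop]
theorem poly_upd {a : α → List ℕ} {j v : α → ℕ} (ha : Poly a) (hj : Poly j) (hv : Poly v) :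
    Poly (fun x => upd (a x) (j x) (v x)) := by
  unfold upd
  have h1 : Poly (fun x => List.range (a x).length) := (UPoly.length ha).range
  have h2 : Poly (fun p : α × ℕ => if p.2 = j p.1 then v p.1 else (a p.1).getD p.2 0) := by
    fun_prop
  exact NPC.Poly.map h1 h2

@[fun_prop]
theorem poly_cpl {P y : α → ℕ} (hP : Poly P) (hy : Poly y) : Poly (fun x => cpl (P x) (y x)) := by
  unfold cpl
  fun_prop

@[fun_prop]
theorem poly_lit {P : α → ℕ} {a : α → List ℕ} {l : α → Bool × ℕ} (hP : Poly P) (ha : Poly a)
    (hl : Poly l) : Poly (fun x => lit (P x) (a x) (l x)) := by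
  unfold lit
  fun_prop

@[fun_prop]
theorem poly_comb {P kd y v0 v1 : α → ℕ} (hP : Poly P) (hk : Poly kd) (hy : Poly y)
    (h0 : Poly v0) (h1 : Poly v1) :
    Poly (fun x => comb (P x) (kd x) (y x) (v0 x) (v1 x)) := by
  unfold comb
  fun_prop

theorem fold_mod_lt {β : Type} (f : β → ℕ) (P : ℕ) (hP : 0 < P) (l : List β) :
    l.foldl (fun v b => v * f b % P) (1 % P) < P := by
  induction l using List.reverseRecOn with
  | nil => exact Nat.mod_lt _ hP
  | append_singleton l b _ =>
    rw [List.foldl_append, List.foldl_cons, List.foldl_nil]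
    exact Nat.mod_lt _ hP

theorem poly_fold {β : Type} [TEnc β] {P : α → ℕ} {l : α → List β} {f : α → β → ℕ}
    (hP : Poly P) (hP1 : ∀ x, 0 < P x) (hl : Poly l) (hf : Poly (fun p : α × β => f p.1 p.2)) :
    Poly (fun x => (l x).foldl (fun v b => v * f x b % P x) (1 % P x)) := by
  obtain ⟨q, hq⟩ := hP.sz_le
  refine Poly.foldl (F := fun x v b => v * f x b % P x) hl (by fun_prop) ?_ (Polynomial.C 2 * q) ?_
  · have h1 : Poly (fun p : α × ℕ × β => f p.1 p.2.2) :=
      Poly.comp (g := fun p : α × β => f p.1 p.2) (f := fun p : α × ℕ × β => (p.1, p.2.2)) hf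
        (by fun_prop)
    fun_prop
  · intro a k _
    have h1 := fold_mod_lt (f a) (P a) (hP1 a) ((l a).take k)
    have h2 := sz_nat_mono_le h1.le
    have h3 := hq a
    simp only [Polynomial.eval_mul, Polynomial.eval_C]
    omega

theorem poly_cls {P : α → ℕ} {a : α → List ℕ} {c : α → List (Bool × ℕ)} (hP : Poly P)
    (hP1 : ∀ x, 0 < P x) (ha : Poly a) (hc : Poly c) :
    Poly (fun x => cls (P x) (a x) (c x)) := by
  unfold cls
  have h := poly_fold (f := fun x l => cpl (P x) (lit (P x) (a x) l)) hP hP1 hc (by fun_prop)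
  fun_prop

theorem poly_mat {P : α → ℕ} {C : α → List (List (Bool × ℕ))} {a : α → List ℕ} (hP : Poly P)
    (hP1 : ∀ x, 0 < P x) (hC : Poly C) (ha : Poly a) :
    Poly (fun x => mat (P x) (C x) (a x)) := by
  unfold mat
  refine poly_fold (f := fun x c => cls (P x) (a x) c) hP hP1 hC ?_
  exact poly_cls (P := fun p : α × List (Bool × ℕ) => P p.1) (by fun_prop) (fun x => hP1 x.1)
    (by fun_prop) (by fun_prop)

theorem mat_lt {P : ℕ} (hP : 0 < P) (C : List (List (Bool × ℕ))) (a : List ℕ) : mat P C a < P :=
  fold_mod_lt (fun c => cls P a c) P hP C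

theorem comb_lt {P : ℕ} (hP : 0 < P) (kd x v0 v1 : ℕ) : comb P kd x v0 v1 < P := by
  unfold comb cpl
  split_ifs <;> exact Nat.mod_lt _ hP

/-! ### Assignments after choices -/

theorem length_upd (a : List ℕ) (j v : ℕ) : (upd a j v).length = a.length := by
  simp [upd]

theorem mem_upd {a : List ℕ} {j v y : ℕ} (h : y ∈ upd a j v) : y = v ∨ y ∈ a := by
  unfold upd at h
  rw [List.mem_map] at h
  obtain ⟨i, hi, rfl⟩ := h
  rw [List.mem_range] at hi
  split_ifs
  · exact Or.inl rfl
  · right
    rw [List.getD_eq_getElem _ _ hi]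
    exact List.getElem_mem hi

theorem asg_inv (l : List (Op × Bool)) (a : List ℕ) :
    (l.foldl (fun a ob => upd a ob.1.2 (if ob.2 = true then 1 else 0)) a).length = a.length ∧
    ∀ y ∈ l.foldl (fun a ob => upd a ob.1.2 (if ob.2 = true then 1 else 0)) a, y ≤ 1 ∨ y ∈ a := by
  induction l using List.reverseRecOn with
  | nil => exact ⟨rfl, fun y hy => Or.inr hy⟩
  | append_singleton l b ih =>
    rw [List.foldl_append, List.foldl_cons, List.foldl_nil]
    refine ⟨by rw [length_upd]; exact ih.1, fun y hy => ?_⟩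
    rcases mem_upd hy with h | h
    · left
      rw [h]
      split_ifs <;> omega
    · exact ih.2 y h

theorem sz_one : sz (1 : ℕ) = 5 := by
  rw [sz_nat]
  simp

@[fun_prop]
theorem poly_asg {ops : α → List Op} {a : α → List ℕ} {p : α → List Bool} (ho : Poly ops)
    (ha : Poly a) (hp : Poly p) : Poly (fun x => asg (ops x) (a x) (p x)) := by
  unfold asg
  obtain ⟨q, hq⟩ := ha.sz_le
  refine Poly.foldl (l := fun x => List.zip (ops x) (p x))
    (F := fun _ (a : List ℕ) (ob : Op × Bool) => upd a ob.1.2 (if ob.2 = true then 1 else 0))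
    (by fun_prop) ha ?_ (q * (q + Polynomial.C 11) + Polynomial.C 1) ?_
  · have h1 : Poly (fun p : α × List ℕ × Op × Bool => if p.2.2.2 = true then 1 else 0) := by
      refine Poly.ite (Poly.decide_bool ?_) (NPC.Poly.const _) (NPC.Poly.const _)
      fun_prop
    fun_prop
  · intro x k _
    have h1 := asg_inv ((List.zip (ops x) (p x)).take k) (a x)
    have h2 := sz_le_length_mul _ (sz (a x) + 10) fun y hy => by
      rcases h1.2 y hy with h | h
      · have h3 := sz_nat_mono_le h
        rw [sz_one] at h3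
        omega
      · exact (sz_le_of_mem h).le.trans (by omega)
    rw [h1.1] at h2
    have h3 := length_lt_sz (a x)
    have h4 := hq x
    simp only [Polynomial.eval_add, Polynomial.eval_mul, Polynomial.eval_C]
    refine h2.trans ?_
    have h5 : (a x).length ≤ q.eval (sz x) := by omega
    have h6 : sz (a x) + 10 + 1 ≤ q.eval (sz x) + 11 := by omega
    exact Nat.add_le_add_right (Nat.mul_le_mul h5 h6) 1

@[fun_prop]
theorem poly_num {l : α → List Bool} (hl : Poly l) : Poly (fun x => num (l x)) := by
  unfold num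
  exact Poly.valBits (Poly.reverse hl)

theorem poly_fix {β : Type} [TEnc β] {l : α → List β} {v : α → ℕ} (hl : Poly l) (hv : Poly v) :
    Poly (fun x => fix (l x).length (v x)) := by
  unfold fix
  have h1 : Poly (fun x => (l x).map fun _ => false) := by fun_prop
  have h2 : Poly (fun x => List.replicate (l x).length false) :=
    h1.congr fun x => by rw [List.map_const']
  have h3 : Poly (fun x => (v x).bits) := Poly.natBits hv
  exact Poly.reverse (Clo.poly_take (Poly.append h3 h2) (Poly.length hl))

/-! ### Leaves and combinations -/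

@[fun_prop]
theorem poly_leafc {c : α → Ctx} {p : α → List Bool} (hc : Poly c) (hp : Poly p) :
    Poly (fun x => leafc (c x) (p x)) := by
  unfold leafc
  have h1 : Poly (fun x => mat ((c x).1 + 1) (c x).2.1 (asg (c x).2.2.1
      (upd (c x).2.2.2.1 (c x).2.2.2.2.1 (num ((p x).take (c x).2.2.2.2.2.1.length)))
      ((p x).drop (c x).2.2.2.2.2.1.length))) :=
    poly_mat (by fun_prop) (fun _ => Nat.succ_pos _) (by fun_prop) (by fun_prop)
  fun_prop

@[fun_prop]
theorem poly_cmbc {c : α → Ctx} {p : α → List Bool} {v0 v1 : α → List ℕ} (hc : Poly c)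
    (hp : Poly p) (h0 : Poly v0) (h1 : Poly v1) :
    Poly (fun x => cmbc (c x) (p x) (v0 x) (v1 x)) := by
  unfold cmbc
  refine Poly.ite (by fun_prop) (by fun_prop) ?_
  refine Poly.optElim (o := fun x => (v0 x).head?) (by fun_prop) (by fun_prop) ?_
  refine Poly.optElim (o := fun x : α × ℕ => (v1 x.1).head?) (by fun_prop) (by fun_prop) ?_
  fun_prop

/-! ### Sizes -/

/-- The number of points whose binary expansions start with the path. -/
def cnt (N : ℕ) (p : List Bool) : ℕ :=
  min N ((num (p.take N) + 1) * 2 ^ (N - p.length)) - num (p.take N) * 2 ^ (N - p.length)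

theorem cnt_snoc (N : ℕ) (p : List Bool) (h : p.length < N) :
    cnt N (p ++ [false]) + cnt N (p ++ [true]) ≤ cnt N p := by
  have h1 : ∀ b, (p ++ [b]).take N = p ++ [b] := fun b =>
    List.take_of_length_le (by simp; omega)
  have h2 : p.take N = p := List.take_of_length_le h.le
  obtain ⟨k, hk⟩ : ∃ k, N - p.length = k + 1 := ⟨N - p.length - 1, by omega⟩
  have h3 : ∀ b, N - (p ++ [b]).length = k := fun b => by simp; omega
  unfold cnt
  rw [h1, h1, h2, h3, h3, hk, Clo.num_snoc, Clo.num_snoc]
  simp only [if_true, Bool.false_eq_true, if_false, add_zero]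
  have e1 : (num p + 1) * 2 ^ (k + 1) = 2 * (num p * 2 ^ k) + 2 * 2 ^ k := by ring
  have e2 : num p * 2 ^ (k + 1) = 2 * (num p * 2 ^ k) := by ring
  have e3 : (2 * num p + 1) * 2 ^ k = 2 * (num p * 2 ^ k) + 2 ^ k := by ring
  have e4 : 2 * num p * 2 ^ k = 2 * (num p * 2 ^ k) := by ring
  have e5 : (2 * num p + 1 + 1) * 2 ^ k = 2 * (num p * 2 ^ k) + 2 * 2 ^ k := by ring
  rw [e1, e2, e3, e4, e5]
  omega

theorem cnt_le (N : ℕ) (p : List Bool) : cnt N p ≤ N := by
  unfold cnt
  omega

theorem cnt_full {N : ℕ} {p : List Bool} (h : N ≤ p.length) :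
    cnt N p = if num (p.take N) < N then 1 else 0 := by
  unfold cnt
  rw [Nat.sub_eq_zero_of_le h]
  simp only [pow_zero, mul_one]
  split_ifs <;> omega

theorem cmbc_short {c : Ctx} {p : List Bool} (h : p.length < c.2.2.2.2.2.1.length)
    (v0 v1 : List ℕ) : cmbc c p v0 v1 = v0 ++ v1 := by
  unfold cmbc
  rw [if_pos h]

theorem cmbc_long {c : Ctx} {p : List Bool} (h : ¬ p.length < c.2.2.2.2.2.1.length)
    (v0 v1 : List ℕ) : (cmbc c p v0 v1).length ≤ v0.length ∧
      ∀ y ∈ cmbc c p v0 v1, y < c.1 + 1 := by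
  unfold cmbc
  rw [if_neg h]
  cases v0 with
  | nil => simp
  | cons y0 v0 =>
    cases v1 with
    | nil => simp
    | cons y1 v1 =>
      simp only [List.head?_cons, Option.elim_some, List.length_cons, List.length_nil,
        List.mem_cons, List.not_mem_nil, or_false]
      refine ⟨by omega, ?_⟩
      rintro y rfl
      exact comb_lt (Nat.succ_pos _) _ _ _ _

theorem evt_bound (c : Ctx) : ∀ (d : ℕ) (p : List Bool), c.2.2.2.2.2.1.length ≤ p.length + d →
    (evt leafc cmbc c d p).length ≤ cnt c.2.2.2.2.2.1.length p ∧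
    ∀ y ∈ evt leafc cmbc c d p, y < c.1 + 1 := by
  intro d
  induction d with
  | zero =>
    intro p hp
    rw [cnt_full (by omega)]
    change (leafc c p).length ≤ _ ∧ ∀ y ∈ leafc c p, _
    unfold leafc
    split_ifs
    · simp only [List.length_cons, List.length_nil, List.mem_cons, List.not_mem_nil, or_false]
      refine ⟨by omega, ?_⟩
      rintro y rfl
      exact mat_lt (Nat.succ_pos _) _ _
    · simp
  | succ d ih =>
    intro p hp
    have h0 := ih (p ++ [false]) (by simp; omega)
    have h1 := ih (p ++ [true]) (by simp; omega)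
    change (cmbc c p (evt leafc cmbc c d (p ++ [false])) (evt leafc cmbc c d (p ++ [true]))).length
      ≤ _ ∧ ∀ y ∈ cmbc c p (evt leafc cmbc c d (p ++ [false])) (evt leafc cmbc c d (p ++ [true])), _
    by_cases h : p.length < c.2.2.2.2.2.1.length
    · rw [cmbc_short h]
      have h2 := cnt_snoc _ _ h
      refine ⟨by rw [List.length_append]; omega, fun y hy => ?_⟩
      rcases List.mem_append.1 hy with hy | hy
      · exact h0.2 y hy
      · exact h1.2 y hy
    · have h2 := cmbc_long h (evt leafc cmbc c d (p ++ [false])) (evt leafc cmbc c d (p ++ [true]))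
      refine ⟨h2.1.trans ?_, h2.2⟩
      have h3 := h0.1
      rw [cnt_full (by simp; omega)] at h3
      rw [cnt_full (by omega)]
      rwa [List.take_append_of_le_length (by omega)] at h3

/-- The inputs of the algorithm. -/
abbrev In := Bool × Ctx × List Bool

theorem evt_in (a : In) : ∀ (d : ℕ) (p : List Bool),
    evt (fun (a : In) p => leafc a.2.1 p) (fun (a : In) p v0 v1 => cmbc a.2.1 p v0 v1) a d p =
      evt leafc cmbc a.2.1 d p := by
  intro d
  induction d with
  | zero => intro p; rfl
  | succ d ih =>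
    intro p
    change cmbc a.2.1 p _ _ = cmbc a.2.1 p _ _
    rw [ih, ih]

/-- The initial state. -/
def initc (x : List Bool) : In :=
  (unbits (Ctx × List Bool) x).elim (false, default) fun t => (true, t)

theorem poly_initc : Poly initc := by
  unfold initc
  exact Poly.optElim poly_unbits (NPC.Poly.const _) (by fun_prop)

/-- The output. -/
def outc (a : In) (v : List ℕ) : Bool :=
  a.1 && decide (num a.2.2 ≤ num ((v.flatMap (fix a.2.1.2.2.2.2.2.2.length)).take a.2.2.length))

theorem poly_outc : Poly (fun p : In × List ℕ => outc p.1 p.2) := by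
  unfold outc
  have h1 : Poly (fun p : In × List ℕ => p.2.flatMap (fix p.1.2.1.2.2.2.2.2.2.length)) :=
    NPC.Poly.flatMap (F := fun (p : In × List ℕ) y => fix p.1.2.1.2.2.2.2.2.2.length y)
      (by fun_prop)
      (poly_fix (l := fun q : (In × List ℕ) × ℕ => q.1.1.2.1.2.2.2.2.2.2) (by fun_prop)
        (by fun_prop))
  fun_prop

theorem outc_true (t : Ctx × List Bool) (v : List ℕ) : outc (true, t) v = true ↔
    num t.2 ≤ num ((v.flatMap (fix t.1.2.2.2.2.2.2.length)).take t.2.length) := by
  unfold outc
  rw [Bool.true_and, decide_eq_true_iff]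

theorem initc_some {x : List Bool} {t : Ctx × List Bool}
    (h : unbits (Ctx × List Bool) x = some t) : initc x = (true, t) := by
  unfold initc
  rw [h]
  rfl

theorem initc_none {x : List Bool} (h : unbits (Ctx × List Bool) x = none) :
    initc x = (false, default) := by
  unfold initc
  rw [h]
  rfl

end LBx

open LBx

theorem taskLB : TaskLB := by
  intro hT hV
  obtain ⟨q, hq⟩ := (show Poly (fun a : In => a.2.1.1 + 1) by fun_prop).sz_le
  refine hT In (List ℕ) inferInstance inferInstance (lang LB) initc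
    (fun a => a.2.1.2.2.2.2.2.1.length + a.2.1.2.2.1.length)
    (fun (a : In) p => leafc a.2.1 p) (fun (a : In) p v0 v1 => cmbc a.2.1 p v0 v1) outc
    (Polynomial.X * (Polynomial.C 2 * q + Polynomial.C 1) + Polynomial.C 1) poly_initc ?_ ?_ ?_
    poly_outc ?_ ?_
  · exact UPoly.add (UPoly.length (by fun_prop)) (UPoly.length (by fun_prop))
  · fun_prop
  · fun_prop
  · intro a p d h
    rw [evt_in]
    have h1 := evt_bound a.2.1 d p (by omega)
    have h2 := sz_le_length_mul _ (2 * q.eval (sz a)) fun y hy => by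
      have h3 := sz_nat_mono_le (h1.2 y hy).le
      have h4 := hq a
      exact h3.trans (by omega)
    have h3 := h1.1.trans (cnt_le _ _)
    have h4 : a.2.1.2.2.2.2.2.1.length ≤ sz a := by
      obtain ⟨b, ⟨P, C, ops, l, j, N, w⟩, u⟩ := a
      have := length_lt_sz N
      simp only [sz_pair]
      omega
    simp only [Polynomial.eval_add, Polynomial.eval_mul, Polynomial.eval_C, Polynomial.eval_X]
    refine h2.trans (Nat.add_le_add_right (Nat.mul_le_mul_right _ (h3.trans h4)) 1)
  · intro x
    rw [mem_lang_iff, evt_in]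
    cases h : unbits (Ctx × List Bool) x with
    | none =>
      rw [initc_none h]
      simp [outc]
    | some t =>
      rw [initc_some h, outc_true]
      change _ ↔ num t.2 ≤ num (((evt leafc cmbc t.1 (t.1.2.2.2.2.2.1.length + t.1.2.2.1.length)
        []).flatMap _).take t.2.length)
      rw [hV t.1]
      constructor
      · rintro ⟨s, hs, h1⟩
        cases hs
        exact h1
      · intro h1
        exact ⟨t, rfl, h1⟩

end Pool.Agent.H334R5.Ps
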