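import Pool.Agent.H334R5.Ps.Stmts

set_option autoImplicit false

namespace Pool.Agent.H334R5.Ps

open Pool.Agent.NPC
open Pool.Agent.H334R5.Clo (num)

namespace TransAux

theorem cpl_lt {P x : ℕ} (hP : 0 < P) : cpl P x < P := Nat.mod_lt _ hP

theorem comb_lt {P kd x v0 v1 : ℕ} (hP : 0 < P) : comb P kd x v0 v1 < P := by
  unfold comb
  split_ifs
  · exact Nat.mod_lt _ hP
  · exact cpl_lt hP
  · exact Nat.mod_lt _ hP

theorem mat_lt {P : ℕ} (hP : 0 < P) (C : List (List (Bool × ℕ))) (a : List ℕ) : mat P C a < P := by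
  unfold mat
  have key : ∀ (C : List (List (Bool × ℕ))) (v : ℕ), v < P →
      C.foldl (fun v c => v * cls P a c % P) v < P := by
    intro C
    induction C with
    | nil => intro v hv; exact hv
    | cons c C ih => intro v _; exact ih _ (Nat.mod_lt _ hP)
  exact key C _ (Nat.mod_lt _ hP)

theorem val_lt {P : ℕ} (hP : 0 < P) (C : List (List (Bool × ℕ))) (ops : List Op) (a : List ℕ) :
    val P C ops a < P := by
  cases ops with
  | nil => exact mat_lt hP C a
  | cons o ops => exact comb_lt hP

theorem valB_rep (n : ℕ) : valB (List.replicate n false) = 0 := by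
  induction n with
  | zero => rfl
  | succ n ih => rw [List.replicate_succ, valB_cons, ih]; simp

theorem fix_length (w v : ℕ) : (fix w v).length = w := by
  unfold fix
  simp

theorem num_fix {w v : ℕ} (h : v < 2 ^ w) : num (fix w v) = v := by
  unfold fix num
  rw [List.reverse_reverse, List.take_append]
  have hl : v.bits.length ≤ w := by
    rw [Nat.size_eq_bits_len]
    exact Nat.size_le.2 h
  rw [List.take_of_length_le hl, valB_append, valB_bits, List.take_replicate, valB_rep]
  simp

theorem block {w : ℕ} (f : ℕ → List Bool) (hf : ∀ x, (f x).length = w) (v : List ℕ) (i : ℕ)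
    (hi : i < v.length) : ((v.flatMap f).drop (i * w)).take w = f (v.getD i 0) := by
  induction v generalizing i with
  | nil => simp at hi
  | cons x v ih =>
    rw [List.flatMap_cons]
    cases i with
    | zero =>
      rw [Nat.zero_mul, List.drop_zero, List.take_append_of_le_length (by rw [hf]),
        List.take_of_length_le (by rw [hf]), List.getD_cons_zero]
    | succ i =>
      have h1 : (i + 1) * w = w + i * w := by ring
      rw [h1, ← List.drop_drop]
      have h2 : (f x ++ List.flatMap f v).drop w = List.flatMap f v := by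
        have := List.drop_left (l₁ := f x) (l₂ := List.flatMap f v)
        rwa [hf] at this
      rw [h2, List.getD_cons_succ]
      exact ih i (by simpa using hi)

theorem decv_eq {P N w : ℕ} (hPw : P ≤ 2 ^ w) (v : List ℕ) (hv : v.length = N)
    (hb : ∀ y ∈ v, y < P) : decv P N w (v.flatMap (fix w)) = v := by
  unfold decv
  apply List.ext_getElem
  · simp [hv]
  · intro i h1 h2
    have hlt : v[i] < P := hb _ (List.getElem_mem h2)
    rw [List.getElem_map, List.getElem_range, block (fix w) (fix_length w) v i h2,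
      List.getD_eq_getElem _ _ h2, num_fix (lt_of_lt_of_le hlt hPw), Nat.mod_eq_of_lt hlt]

theorem decv_length {P N w : ℕ} (y : List Bool) : (decv P N w y).length = N := by
  simp [decv]

theorem decv_lt {P N w : ℕ} (hP : 0 < P) (y : List Bool) : ∀ x ∈ decv P N w y, x < P := by
  intro x hx
  unfold decv at hx
  obtain ⟨i, _, rfl⟩ := List.mem_map.1 hx
  exact Nat.mod_lt _ hP

theorem pickz_spec {P M N : ℕ} {V : List (List ℕ)}
    (h : ∃ z ≤ M * M * N, ∀ v ∈ V, ∀ v' ∈ V, v ≠ v' → extr P v z ≠ extr P v' z) :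
    ∀ v ∈ V, ∀ v' ∈ V, v ≠ v' → extr P v (pickz P M N V) ≠ extr P v' (pickz P M N V) := by
  obtain ⟨z, hz, hs⟩ := h
  have hmem : z ∈ (List.range (M * M * N + 1)).filter (fun z => V.all fun v => V.all fun v' =>
      decide (v = v') || !decide (extr P v z = extr P v' z)) := by
    rw [List.mem_filter]
    refine ⟨List.mem_range.2 (by omega), ?_⟩
    rw [List.all_eq_true]
    intro v hv
    rw [List.all_eq_true]
    intro v' hv'
    by_cases e : v = v'
    · simp [e]
    · have := hs v hv v' hv' e
      simp [e, this]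
  unfold pickz
  cases hl : (List.range (M * M * N + 1)).filter (fun z => V.all fun v => V.all fun v' =>
      decide (v = v') || !decide (extr P v z = extr P v' z)) with
  | nil => rw [hl] at hmem; simp at hmem
  | cons z0 l =>
    have h0 : z0 ∈ (List.range (M * M * N + 1)).filter (fun z => V.all fun v => V.all fun v' =>
      decide (v = v') || !decide (extr P v z = extr P v' z)) := by rw [hl]; simp
    rw [List.mem_filter, List.all_eq_true] at h0
    intro v hv v' hv' e
    have h1 := h0.2 v hv
    rw [List.all_eq_true] at h1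
    have h2 := h1 v' hv'
    simpa [e] using h2

end TransAux

open TransAux

/-- TASK Trans. -/
theorem taskTrans : TaskTrans := by
  intro hdeg hex1 hex2 P M N w qs C b s hP hPw hN hNP hMN ht ha hM hlen hW hJ
  obtain ⟨t, a, L, m, cands⟩ := s
  simp only at ht ha hM hlen hW
  have hP0 : 0 < P := hP.pos
  obtain ⟨g, hg1, hg2⟩ := hdeg P qs C t a hP ht ha
  -- the operations
  have hdrop : (fullOps qs).drop t = (fullOps qs).getD t (0, 0) :: (fullOps qs).drop (t + 1) := by
    rw [List.getD_eq_getElem _ _ ht]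
    exact List.drop_eq_getElem_cons ht
  generalize fullOps qs = ops at *
  obtain ⟨o, ho⟩ : ∃ o, o = ops.getD t (0, 0) := ⟨_, rfl⟩
  obtain ⟨vc, hvc⟩ : ∃ vc, vc = vec (ctxOf P N w C ops (t, a, L, m, cands)) := ⟨_, rfl⟩
  have hvc' : vc = (List.range N).map fun z => val P C (ops.drop (t + 1)) (upd a o.2 z) := by
    rw [hvc]
    unfold vec ctxOf
    simp only [List.length_replicate]
    rw [Nat.sub_add_cancel hP.one_lt.le, ho]
  have hvlen : vc.length = N := by rw [hvc']; simp
  have hvget : ∀ i, i < N → vc.getD i 0 = val P C (ops.drop (t + 1)) (upd a o.2 i) := by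
    intro i hi
    rw [List.getD_eq_getElem _ _ (by rw [hvlen]; exact hi)]
    simp [hvc']
  have hvlt : ∀ y ∈ vc, y < P := by
    intro y hy
    rw [hvc'] at hy
    obtain ⟨z, _, rfl⟩ := List.mem_map.1 hy
    exact val_lt hP0 _ _ _
  have hWv : W (ctxOf P N w C ops (t, a, L, m, cands)) = vc.flatMap (fix w) := by
    rw [hvc]
    unfold W ctxOf
    simp only [List.length_replicate]
  obtain ⟨V, hV⟩ : ∃ V, V = cands.map (decv P N w) := ⟨_, rfl⟩
  have hvV : vc ∈ V := by
    rw [hV, List.mem_map]
    exact ⟨_, hW, by rw [hWv]; exact decv_eq hPw vc hvlen hvlt⟩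
  have hsep := pickz_spec (hex2 P N M V hP hNP hMN (by rw [hV]; simpa using hM) (by
    intro v hv
    rw [hV, List.mem_map] at hv
    obtain ⟨y, _, rfl⟩ := hv
    exact ⟨decv_length y, decv_lt hP0 y⟩))
  -- extrapolation
  have hext : ∀ z, extr P vc z = val P C (ops.drop (t + 1)) (upd a o.2 z) := by
    intro z
    have h1 := hex1 P vc g hP (by rw [hvlen, hN]; exact hg1) (by
      intro i hi
      rw [hvlen] at hi
      rw [hvget i hi, ho]
      exact hg2 i) z
    rw [← hg2 z, ← ho] at h1
    have h2 := (ZMod.natCast_eq_natCast_iff' _ _ _).1 h1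
    rwa [Nat.mod_eq_of_lt (show extr P vc z < P from Nat.mod_lt _ hP0),
      Nat.mod_eq_of_lt (val_lt hP0 _ _ _)] at h2
  have hval : val P C (ops.drop t) a = comb P o.1 (a.getD o.2 0) (vc.getD 0 0) (vc.getD 1 0) := by
    rw [hdrop, hvget 0 (by omega), hvget 1 (by omega), ho]
    rfl
  obtain ⟨z0, hz0⟩ : ∃ z0, z0 = pickz P M N V := ⟨_, rfl⟩
  rw [← hz0] at hsep
  have htr : trans P M N w ops (t, a, L, m, cands) = (t + 1, upd a o.2 z0,
      V.flatMap (fun v => [false, true].flatMap (fun b =>
        if (comb P o.1 (a.getD o.2 0) (v.getD 0 0) (v.getD 1 0), b) ∈ L then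
          [(extr P v z0, b)] else [])), N * w, [[]]) := by
    rw [hz0, hV, ho]
    rfl
  rw [htr]
  unfold JJ at hJ ⊢
  simp only at hJ ⊢
  obtain ⟨hJ1, hJ2⟩ := hJ
  rw [← hext z0]
  constructor
  · rw [List.mem_flatMap]
    refine ⟨vc, hvV, ?_⟩
    rw [List.mem_flatMap]
    refine ⟨b, by cases b <;> simp, ?_⟩
    rw [hval] at hJ1
    rw [if_pos hJ1]
    simp
  · intro v1 b' hmem heq
    rw [List.mem_flatMap] at hmem
    obtain ⟨v, hvm, hmem⟩ := hmem
    rw [List.mem_flatMap] at hmem
    obtain ⟨b2, _, hmem⟩ := hmem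
    split_ifs at hmem with hc
    · rw [List.mem_singleton, Prod.mk.injEq] at hmem
      obtain ⟨e1, e2⟩ := hmem
      subst e2
      have e3 : v = vc := by
        by_contra hne
        exact hsep v hvm vc hvV hne (by rw [← e1, heq])
      subst e3
      exact hJ2 _ _ hc hval.symm
    · simp at hmem

end Pool.Agent.H334R5.Ps
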