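import Pool.Agent.H656R2.AK.TQPoly
import Pool.Agent.H334R5.Nd.Det

/-!
# Polynomial space and threshold patterns: definitions and task statements
-/

set_option autoImplicit false

namespace Pool.Agent.H334R5.Ps

open Pool.Agent.NPC
open Pool.Agent.H623R2.PS (InPSPACE PSPACEHard evq)
open Pool.Agent.H656R2.AK (QF evc)
open Pool.Agent.H334R5.Clo (num ext)
open Pool.Agent.H334R5.Nd (Pattern DetExcluder)

/-! ## Arithmetization -/

/-- `1 - x` modulo `P`. -/
def cpl (P x : ℕ) : ℕ := (1 + (P - x % P)) % P

/-- The value of a literal. -/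
def lit (P : ℕ) (a : List ℕ) (l : Bool × ℕ) : ℕ :=
  if l.1 = true then a.getD l.2 0 % P else cpl P (a.getD l.2 0)

/-- The value of a clause. -/
def cls (P : ℕ) (a : List ℕ) (c : List (Bool × ℕ)) : ℕ :=
  cpl P (c.foldl (fun v l => v * cpl P (lit P a l) % P) (1 % P))

/-- The value of a formula in conjunctive normal form. -/
def mat (P : ℕ) (C : List (List (Bool × ℕ))) (a : List ℕ) : ℕ :=
  C.foldl (fun v c => v * cls P a c % P) (1 % P)

/-- An operation (0: universal quantifier, 1: existential quantifier, others: linearization) on a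
variable. -/
abbrev Op := ℕ × ℕ

/-- The effect of an operation; `x` is the value of the variable. -/
def comb (P kd x v0 v1 : ℕ) : ℕ :=
  if kd = 0 then v0 * v1 % P else if kd = 1 then cpl P (cpl P v0 * cpl P v1)
  else (cpl P x * v0 + x * v1) % P

/-- Change of the value of a variable. -/
def upd (a : List ℕ) (j v : ℕ) : List ℕ :=
  (List.range a.length).map fun i => if i = j then v else a.getD i 0

/-- The value of a sequence of operations, the first one being the outermost one. -/
def val (P : ℕ) (C : List (List (Bool × ℕ))) : List Op → List ℕ → ℕ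
  | [], a => mat P C a
  | o :: ops, a => comb P o.1 (a.getD o.2 0) (val P C ops (upd a o.2 0)) (val P C ops (upd a o.2 1))

/-- The operations for a quantified formula: after each quantifier all variables are linearized. -/
def fullOps (qs : List Bool) : List Op :=
  (List.range qs.length).flatMap fun i =>
    (if qs.getD i false = true then 0 else 1, i) :: (List.range qs.length).map fun j => (2, j)

/-- The number of the literals of a formula. -/
def lc (C : List (List (Bool × ℕ))) : ℕ := (C.map List.length).sum

/-- TASK Truth. -/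
def TaskTruth : Prop := ∀ (P : ℕ) (Q : QF), 2 ≤ P →
  val P Q.2 (fullOps Q.1) (List.replicate Q.1.length 0) =
    if evq Q.1 (fun v => evc v Q.2) = true then 1 else 0

/-- TASK Degree. -/
def TaskDegree : Prop := ∀ (P : ℕ) (qs : List Bool) (C : List (List (Bool × ℕ))) (t : ℕ)
  (a : List ℕ), P.Prime → t < (fullOps qs).length → a.length = qs.length →
  ∃ g : Polynomial (ZMod P), g.natDegree < lc C + 3 ∧ ∀ z : ℕ,
    ((val P C ((fullOps qs).drop (t + 1)) (upd a ((fullOps qs).getD t (0, 0)).2 z) : ℕ) : ZMod P) =
      g.eval (z : ZMod P)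

/-! ## Extrapolation -/

/-- Differences. -/
def dif (P : ℕ) (v : List ℕ) : List ℕ :=
  (List.range (v.length - 1)).map fun i => (v.getD (i + 1) 0 + (P - v.getD i 0 % P)) % P

/-- Leading differences. -/
def newton (P : ℕ) (v : List ℕ) : List ℕ :=
  (List.range v.length).map fun k => ((List.range k).foldl (fun u _ => dif P u) v).headD 0

/-- Leading differences at the next point. -/
def shf (P : ℕ) (v : List ℕ) : List ℕ :=
  (List.range v.length).map fun i => (v.getD i 0 + v.getD (i + 1) 0) % P

/-- The value at `z` of the polynomial with the values `v` at `0, 1, …`. -/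
def extr (P : ℕ) (v : List ℕ) (z : ℕ) : ℕ :=
  ((List.range z).foldl (fun u _ => shf P u) (newton P v)).headD 0 % P

/-- TASK Extr1. -/
def TaskExtr1 : Prop := ∀ (P : ℕ) (v : List ℕ) (g : Polynomial (ZMod P)), P.Prime →
  g.natDegree < v.length →
  (∀ i < v.length, ((v.getD i 0 : ℕ) : ZMod P) = g.eval (i : ZMod P)) →
  ∀ z : ℕ, ((extr P v z : ℕ) : ZMod P) = g.eval (z : ZMod P)

/-- TASK Extr2. -/
def TaskExtr2 : Prop := ∀ (P N M : ℕ) (V : List (List ℕ)), P.Prime → N ≤ P → M * M * N < P →
  V.length ≤ M → (∀ v ∈ V, v.length = N ∧ ∀ y ∈ v, y < P) →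
  ∃ z ≤ M * M * N, ∀ v ∈ V, ∀ v' ∈ V, v ≠ v' → extr P v z ≠ extr P v' z

/-- A point which separates the vectors. -/
def pickz (P M N : ℕ) (V : List (List ℕ)) : ℕ :=
  (((List.range (M * M * N + 1)).filter fun z => V.all fun v => V.all fun v' =>
    decide (v = v') || !decide (extr P v z = extr P v' z)).head?).getD 0

/-! ## Evaluation of trees in polynomial space -/

/-- Evaluation of a binary tree. -/
def evt {α γ : Type} (leaf : α → List Bool → γ) (cmb : α → List Bool → γ → γ → γ) (a : α) :
    ℕ → List Bool → γ
  | 0, p => leaf a p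
  | d + 1, p => cmb a p (evt leaf cmb a d (p ++ [false])) (evt leaf cmb a d (p ++ [true]))

/-- TASK Tree. -/
def TaskTree : Prop := ∀ (α γ : Type) (_ : TEnc α) (_ : TEnc γ) (L : Set (List Bool))
  (init : List Bool → α) (n : α → ℕ) (leaf : α → List Bool → γ)
  (cmb : α → List Bool → γ → γ → γ) (out : α → γ → Bool) (B : Polynomial ℕ),
  Poly init → UPoly n → Poly (fun p : α × List Bool => leaf p.1 p.2) →
  Poly (fun p : α × List Bool × γ × γ => cmb p.1 p.2.1 p.2.2.1 p.2.2.2) →
  Poly (fun p : α × γ => out p.1 p.2) →
  (∀ a p d, p.length + d = n a → sz (evt leaf cmb a d p) ≤ B.eval (sz a)) →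
  (∀ x, x ∈ L ↔ out (init x) (evt leaf cmb (init x) (n (init x)) []) = true) → InPSPACE L

/-! ## The vector of values -/

/-- A context: `P - 1`, the formula, the operations, the values of the variables, a variable, the
number of points, the width of numbers. -/
abbrev Ctx := ℕ × List (List (Bool × ℕ)) × List Op × List ℕ × ℕ × List Unit × List Unit

/-- The values at the points `0, 1, …, N - 1`. -/
def vec (c : Ctx) : List ℕ :=
  (List.range c.2.2.2.2.2.1.length).map fun z =>
    val (c.1 + 1) c.2.1 c.2.2.1 (upd c.2.2.2.1 c.2.2.2.2.1 z)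

/-- The binary expansion with `w` digits, most significant digit first. -/
def fix (w v : ℕ) : List Bool := ((v.bits ++ List.replicate w false).take w).reverse

/-- The vector of values as a bit string. -/
def W (c : Ctx) : List Bool := (vec c).flatMap (fix c.2.2.2.2.2.2.length)

/-- The assignment after some choices. -/
def asg (ops : List Op) (a : List ℕ) (path : List Bool) : List ℕ :=
  (List.zip ops path).foldl (fun a ob => upd a ob.1.2 (if ob.2 = true then 1 else 0)) a

/-- The values of the leaves: the first `N` bits of the path are the number of a point, the other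
bits are choices for the operations. -/
def leafc (c : Ctx) (path : List Bool) : List ℕ :=
  if num (path.take c.2.2.2.2.2.1.length) < c.2.2.2.2.2.1.length then
    [mat (c.1 + 1) c.2.1 (asg c.2.2.1 (upd c.2.2.2.1 c.2.2.2.2.1
      (num (path.take c.2.2.2.2.2.1.length))) (path.drop c.2.2.2.2.2.1.length))] else []

/-- The combination of values at inner nodes. -/
def cmbc (c : Ctx) (path : List Bool) (v0 v1 : List ℕ) : List ℕ :=
  if path.length < c.2.2.2.2.2.1.length then v0 ++ v1 else
    v0.head?.elim [] fun y0 => v1.head?.elim [] fun y1 =>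
      [comb (c.1 + 1) (c.2.2.1.getD (path.length - c.2.2.2.2.2.1.length) (0, 0)).1
        ((asg c.2.2.1 (upd c.2.2.2.1 c.2.2.2.2.1 (num (path.take c.2.2.2.2.2.1.length)))
          (path.drop c.2.2.2.2.2.1.length)).getD
            (c.2.2.1.getD (path.length - c.2.2.2.2.2.1.length) (0, 0)).2 0) y0 y1]

/-- TASK Vec. -/
def TaskVec : Prop := ∀ c : Ctx,
  evt leafc cmbc c (c.2.2.2.2.2.1.length + c.2.2.1.length) [] = vec c

/-- The decision problem for the vector of values. -/
def LB (t : Ctx × List Bool) : Prop := num t.2 ≤ num ((W t.1).take t.2.length)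

/-- TASK LB. -/
def TaskLB : Prop := TaskTree → TaskVec → InPSPACE (lang LB)

/-! ## Numbers -/

/-- A prime number greater than `B`. -/
def prm (B : ℕ) : ℕ :=
  (((List.range (2 * B + 3)).filter fun n => decide (B < n) && (decide (2 ≤ n) &&
    (List.range n).all fun d => decide (d < 2) || !decide (n % d = 0))).head?).getD 2

/-- TASK Prime. -/
def TaskPrime : Prop := (∀ B, 1 ≤ B → (prm B).Prime ∧ B < prm B ∧ prm B ≤ 2 * B + 2) ∧
  ∀ (α : Type) (_ : TEnc α) (B : α → ℕ), UPoly B → Poly (fun x => prm (B x))

/-- TASK Exp. -/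
def TaskExp : Prop := ∀ R : Polynomial ℕ, ∃ c, ∀ t, c ≤ t → R.eval t < 2 ^ t

/-! ## The search -/

/-- A state: the number of processed operations, the values of the variables, the list of possible
pairs (value, truth value of the formula), and the state of the search for the vector of values
(the number of missing bits, the candidates). -/
abbrev PSt := ℕ × List ℕ × List (ℕ × Bool) × ℕ × List (List Bool)

/-- The context of a state. -/
def ctxOf (P N w : ℕ) (C : List (List (Bool × ℕ))) (ops : List Op) (s : PSt) : Ctx :=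
  (P - 1, C, ops.drop (s.1 + 1), s.2.1, (ops.getD s.1 (0, 0)).2, List.replicate N (),
    List.replicate w ())

/-- The queries. -/
def qryP (f : List Bool → List Bool) (P N w : ℕ) (C : List (List (Bool × ℕ))) (ops : List Op)
    (s : PSt) : List (List Bool) :=
  s.2.2.2.2.tail.map fun u => f (bits ((ctxOf P N w C ops s, u) : Ctx × List Bool))

/-- A candidate as a vector of numbers. -/
def decv (P N w : ℕ) (y : List Bool) : List ℕ :=
  (List.range N).map fun i => num ((y.drop (i * w)).take w) % P

/-- The transition to the next operation. -/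
def trans (P M N w : ℕ) (ops : List Op) (s : PSt) : PSt :=
  (s.1 + 1,
    upd s.2.1 (ops.getD s.1 (0, 0)).2 (pickz P M N (s.2.2.2.2.map (decv P N w))),
    (s.2.2.2.2.map (decv P N w)).flatMap (fun v => [false, true].flatMap (fun b =>
      if (comb P (ops.getD s.1 (0, 0)).1 (s.2.1.getD (ops.getD s.1 (0, 0)).2 0) (v.getD 0 0)
        (v.getD 1 0), b) ∈ s.2.2.1 then
          [(extr P v (pickz P M N (s.2.2.2.2.map (decv P N w))), b)] else [])),
    N * w, [[]])

/-- The list of possible pairs contains the right pair, and no pair with the right value and the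
wrong truth value. -/
def JJ (P : ℕ) (C : List (List (Bool × ℕ))) (ops : List Op) (b : Bool) (s : PSt) : Prop :=
  (val P C (ops.drop s.1) s.2.1, b) ∈ s.2.2.1 ∧
    ∀ v b', (v, b') ∈ s.2.2.1 → v = val P C (ops.drop s.1) s.2.1 → b' = b

/-- TASK Trans. -/
def TaskTrans : Prop := TaskDegree → TaskExtr1 → TaskExtr2 →
  ∀ (P M N w : ℕ) (qs : List Bool) (C : List (List (Bool × ℕ))) (b : Bool) (s : PSt),
    P.Prime → P ≤ 2 ^ w → N = lc C + 3 → N ≤ P → M * M * N < P →
    s.1 < (fullOps qs).length → s.2.1.length = qs.length → s.2.2.2.2.length ≤ M →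
    (∀ y ∈ s.2.2.2.2, y.length = N * w) →
    W (ctxOf P N w C (fullOps qs) s) ∈ s.2.2.2.2 →
    JJ P C (fullOps qs) b s → JJ P C (fullOps qs) b (trans P M N w (fullOps qs) s)

/-- TASK WLen. -/
def TaskWLen : Prop := ∀ c : Ctx,
  (W c).length = c.2.2.2.2.2.1.length * c.2.2.2.2.2.2.length

/-- One step of the search with the answer `k`. -/
def stepP (P M N w : ℕ) (ops : List Op) (s : PSt) (k : ℕ) : PSt :=
  if ops.length ≤ s.1 then s
  else if M < s.2.2.2.2.length then
    (s.1, s.2.1, s.2.2.1, s.2.2.2.1, s.2.2.2.2.take (min k (s.2.2.2.2.length - 1)) ++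
      s.2.2.2.2.drop (min k (s.2.2.2.2.length - 1) + 1))
  else if s.2.2.2.1 = 0 then trans P M N w ops s
  else (s.1, s.2.1, s.2.2.1, s.2.2.2.1 - 1, ext s.2.2.2.2)

/-- TASK PolyStep. -/
def TaskPolyStep : Prop := ∀ (α : Type) (_ : TEnc α) (P M N w : α → ℕ) (ops : α → List Op)
  (s : α → PSt) (k : α → ℕ), Poly P → UPoly M → UPoly N → UPoly w → Poly ops → Poly s → Poly k →
  (∀ x, 1 ≤ P x) →
  Poly (fun x => stepP (P x) (M x) (N x) (w x) (ops x) (s x) (k x))

/-- TASK PolyVal. -/
def TaskPolyVal : Prop := ∀ (α : Type) (_ : TEnc α) (P : α → ℕ) (C : α → List (List (Bool × ℕ)))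
  (a : α → List ℕ), Poly P → Poly C → Poly a → (∀ x, 1 ≤ P x) →
  Poly (fun x => mat (P x) (C x) (a x))

/-! ## Search machines -/

/-- A machine which finds out whether `x ∈ L` with the help of answers `k` to queries (lists of
strings), where every answer has to exclude one threshold pattern of the query for `A`. -/
structure Mach (A L : Set (List Bool)) (q : Polynomial ℕ) : Type 1 where
  /-- the states -/
  S : Type
  enc : TEnc S
  /-- the initial state -/
  init : List Bool → S
  /-- is there a query in this state? -/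
  need : List Bool → S → Bool
  /-- the query -/
  Q : List Bool → S → List (List Bool)
  /-- the next state -/
  step : List Bool → S → ℕ → S
  /-- the output -/
  out : List Bool → S → Bool
  T : Polynomial ℕ
  nn : Polynomial ℕ
  B : Polynomial ℕ
  /-- the shape of the states -/
  Sh : List Bool → S → Prop
  /-- correct states -/
  Inv : List Bool → S → Prop
  p_init : Poly init
  p_need : Poly (fun p : List Bool × S => need p.1 p.2)
  p_Q : Poly (fun p : List Bool × S => Q p.1 p.2)
  p_step : Poly (fun p : List Bool × S × ℕ => step p.1 p.2.1 p.2.2)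
  p_out : Poly (fun p : List Bool × S => out p.1 p.2)
  sh0 : ∀ x, Sh x (init x)
  sh_step : ∀ x s k, Sh x s → Sh x (step x s k)
  sh_sz : ∀ x s, Sh x s → sz s ≤ B.eval x.length
  inv0 : ∀ x, Inv x (init x)
  q_len : ∀ x s, Sh x s → ∀ y ∈ Q x s, y.length ≤ nn.eval x.length
  q_sz : ∀ x s, Sh x s → sz (Q x s) ≤ B.eval x.length
  q_card : ∀ x s, Sh x s → need x s = true → q.eval (nn.eval x.length) ≤ (Q x s).length
  q_pat : ∀ x s, Sh x s → Inv x s → need x s = true → ∃ j, Pattern A (Q x s) j
  inv_q : ∀ x s k, Sh x s → Inv x s → need x s = true → k ≤ (Q x s).length →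
    ¬ Pattern A (Q x s) k → Inv x (step x s k)
  inv_n : ∀ x s k, Sh x s → Inv x s → need x s = false → Inv x (step x s k)
  /-- after `T` steps, with arbitrary answers, a correct state gives the correct output -/
  fin : ∀ (x : List Bool) (ks : ℕ → ℕ),
    Inv x (Nat.rec (init x) (fun t s => step x s (ks t)) (T.eval x.length)) →
    (out x (Nat.rec (init x) (fun t s => step x s (ks t)) (T.eval x.length)) = true ↔ x ∈ L)

/-- TASK MachP. -/
def TaskMachP : Prop := ∀ (A L : Set (List Bool)) (q : Polynomial ℕ) (E : List (List Bool) → ℕ),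
  DetExcluder A q E → Nonempty (Mach A L q) → InP L

/-- A nondeterministic algorithm which refutes a threshold pattern of every list which has one. -/
structure Refuter2 (A : Set (List Bool)) (q ℓ : Polynomial ℕ)
    (E : List (List Bool) → List Bool → ℕ) : Prop where
  poly : ∃ F : List Bool → List Bool, PolyTime F ∧
    ∀ (L : List (List Bool)) (w : List Bool), F (bits (L, w)) = bits (E L w)
  sound : ∀ (L : List (List Bool)) (w : List Bool), w.length = ℓ.eval (bits L).length →
    ¬ Pattern A L (E L w)
  complete : ∀ (L : List (List Bool)) (n : ℕ), (∀ x ∈ L, x.length ≤ n) → q.eval n ≤ L.length →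
    (∃ j, Pattern A L j) → ∃ w : List Bool, w.length = ℓ.eval (bits L).length ∧ E L w ≤ L.length

/-- TASK MachNP. -/
def TaskMachNP : Prop := ∀ (A L : Set (List Bool)) (q ℓ : Polynomial ℕ)
  (E : List (List Bool) → List Bool → ℕ), Refuter2 A q ℓ E → Nonempty (Mach A L q) → InNP L

/-- TASK Mach. -/
def TaskMach : Prop := ∀ (A L : Set (List Bool)) (q : Polynomial ℕ), PSPACEHard A → InPSPACE L →
  Nonempty (Mach A L q)

end Pool.Agent.H334R5.Ps
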