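import Mathlib
import Pool.Agent.H334R5.Ps.Stmts

set_option autoImplicit false

open Filter Topology

namespace Pool.Agent.H334R5.Ps.TExp

theorem key (R : Polynomial ℕ) :
    Tendsto (fun t : ℕ => ((R.eval t : ℕ) : ℝ) / 2 ^ t) atTop (𝓝 0) := by
  induction R using Polynomial.induction_on' with
  | add p q hp hq =>
    have := hp.add hq
    simp only [add_zero] at this
    refine this.congr fun t => ?_
    rw [Polynomial.eval_add]; push_cast; ring
  | monomial n a =>
    have h := (tendsto_pow_const_div_const_pow_of_one_lt n (one_lt_two : (1:ℝ) < 2)).const_mul (a : ℝ)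
    rw [mul_zero] at h
    refine h.congr fun t => ?_
    rw [Polynomial.eval_monomial]; push_cast; ring

theorem taskExp : TaskExp := by
  intro R
  obtain ⟨c, hc⟩ := eventually_atTop.1 ((key R).eventually_lt_const zero_lt_one)
  refine ⟨c, fun t ht => ?_⟩
  have h := hc t ht
  rw [div_lt_one (by positivity)] at h
  exact_mod_cast h

end Pool.Agent.H334R5.Ps.TExp
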