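import Pool.Agent.H334R5.Ps.Stmts

/-!
# Newton extrapolation (task Extr1 of project H334-PSPACE)
-/

set_option autoImplicit false

namespace Pool.Agent.H334R5.Ps

open Polynomial fwdDiff

/-- `v` is the list of the values of `h` at `0, 1, …, n - 1`. -/
private def Vals {P : ℕ} (h : ZMod P → ZMod P) (n : ℕ) (v : List ℕ) : Prop :=
  v.length = n ∧ ∀ i < n, ((v.getD i 0 : ℕ) : ZMod P) = h (i : ZMod P)

private lemma getD_map_range (f : ℕ → ℕ) (n i : ℕ) (hi : i < n) :
    ((List.range n).map f).getD i 0 = f i := by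
  rw [List.getD_eq_getElem _ _ (by simpa using hi)]
  simp

private lemma cast_sub_mod {P : ℕ} (hP : 0 < P) (x : ℕ) : ((P - x % P : ℕ) : ZMod P) = - (x : ZMod P) := by
  rw [Nat.cast_sub (Nat.mod_lt x hP).le, ZMod.natCast_mod]
  simp

private lemma vals_dif {P : ℕ} (hP : 0 < P) (h : ZMod P → ZMod P) (n : ℕ) (v : List ℕ)
    (hv : Vals h n v) : Vals (fwdDiff (1 : ZMod P) h) (n - 1) (dif P v) := by
  obtain ⟨hl, hv⟩ := hv
  refine ⟨by simp [dif, hl], fun i hi => ?_⟩
  unfold dif
  rw [getD_map_range _ _ _ (by rw [hl]; exact hi), ZMod.natCast_mod, Nat.cast_add,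
    cast_sub_mod hP, hv (i + 1) (by omega), hv i (by omega)]
  simp [fwdDiff, sub_eq_add_neg]

private lemma vals_iter {P : ℕ} (hP : 0 < P) (h : ZMod P → ZMod P) (n : ℕ) (v : List ℕ)
    (hv : Vals h n v) (k : ℕ) :
    Vals ((fwdDiff (1 : ZMod P))^[k] h) (n - k) ((List.range k).foldl (fun u _ => dif P u) v) := by
  induction k with
  | zero => simpa using hv
  | succ k ih =>
    rw [List.range_succ, List.foldl_append, Function.iterate_succ_apply', Nat.sub_succ']
    exact vals_dif hP _ _ _ ih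

private lemma newton_spec {P : ℕ} (hP : 0 < P) (h : ZMod P → ZMod P) (n : ℕ) (v : List ℕ)
    (hv : Vals h n v) : (newton P v).length = n ∧
      ∀ k < n, (((newton P v).getD k 0 : ℕ) : ZMod P) = ((fwdDiff (1 : ZMod P))^[k] h) 0 := by
  refine ⟨by simp [newton, hv.1], fun k hk => ?_⟩
  unfold newton
  rw [getD_map_range _ _ _ (by rw [hv.1]; exact hk)]
  have h1 := vals_iter hP h n v hv k
  have h2 := h1.2 0 (by omega)
  simp only [Nat.cast_zero] at h2
  rw [← h2]
  congr 1
  cases (List.range k).foldl (fun u _ => dif P u) v <;> simp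

private lemma shf_spec {P : ℕ} (h : ZMod P → ZMod P) (n : ℕ) (hn : (fwdDiff (1 : ZMod P))^[n] h = 0)
    (u : List ℕ) (z : ℕ) (hl : u.length = n)
    (hu : ∀ k < n, ((u.getD k 0 : ℕ) : ZMod P) = ((fwdDiff (1 : ZMod P))^[k] h) (z : ZMod P)) :
    (shf P u).length = n ∧
      ∀ k < n, (((shf P u).getD k 0 : ℕ) : ZMod P) = ((fwdDiff (1 : ZMod P))^[k] h) ((z + 1 : ℕ) : ZMod P) := by
  refine ⟨by simp [shf, hl], fun k hk => ?_⟩
  unfold shf
  rw [getD_map_range _ _ _ (by rw [hl]; exact hk), ZMod.natCast_mod, Nat.cast_add, hu k hk]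
  have h1 : ((u.getD (k + 1) 0 : ℕ) : ZMod P) = ((fwdDiff (1 : ZMod P))^[k + 1] h) (z : ZMod P) := by
    rcases Nat.lt_or_ge (k + 1) n with h2 | h2
    · exact hu _ h2
    · have h3 : k + 1 = n := by omega
      rw [h3, hn, List.getD_eq_default _ _ (by omega)]
      simp
  rw [h1, Function.iterate_succ_apply']
  simp [fwdDiff]

private lemma iter_spec {P : ℕ} (h : ZMod P → ZMod P) (n : ℕ) (hn : (fwdDiff (1 : ZMod P))^[n] h = 0)
    (u : List ℕ) (hl : u.length = n)
    (hu : ∀ k < n, ((u.getD k 0 : ℕ) : ZMod P) = ((fwdDiff (1 : ZMod P))^[k] h) 0) (z : ℕ) :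
    ((List.range z).foldl (fun u _ => shf P u) u).length = n ∧
      ∀ k < n, ((((List.range z).foldl (fun u _ => shf P u) u).getD k 0 : ℕ) : ZMod P) =
        ((fwdDiff (1 : ZMod P))^[k] h) (z : ZMod P) := by
  induction z with
  | zero => exact ⟨by simpa using hl, fun k hk => by simpa using hu k hk⟩
  | succ z ih =>
    rw [List.range_succ, List.foldl_append]
    exact shf_spec h n hn _ z ih.1 ih.2

/-- Newton extrapolation. -/
theorem taskExtr1 : TaskExtr1 := by
  intro P v g hP hg hv z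
  have hP0 : 0 < P := hP.pos
  have hn : (fwdDiff (1 : ZMod P))^[v.length] g.eval = 0 := Polynomial.fwdDiff_iter_eq_zero_of_degree_lt hg
  have h1 := newton_spec hP0 g.eval v.length v ⟨rfl, hv⟩
  have h2 := iter_spec g.eval v.length hn _ h1.1 h1.2 z
  unfold extr
  rw [ZMod.natCast_mod]
  have h3 := h2.2 0 (by omega)
  simp only [Function.iterate_zero, id_eq] at h3
  rw [← h3]
  congr 1
  cases (List.range z).foldl (fun u _ => shf P u) (newton P v) <;> simp

end Pool.Agent.H334R5.Ps
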