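import Pool.Agent.H334R5.Ps.Stmts

/-! TASK Extr2 (helper383). -/

set_option autoImplicit false

namespace Pool.Agent.H334R5.Ps

open Finset

namespace Extr2

/-- `i ↦ (i : ZMod P)` is injective on `range N` for `N ≤ P`. -/
theorem injOn_cast (P N : ℕ) (h : N ≤ P) :
    Set.InjOn (fun i : ℕ => (i : ZMod P)) (Finset.range N : Set ℕ) := by
  intro i hi j hj hij
  have hi' : i < P := lt_of_lt_of_le (Finset.mem_range.1 (Finset.mem_coe.1 hi)) h
  have hj' : j < P := lt_of_lt_of_le (Finset.mem_range.1 (Finset.mem_coe.1 hj)) h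
  have h1 := (ZMod.natCast_eq_natCast_iff' i j P).1 hij
  rwa [Nat.mod_eq_of_lt hi', Nat.mod_eq_of_lt hj'] at h1

/-- the interpolation polynomial -/
theorem exists_poly (P N : ℕ) (hP : P.Prime) (hN : N ≤ P) (hN0 : 0 < N) (v : List ℕ) :
    ∃ g : Polynomial (ZMod P), g.natDegree < N ∧
      ∀ i < N, ((v.getD i 0 : ℕ) : ZMod P) = g.eval (i : ZMod P) := by
  have : Fact P.Prime := ⟨hP⟩
  have hinj := injOn_cast P N hN
  refine ⟨Lagrange.interpolate (Finset.range N) (fun i : ℕ => (i : ZMod P))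
    (fun i => ((v.getD i 0 : ℕ) : ZMod P)), ?_, ?_⟩
  · have hd := Lagrange.degree_interpolate_lt (s := Finset.range N)
      (r := fun i => ((v.getD i 0 : ℕ) : ZMod P)) hinj
    rw [Finset.card_range] at hd
    by_cases h0 : Lagrange.interpolate (Finset.range N) (fun i : ℕ => (i : ZMod P))
      (fun i => ((v.getD i 0 : ℕ) : ZMod P)) = 0
    · rw [h0, Polynomial.natDegree_zero]; exact hN0
    · exact (Polynomial.natDegree_lt_iff_degree_lt h0).2 hd
  · intro i hi
    exact (Lagrange.eval_interpolate_at_node (s := Finset.range N)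
      (fun i => ((v.getD i 0 : ℕ) : ZMod P)) hinj (Finset.mem_range.2 hi)).symm

theorem bad_card (h1 : TaskExtr1) (P N K : ℕ) (hP : P.Prime) (hN : N ≤ P) (hN0 : 0 < N)
    (hK : K < P) (v v' : List ℕ) (hv : v.length = N) (hv' : v'.length = N)
    (hb : ∀ y ∈ v, y < P) (hb' : ∀ y ∈ v', y < P) (hne : v ≠ v') :
    ((Finset.range (K + 1)).filter (fun z => extr P v z = extr P v' z)).card ≤ N - 1 := by
  have : Fact P.Prime := ⟨hP⟩
  obtain ⟨g, hg, hgv⟩ := exists_poly P N hP hN hN0 v
  obtain ⟨g', hg', hgv'⟩ := exists_poly P N hP hN hN0 v'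
  have hgne : g - g' ≠ 0 := by
    intro h0
    apply hne
    have hgg : g = g' := sub_eq_zero.1 h0
    apply List.ext_getElem (by rw [hv, hv'])
    intro i hi hi'
    have e1 := hgv i (hv ▸ hi)
    have e2 := hgv' i (hv' ▸ hi')
    rw [← hgg, ← e1] at e2
    have e3 := (ZMod.natCast_eq_natCast_iff' _ _ P).1 e2
    rw [List.getD_eq_getElem _ _ hi, List.getD_eq_getElem _ _ hi',
      Nat.mod_eq_of_lt (hb _ (List.getElem_mem hi)),
      Nat.mod_eq_of_lt (hb' _ (List.getElem_mem hi'))] at e3
    exact e3.symm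
  have hdeg : (g - g').natDegree ≤ N - 1 := by
    have := Polynomial.natDegree_sub_le g g'
    have h2 : max g.natDegree g'.natDegree ≤ N - 1 := max_le (by omega) (by omega)
    exact this.trans h2
  refine le_trans ?_ hdeg
  refine le_trans ?_ (Polynomial.card_roots' (g - g'))
  refine le_trans ?_ (Multiset.toFinset_card_le _)
  refine Finset.card_le_card_of_injOn (fun z : ℕ => (z : ZMod P)) ?_ ?_
  · intro z hz
    obtain ⟨hz1, hz2⟩ := Finset.mem_filter.1 (Finset.mem_coe.1 hz)
    rw [Finset.mem_coe, Multiset.mem_toFinset, Polynomial.mem_roots hgne, Polynomial.IsRoot.def,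
      Polynomial.eval_sub, ← h1 P v g hP (by rw [hv]; exact hg) (by rw [hv]; exact hgv) z,
      ← h1 P v' g' hP (by rw [hv']; exact hg') (by rw [hv']; exact hgv') z, hz2, sub_self]
  · intro i hi j hj hij
    have hi' := (Finset.mem_filter.1 (Finset.mem_coe.1 hi)).1
    have hj' := (Finset.mem_filter.1 (Finset.mem_coe.1 hj)).1
    exact injOn_cast P (K + 1) (by omega) (Finset.mem_coe.2 hi') (Finset.mem_coe.2 hj') hij

end Extr2

open Extr2 in
theorem taskExtr2 (h1 : TaskExtr1) : TaskExtr2 := by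
  classical
  intro P N M V hP hN hM hV hVN
  rcases Nat.eq_zero_or_pos N with h0 | h0
  · refine ⟨0, Nat.zero_le _, ?_⟩
    intro v hv v' hv' hne
    exfalso
    apply hne
    have e1 := (hVN v hv).1
    have e2 := (hVN v' hv').1
    rw [h0] at e1 e2
    rw [List.length_eq_zero_iff.1 e1, List.length_eq_zero_iff.1 e2]
  · set S : Finset (List ℕ × List ℕ) :=
      (V.toFinset ×ˢ V.toFinset).filter (fun p => p.1 ≠ p.2) with hS
    set bad : List ℕ × List ℕ → Finset ℕ := fun p =>
      (Finset.range (M * M * N + 1)).filter (fun z => extr P p.1 z = extr P p.2 z) with hbad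
    have hb : ∀ p ∈ S, (bad p).card ≤ N - 1 := by
      intro p hp
      rw [hS, Finset.mem_filter, Finset.mem_product, List.mem_toFinset, List.mem_toFinset] at hp
      obtain ⟨⟨hp1, hp2⟩, hp3⟩ := hp
      exact bad_card h1 P N (M * M * N) hP hN h0 hM p.1 p.2 (hVN _ hp1).1 (hVN _ hp2).1
        (hVN _ hp1).2 (hVN _ hp2).2 hp3
    have hcard : (S.biUnion bad).card ≤ S.card * (N - 1) :=
      Finset.card_biUnion_le_card_mul S bad (N - 1) hb
    have hVc : V.toFinset.card ≤ M := (List.toFinset_card_le V).trans hV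
    have hSc : S.card ≤ M * M := by
      refine (Finset.card_filter_le _ _).trans ?_
      rw [Finset.card_product]
      exact Nat.mul_le_mul hVc hVc
    have hlt : (S.biUnion bad).card < (Finset.range (M * M * N + 1)).card := by
      rw [Finset.card_range]
      refine lt_of_le_of_lt (hcard.trans (Nat.mul_le_mul hSc (Nat.sub_le N 1))) ?_
      exact Nat.lt_succ_self _
    obtain ⟨z, hz, hzb⟩ := Finset.exists_mem_notMem_of_card_lt_card hlt
    refine ⟨z, Nat.lt_succ_iff.1 (Finset.mem_range.1 hz), ?_⟩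
    intro v hv v' hv' hne he
    apply hzb
    rw [Finset.mem_biUnion]
    refine ⟨(v, v'), ?_, ?_⟩
    · rw [hS, Finset.mem_filter, Finset.mem_product, List.mem_toFinset, List.mem_toFinset]
      exact ⟨⟨hv, hv'⟩, hne⟩
    · rw [hbad, Finset.mem_filter]
      exact ⟨hz, he⟩

end Pool.Agent.H334R5.Ps
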