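import Pool.Agent.H334R5.Ps.Stmts

/-!
# Deterministic simulation of a search machine
-/

set_option autoImplicit false

namespace Pool.Agent.H334R5.Ps

open Pool.Agent.NPC
open Pool.Agent.H334R5.Nd (Pattern DetExcluder)

theorem taskMachP : TaskMachP := by
  intro A L q E hE hm
  obtain ⟨m⟩ := hm
  letI := m.enc
  have pE : Poly E := by
    obtain ⟨F, hF, hFR⟩ := hE.poly
    exact Cnt.FPoly.poly ⟨F, hF, hFR⟩
  -- the sequence of the states
  set st : List Bool → ℕ → m.S := fun x t =>
    Nat.rec (m.init x) (fun _ s => m.step x s (E (m.Q x s))) t with hst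
  have st0 : ∀ x, st x 0 = m.init x := fun x => rfl
  have stS : ∀ x t, st x (t + 1) = m.step x (st x t) (E (m.Q x (st x t))) := fun x t => rfl
  have hSh : ∀ x t, m.Sh x (st x t) := by
    intro x t
    induction t with
    | zero => exact m.sh0 x
    | succ t ih => rw [stS]; exact m.sh_step _ _ _ ih
  have hInv : ∀ x t, m.Inv x (st x t) := by
    intro x t
    induction t with
    | zero => exact m.inv0 x
    | succ t ih =>
      rw [stS]
      cases hn : m.need x (st x t) with
      | false => exact m.inv_n _ _ _ (hSh x t) ih hn
      | true =>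
        have h1 := hE.excl (m.Q x (st x t)) (m.nn.eval x.length) (m.q_len _ _ (hSh x t))
          (m.q_card _ _ (hSh x t) hn) (m.q_pat _ _ (hSh x t) ih hn)
        exact m.inv_q _ _ _ (hSh x t) ih hn h1.1 h1.2
  have hrec : ∀ (x : List Bool) (t : ℕ),
      (Nat.rec (m.init x) (fun t s => m.step x s ((fun t => E (m.Q x (st x t))) t)) t : m.S) =
        st x t := by
    intro x t
    induction t with
    | zero => rfl
    | succ t ih =>
      show m.step x (Nat.rec (m.init x)
        (fun t s => m.step x s ((fun t => E (m.Q x (st x t))) t)) t) (E (m.Q x (st x t))) = _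
      rw [ih, stS]
  have hfold : ∀ (x : List Bool) (t : ℕ),
      (List.range t).foldl (fun s _ => m.step x s (E (m.Q x s))) (m.init x) = st x t := by
    intro x t
    induction t with
    | zero => rfl
    | succ t ih => rw [List.range_succ, List.foldl_append, ih]; rfl
  have uX : ∀ (P : Polynomial ℕ), UPoly (fun x : List Bool => P.eval x.length) :=
    fun P => (UPoly.length Poly.id).eval P
  have pfin : Poly (fun x : List Bool => (List.range (m.T.eval x.length)).foldl
      (fun s _ => m.step x s (E (m.Q x s))) (m.init x)) := by
    refine Poly.foldl (l := fun x : List Bool => List.range (m.T.eval x.length))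
      (s := fun x => m.init x) (F := fun x s (_ : ℕ) => m.step x s (E (m.Q x s)))
      (uX m.T).range m.p_init ?_ m.B ?_
    · have ha : Poly (fun p : List Bool × m.S × ℕ => p.1) := Poly.fst Poly.id
      have hs : Poly (fun p : List Bool × m.S × ℕ => p.2.1) := Poly.fst (Poly.snd Poly.id)
      have hq : Poly (fun p : List Bool × m.S × ℕ => E (m.Q p.1 p.2.1)) :=
        pE.comp (m.p_Q.comp (Poly.pair ha hs))
      exact m.p_step.comp (Poly.pair ha (Poly.pair hs hq))
    · intro x k hk
      have h1 : (List.range (m.T.eval x.length)).take k = List.range k := by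
        rw [List.length_range] at hk
        rw [List.take_range, min_eq_left hk]
      rw [h1, hfold]
      refine (m.sh_sz x _ (hSh x k)).trans ?_
      exact eval_mono m.B (le_of_lt (length_lt_sz x))
  have pout : Poly (fun x : List Bool => m.out x ((List.range (m.T.eval x.length)).foldl
      (fun s _ => m.step x s (E (m.Q x s))) (m.init x))) :=
    m.p_out.comp (Poly.pair Poly.id pfin)
  have pacc' : Poly (fun x : List Bool => [m.out x ((List.range (m.T.eval x.length)).foldl
      (fun s _ => m.step x s (E (m.Q x s))) (m.init x))]) :=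
    Poly.cons pout (NPC.Poly.const [])
  refine ⟨_, PIso.poly_iff.1 pacc', fun x => ?_⟩
  have h1 := m.fin x (fun t => E (m.Q x (st x t)))
  rw [hrec] at h1
  rw [hfold, ← h1 (hInv x _)]
  simp

end Pool.Agent.H334R5.Ps
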