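import Pool.Agent.H334R5.Ps.Stmts

/-!
# Task PolyVal: the value of a formula modulo `P` is computable in polynomial time
-/

set_option autoImplicit false

namespace Pool.Agent.H334R5.Ps

open Pool.Agent.NPC

section PV

variable {α β : Type} [TEnc α] [TEnc β]

omit [TEnc β] in
theorem pv_foldl_lt {P : ℕ} {F : ℕ → β → ℕ} (hb : ∀ v b, F v b < P) :
    ∀ (l : List β) (s : ℕ), s < P → l.foldl F s < P
  | [], _, hs => hs
  | b :: l, s, _ => pv_foldl_lt hb l (F s b) (hb s b)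

theorem pv_foldl {l : α → List β} {P s : α → ℕ} {F : α → ℕ → β → ℕ} (hl : NPC.Poly l)
    (hP : NPC.Poly P) (hs : NPC.Poly s)
    (hF : NPC.Poly (fun p : α × ℕ × β => F p.1 p.2.1 p.2.2))
    (hb : ∀ a v b, F a v b < P a) (hs' : ∀ a, s a < P a) :
    NPC.Poly (fun a => (l a).foldl (F a) (s a)) := by
  obtain ⟨r, hr⟩ := hP.sz_le
  refine NPC.Poly.foldl hl hs hF (Polynomial.C 2 * r) ?_
  intro a k _
  have h1 : ((l a).take k).foldl (F a) (s a) < P a := pv_foldl_lt (hb a) _ _ (hs' a)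
  have h2 := sz_nat_mono_le h1.le
  have h3 := hr a
  simp only [Polynomial.eval_mul, Polynomial.eval_C]
  omega

theorem pv_cpl {P x : α → ℕ} (hP : NPC.Poly P) (hx : NPC.Poly x) :
    NPC.Poly (fun t => cpl (P t) (x t)) := by
  unfold cpl
  exact NPC.Poly.mod (NPC.Poly.add (NPC.Poly.const 1)
    (NPC.Poly.sub hP (NPC.Poly.mod hx hP))) hP

theorem pv_lit {P : α → ℕ} {a : α → List ℕ} {l : α → Bool × ℕ} (hP : NPC.Poly P)
    (ha : NPC.Poly a) (hl : NPC.Poly l) : NPC.Poly (fun t => lit (P t) (a t) (l t)) := by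
  have hg : NPC.Poly (fun t => (a t).getD (l t).2 0) :=
    NPC.Poly.getD (d := fun _ => 0) ha (NPC.Poly.snd hl) (NPC.Poly.const 0)
  unfold lit
  exact NPC.Poly.ite (NPC.Poly.decide_bool (NPC.Poly.fst hl)) (NPC.Poly.mod hg hP)
    (pv_cpl hP hg)

theorem pv_cls {P : α → ℕ} {a : α → List ℕ} {c : α → List (Bool × ℕ)} (hP : NPC.Poly P)
    (ha : NPC.Poly a) (hc : NPC.Poly c) (h1 : ∀ t, 1 ≤ P t) :
    NPC.Poly (fun t => cls (P t) (a t) (c t)) := by
  unfold cls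
  refine pv_cpl hP (pv_foldl (P := P)
    (F := fun t v l => v * cpl (P t) (lit (P t) (a t) l) % P t) hc hP
    (NPC.Poly.mod (NPC.Poly.const 1) hP) ?_ ?_ ?_)
  · have hP' : NPC.Poly (fun p : α × ℕ × (Bool × ℕ) => P p.1) :=
      NPC.Poly.comp hP (NPC.Poly.fst NPC.Poly.id)
    have ha' : NPC.Poly (fun p : α × ℕ × (Bool × ℕ) => a p.1) :=
      NPC.Poly.comp ha (NPC.Poly.fst NPC.Poly.id)
    exact NPC.Poly.mod (NPC.Poly.mul (NPC.Poly.fst (NPC.Poly.snd NPC.Poly.id))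
      (pv_cpl hP' (pv_lit hP' ha' (NPC.Poly.snd (NPC.Poly.snd NPC.Poly.id))))) hP'
  · intro t v l
    exact Nat.mod_lt _ (h1 t)
  · intro t
    exact Nat.mod_lt _ (h1 t)

theorem pv_mat {P : α → ℕ} {C : α → List (List (Bool × ℕ))} {a : α → List ℕ}
    (hP : NPC.Poly P) (hC : NPC.Poly C) (ha : NPC.Poly a) (h1 : ∀ t, 1 ≤ P t) :
    NPC.Poly (fun t => mat (P t) (C t) (a t)) := by
  unfold mat
  refine pv_foldl (P := P)
    (F := fun t v c => v * cls (P t) (a t) c % P t) hC hP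
    (NPC.Poly.mod (NPC.Poly.const 1) hP) ?_ ?_ ?_
  · have hP' : NPC.Poly (fun p : α × ℕ × List (Bool × ℕ) => P p.1) :=
      NPC.Poly.comp hP (NPC.Poly.fst NPC.Poly.id)
    have ha' : NPC.Poly (fun p : α × ℕ × List (Bool × ℕ) => a p.1) :=
      NPC.Poly.comp ha (NPC.Poly.fst NPC.Poly.id)
    exact NPC.Poly.mod (NPC.Poly.mul (NPC.Poly.fst (NPC.Poly.snd NPC.Poly.id))
      (pv_cls hP' ha' (NPC.Poly.snd (NPC.Poly.snd NPC.Poly.id)) (fun p => h1 p.1))) hP'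
  · intro t v l
    exact Nat.mod_lt _ (h1 t)
  · intro t
    exact Nat.mod_lt _ (h1 t)

end PV

/-- Task PolyVal. -/
theorem taskPolyVal : TaskPolyVal := by
  intro α _ P C a hP hC ha h1
  exact pv_mat hP hC ha h1

end Pool.Agent.H334R5.Ps
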