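import Pool.Agent.H334R5.Ps.Stmts
import Pool.Agent.H671R2.PolyAuto

/-!
# Task Prime
-/

set_option autoImplicit false

namespace Pool.Agent.H334R5.Ps

open Pool.Agent.NPC

theorem prm_spec (B : ℕ) (hB : 1 ≤ B) : (prm B).Prime ∧ B < prm B ∧ prm B ≤ 2 * B + 2 := by
  obtain ⟨p, hp, hBp, hp2⟩ := Nat.exists_prime_lt_and_le_two_mul B (by omega)
  set L := (List.range (2 * B + 3)).filter fun n => decide (B < n) && (decide (2 ≤ n) &&
    (List.range n).all fun d => decide (d < 2) || !decide (n % d = 0)) with hL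
  have hmem : p ∈ L := by
    rw [hL, List.mem_filter]
    refine ⟨List.mem_range.2 (by omega), ?_⟩
    simp only [Bool.and_eq_true, decide_eq_true_eq, List.all_eq_true, List.mem_range,
      Bool.or_eq_true, Bool.not_eq_true', decide_eq_false_iff_not]
    refine ⟨hBp, hp.two_le, fun d hd => ?_⟩
    by_cases h2 : d < 2
    · exact Or.inl h2
    · right
      intro h
      have := (Nat.prime_def_lt'.1 hp).2 d (by omega) hd
      exact this (Nat.dvd_of_mod_eq_zero h)
  obtain ⟨h, t, ht⟩ := List.exists_cons_of_ne_nil (List.ne_nil_of_mem hmem)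
  have hh : prm B = h := by
    unfold prm
    rw [← hL, ht]
    rfl
  have hin : h ∈ L := by rw [ht]; exact List.mem_cons_self
  rw [hL, List.mem_filter] at hin
  obtain ⟨h1, h2⟩ := hin
  simp only [Bool.and_eq_true, decide_eq_true_eq, List.all_eq_true, List.mem_range,
      Bool.or_eq_true, Bool.not_eq_true', decide_eq_false_iff_not] at h1 h2
  obtain ⟨h3, h4, h5⟩ := h2
  rw [hh]
  refine ⟨Nat.prime_def_lt'.2 ⟨h4, fun m hm hmh hdvd => ?_⟩, h3, by omega⟩
  rcases h5 m hmh with h6 | h6
  · omega
  · exact h6 (Nat.mod_eq_zero_of_dvd hdvd)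

theorem prm_poly (α : Type) (_ : TEnc α) (B : α → ℕ) (hB : UPoly B) :
    Poly (fun x => prm (B x)) := by
  have hBp : Poly B := hB.toPoly
  obtain ⟨R, hR⟩ : ∃ R : α → List ℕ, R = fun x => List.range (2 * B x + 3) := ⟨_, rfl⟩
  have hRp : Poly R := by
    rw [hR]
    exact UPoly.range (UPoly.add (UPoly.mul (UPoly.const 2) hB) (UPoly.const 3))
  have h1 : Poly (fun x => (((R x).filter fun n => decide (B x < n) && (decide (2 ≤ n) &&
      (R x).all fun d => !decide (d < n) || (decide (d < 2) || !decide (n % d = 0)))).head?).getD 2) := by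
    fun_prop
  refine h1.congr fun x => ?_
  unfold prm
  congr 2
  rw [hR]
  refine List.filter_congr fun n hn => ?_
  rw [List.mem_range] at hn
  congr 2
  rw [Bool.eq_iff_iff]
  simp only [List.all_eq_true, List.mem_range, Bool.or_eq_true, Bool.not_eq_true',
    decide_eq_false_iff_not, decide_eq_true_eq]
  constructor
  · intro h d hd
    rcases h d (by omega) with h | h
    · exact absurd hd h
    · exact h
  · intro h d _
    by_cases hdn : d < n
    · exact Or.inr (h d hdn)
    · exact Or.inl hdn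

theorem taskPrime : TaskPrime := ⟨prm_spec, prm_poly⟩

end Pool.Agent.H334R5.Ps
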