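import Pool.Agent.H334R5.Ps.Stmts

/-!
# Evaluation of binary trees in polynomial space
-/

set_option autoImplicit false

namespace Pool.Agent.H334R5.Ps

namespace TreeEv

open Pool.Agent.NPC
open Pool.Agent.H623R2.PS (InPSPACE inPSPACE_of_process)

section Reach

variable {β : Type} (F : β → Bool × β)

/-- The process leads from `s` to `t` without halting before. -/
def Rch (s t : β) : Prop :=
  ∃ n, (∀ i < n, (F ((fun b => (F b).2)^[i] s)).1 = false) ∧ (fun b => (F b).2)^[n] s = t

theorem Rch.refl (s : β) : Rch F s s := ⟨0, by simp, rfl⟩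

theorem Rch.step {s t : β} (h : (F s).1 = false) (h' : Rch F (F s).2 t) : Rch F s t := by
  obtain ⟨n, h1, h2⟩ := h'
  refine ⟨n + 1, ?_, ?_⟩
  · intro i hi
    cases i with
    | zero => exact h
    | succ i =>
      rw [Function.iterate_succ_apply]
      exact h1 i (by omega)
  · rw [Function.iterate_succ_apply]
    exact h2

theorem Rch.trans {s t u : β} (h : Rch F s t) (h' : Rch F t u) : Rch F s u := by
  obtain ⟨n, h1, h2⟩ := h
  obtain ⟨m, g1, g2⟩ := h'
  refine ⟨m + n, ?_, ?_⟩
  · intro i hi
    by_cases hin : i < n
    · exact h1 i hin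
    · obtain ⟨j, rfl⟩ : ∃ j, i = j + n := ⟨i - n, by omega⟩
      rw [Function.iterate_add_apply, h2]
      exact g1 j (by omega)
  · rw [Function.iterate_add_apply, h2, g2]

end Reach

variable {α γ : Type}

/-- The path to a node, given by the digits (the lowest one first). -/
def path (l : List (Option γ)) : List Bool := l.reverse.map fun d => d.isSome

theorem path_cons (d : Option γ) (l : List (Option γ)) : path (d :: l) = path l ++ [d.isSome] := by
  simp [path]

/-- The state: the input, the number of levels below, the digits above, and the value of the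
subtree at the present node if it is already known. -/
abbrev St (α γ : Type) := α × (List Unit × (List (Option γ) × Option γ))

/-- One step of the evaluation. -/
def tstep (leaf : α → List Bool → γ) (cmb : α → List Bool → γ → γ → γ) (x : St α γ) :
    Bool × St α γ :=
  x.2.2.2.elim
    (bif x.2.1.isEmpty then (false, (x.1, (x.2.1, (x.2.2.1, some (leaf x.1 (path x.2.2.1))))))
      else (false, (x.1, (x.2.1.tail, (none :: x.2.2.1, none)))))
    (fun w => x.2.2.1.head?.elim (true, x)
      (fun d => d.elim (false, (x.1, (x.2.1, (some w :: x.2.2.1.tail, none))))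
        (fun u => (false, (x.1, (() :: x.2.1,
          (x.2.2.1.tail, some (cmb x.1 (path x.2.2.1.tail) u w))))))))

section Correct

variable (leaf : α → List Bool → γ) (cmb : α → List Bool → γ → γ → γ) (a : α)

theorem block (d : ℕ) (l : List (Option γ)) :
    Rch (tstep leaf cmb) (a, (List.replicate d (), (l, none)))
      (a, (List.replicate d (), (l, some (evt leaf cmb a d (path l))))) := by
  induction d generalizing l with
  | zero =>
    refine Rch.step _ rfl ?_
    exact Rch.refl _ _
  | succ d ih =>
    refine Rch.step _ rfl ?_
    have h0 : (tstep leaf cmb (a, (List.replicate (d + 1) (), (l, none)))).2 =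
        (a, (List.replicate d (), (none :: l, none))) := rfl
    rw [h0]
    refine Rch.trans _ (ih (none :: l)) ?_
    refine Rch.step _ rfl ?_
    have h1 : (tstep leaf cmb (a, (List.replicate d (), (none :: l,
        some (evt leaf cmb a d (path (none :: l))))))).2 =
        (a, (List.replicate d (), (some (evt leaf cmb a d (path (none :: l))) :: l, none))) := rfl
    rw [h1]
    refine Rch.trans _ (ih _) ?_
    refine Rch.step _ rfl ?_
    have h2 : (tstep leaf cmb (a, (List.replicate d (),
        (some (evt leaf cmb a d (path (none :: l))) :: l,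
        some (evt leaf cmb a d (path (some (evt leaf cmb a d (path (none :: l))) :: l))))))).2 =
        (a, (List.replicate (d + 1) (), (l, some (cmb a (path l)
          (evt leaf cmb a d (path (none :: l)))
          (evt leaf cmb a d (path (some (evt leaf cmb a d (path (none :: l))) :: l)))))) ) := rfl
    rw [h2, path_cons, path_cons]
    exact Rch.refl _ _

/-- The stored values are values of subtrees. -/
def Good (N : ℕ) : List (Option γ) → Prop
  | [] => True
  | none :: l => Good N l
  | some v :: l => (∃ d, l.length + 1 + d = N ∧ v = evt leaf cmb a d (path l ++ [false])) ∧ Good N l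

/-- The invariant. -/
def Inv (N : ℕ) (x : St α γ) : Prop :=
  x.1 = a ∧ x.2.1.length + x.2.2.1.length = N ∧ Good leaf cmb a N x.2.2.1 ∧
    ∀ w, x.2.2.2 = some w → w = evt leaf cmb a x.2.1.length (path x.2.2.1)

theorem inv_step (N : ℕ) (x : St α γ) (h : Inv leaf cmb a N x) :
    Inv leaf cmb a N (tstep leaf cmb x).2 := by
  obtain ⟨b, k, l, c⟩ := x
  obtain ⟨h1, h2, h3, h4⟩ := h
  simp only at h1 h2 h3 h4
  subst h1
  cases c with
  | none =>
    cases k with
    | nil =>
      refine ⟨rfl, h2, h3, ?_⟩
      intro w hw
      have : some (leaf b (path l)) = some w := hw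
      rw [Option.some.injEq] at this
      rw [← this]
      rfl
    | cons u k =>
      refine ⟨rfl, ?_, h3, ?_⟩
      · show k.length + (none :: l).length = N
        simp only [List.length_cons] at h2 ⊢
        omega
      · intro w hw
        exact absurd hw (by simp [tstep])
  | some w =>
    have h5 := h4 w rfl
    cases l with
    | nil => exact ⟨rfl, h2, h3, fun w' hw' => h4 w' hw'⟩
    | cons d l =>
      cases d with
      | none =>
        refine ⟨rfl, h2, ?_, ?_⟩
        · show Good leaf cmb b N (some w :: l)
          refine ⟨⟨k.length, ?_, ?_⟩, h3⟩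
          · simp only [List.length_cons] at h2
            omega
          · rw [h5, path_cons]
            rfl
        · intro w' hw'
          exact absurd hw' (by simp [tstep])
      | some u =>
        obtain ⟨⟨d, hd, hu⟩, h6⟩ := h3
        have hdk : d = k.length := by
          simp only [List.length_cons] at h2
          omega
        refine ⟨rfl, ?_, h6, ?_⟩
        · show (() :: k).length + l.length = N
          simp only [List.length_cons] at h2 ⊢
          omega
        · intro w' hw'
          have h7 : some (cmb b (path l) u w) = some w' := hw'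
          rw [Option.some.injEq] at h7
          rw [← h7]
          show cmb b (path l) u w = evt leaf cmb b (k.length + 1) (path l)
          rw [evt, h5, path_cons, hu, hdk]
          rfl

theorem inv_iter (N : ℕ) (i : ℕ) (x : St α γ) (h : Inv leaf cmb a N x) :
    Inv leaf cmb a N ((fun b => (tstep leaf cmb b).2)^[i] x) := by
  induction i generalizing x with
  | zero => exact h
  | succ i ih =>
    rw [Function.iterate_succ_apply]
    exact ih _ (inv_step leaf cmb a N x h)

end Correct

section Size

variable [TEnc α] [TEnc γ]

theorem sz_units (k : List Unit) : sz k = 2 * k.length + 1 := by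
  induction k with
  | nil => simp
  | cons u k ih =>
    rw [sz_list_cons, ih, List.length_cons]
    have : sz u = 1 := sz_unit u
    omega

omit [TEnc α] in
theorem good_sz (leaf : α → List Bool → γ) (cmb : α → List Bool → γ → γ → γ) (a : α) (N M : ℕ)
    (hM : ∀ p d, p.length + d = N → sz (evt leaf cmb a d p) ≤ M) (l : List (Option γ))
    (h : Good leaf cmb a N l) : ∀ d ∈ l, sz d ≤ M + 2 := by
  induction l with
  | nil => simp
  | cons d l ih =>
    intro e he
    cases d with
    | none =>
      rcases List.mem_cons.1 he with rfl | he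
      · simp
      · exact ih h e he
    | some v =>
      obtain ⟨⟨d, hd, hv⟩, h'⟩ := h
      rcases List.mem_cons.1 he with rfl | he
      · rw [sz_some, hv]
        have := hM (path l ++ [false]) d (by simp [path]; omega)
        omega
      · exact ih h' e he

theorem inv_sz (leaf : α → List Bool → γ) (cmb : α → List Bool → γ → γ → γ) (a : α) (N M : ℕ)
    (hM : ∀ p d, p.length + d = N → sz (evt leaf cmb a d p) ≤ M) (x : St α γ)
    (h : Inv leaf cmb a N x) : sz x ≤ sz a + (2 * N + 1) + (N * (M + 3) + 1) + (M + 2) + 3 := by
  obtain ⟨b, k, l, c⟩ := x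
  obtain ⟨h1, h2, h3, h4⟩ := h
  simp only at h1 h2 h3 h4
  subst h1
  have e1 : sz (b, (k, (l, c))) = sz b + (sz k + (sz l + sz c + 1) + 1) + 1 := by simp
  have e2 := sz_units k
  have e3 := sz_le_length_mul l (M + 2) (good_sz leaf cmb b N M hM l h3)
  have e4 : sz c ≤ M + 2 := by
    cases c with
    | none => simp
    | some w =>
      rw [sz_some, h4 w rfl]
      have := hM (path l) k.length (by simp [path]; omega)
      omega
  have e5 : l.length * (M + 3) ≤ N * (M + 3) := Nat.mul_le_mul_right _ (by omega)
  have e6 : l.length * (M + 2 + 1) = l.length * (M + 3) := rfl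
  omega

end Size

end TreeEv

open TreeEv
open Pool.Agent.NPC
open Pool.Agent.H623R2.PS (InPSPACE inPSPACE_of_process)

theorem taskTree : TaskTree := by
  intro α γ _ _ L init n leaf cmb out B hinit hn hleaf hcmb hout hB hL
  obtain ⟨r1, hr1⟩ := NPC.Poly.sz_le hinit
  obtain ⟨r2, hr2⟩ := NPC.Poly.sz_le hn
  have hsz : ∀ x : List Bool, sz x ≤ 4 * x.length + 1 := fun x => sz_listBool_le x
  choose m h1 h2 using fun x => block leaf cmb (init x) (n (init x)) []
  have hpath : NPC.Poly (fun l : List (Option γ) => path l) := by
    unfold path
    refine NPC.Poly.map (F := fun _ (d : Option γ) => d.isSome) (by fun_prop) ?_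
    refine (NPC.Poly.optElim (o := fun p : List (Option γ) × Option γ => p.2)
      (g := fun _ => false) (h := fun _ _ => true) (by fun_prop) (by fun_prop)
      (by fun_prop)).congr fun p => ?_
    cases p.2 <;> rfl
  have hstep : NPC.Poly (tstep leaf cmb) := by
    unfold tstep
    refine NPC.Poly.optElim (by fun_prop) ?_ ?_
    · refine NPC.Poly.cond (by fun_prop) ?_ (by fun_prop)
      refine NPC.Poly.pair (by fun_prop) (NPC.Poly.pair (by fun_prop) (NPC.Poly.pair (by fun_prop)
        (NPC.Poly.pair (by fun_prop) (NPC.Poly.some ?_))))
      exact hleaf.comp (f := fun x : St α γ => (x.1, path x.2.2.1))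
        (NPC.Poly.pair (by fun_prop) (hpath.comp (f := fun x : St α γ => x.2.2.1) (by fun_prop)))
    · refine NPC.Poly.optElim (by fun_prop) (by fun_prop) ?_
      refine NPC.Poly.optElim (by fun_prop) (by fun_prop) ?_
      refine NPC.Poly.pair (by fun_prop) (NPC.Poly.pair (by fun_prop) (NPC.Poly.pair (by fun_prop)
        (NPC.Poly.pair (by fun_prop) (NPC.Poly.some ?_))))
      refine hcmb.comp (f := fun p : ((St α γ × γ) × Option γ) × γ =>
        (p.1.1.1.1, (path p.1.1.1.2.2.1.tail, (p.2, p.1.1.2)))) ?_
      exact NPC.Poly.pair (by fun_prop) (NPC.Poly.pair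
        (hpath.comp (f := fun p : ((St α γ × γ) × Option γ) × γ => p.1.1.1.2.2.1.tail)
          (by fun_prop)) (by fun_prop))
  set s0 : List Bool → St α γ := fun x =>
    (init x, (List.replicate (n (init x)) (), ([], none))) with hs0
  have hfin : ∀ x, (fun b => (tstep leaf cmb b).2)^[m x] (s0 x) =
      (init x, (List.replicate (n (init x)) (), ([], some (evt leaf cmb (init x)
        (n (init x)) [])))) := fun x => h2 x
  refine inPSPACE_of_process (β := St α γ) (init := s0) ?_ hstep
    (out := fun y => y.2.2.2.elim false (fun w => out y.1 w)) ?_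
    ((r1.comp (4 * Polynomial.X + 1)) + (r2.comp (r1.comp (4 * Polynomial.X + 1))) +
      ((r2.comp (r1.comp (4 * Polynomial.X + 1))) *
        (B.comp (r1.comp (4 * Polynomial.X + 1)) + 3) + 1) +
      (B.comp (r1.comp (4 * Polynomial.X + 1)) + 2) + 3) m h1 ?_ ?_ ?_
  · refine NPC.Poly.pair hinit (NPC.Poly.pair ?_ (NPC.Poly.const _))
    exact hn.comp hinit
  · refine NPC.Poly.optElim (by fun_prop) (by fun_prop) ?_
    exact hout.comp (f := fun p : St α γ × γ => (p.1.1, p.2)) (by fun_prop)
  · intro x
    have := hfin x
    rw [hs0] at this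
    simp only at this
    show (tstep leaf cmb ((fun b => (tstep leaf cmb b).2)^[m x] (s0 x))).1 = true
    rw [hfin x]
    rfl
  · intro x i _
    have hinv0 : Inv leaf cmb (init x) (n (init x)) (s0 x) := by
      refine ⟨rfl, by simp [hs0], trivial, ?_⟩
      intro w hw
      exact absurd hw (by simp [hs0])
    have hinv := inv_iter leaf cmb (init x) (n (init x)) i _ hinv0
    have hb := inv_sz leaf cmb (init x) (n (init x)) (B.eval (sz (init x)))
      (fun p d h => hB (init x) p d h) _ hinv
    have e1 : sz (init x) ≤ r1.eval (4 * x.length + 1) := (hr1 x).trans (eval_mono r1 (hsz x))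
    have e2 : 2 * n (init x) + 1 ≤ r2.eval (r1.eval (4 * x.length + 1)) := by
      have h3 := hr2 (init x)
      rw [sz_units, List.length_replicate] at h3
      exact h3.trans (eval_mono r2 e1)
    have e3 : B.eval (sz (init x)) ≤ B.eval (r1.eval (4 * x.length + 1)) := eval_mono B e1
    refine hb.trans ?_
    simp only [Polynomial.eval_add, Polynomial.eval_mul, Polynomial.eval_X, Polynomial.eval_ofNat,
      Polynomial.eval_comp, Polynomial.eval_one]
    have e4 : n (init x) * (B.eval (sz (init x)) + 3) ≤
        r2.eval (r1.eval (4 * x.length + 1)) * (B.eval (r1.eval (4 * x.length + 1)) + 3) :=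
      Nat.mul_le_mul (by omega) (by omega)
    omega
  · intro x
    rw [hL x]
    have h5 : (fun b => (tstep leaf cmb b).2)^[m x + 1] (s0 x) =
        (init x, (List.replicate (n (init x)) (), ([], some (evt leaf cmb (init x)
          (n (init x)) [])))) := by
      rw [Function.iterate_succ_apply', hfin x]
      rfl
    rw [h5]
    rfl

end Pool.Agent.H334R5.Ps
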