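import Pool.Agent.H334R5.Ps.Stmts

set_option autoImplicit false

namespace Pool.Agent.H334R5.Ps

open Pool.Agent.NPC
open Pool.Agent.H623R2.PS (InPSPACE PSPACEHard evq)
open Pool.Agent.H656R2.AK (QF evc)

/-! Task Truth: the arithmetization is correct. -/

theorem tr_cpl0 {P : ℕ} (hP : 2 ≤ P) : cpl P 0 = 1 := by
  unfold cpl
  rw [Nat.zero_mod, Nat.sub_zero, Nat.add_mod_right, Nat.mod_eq_of_lt (by omega)]

theorem tr_cpl1 {P : ℕ} (hP : 2 ≤ P) : cpl P 1 = 0 := by
  unfold cpl
  rw [Nat.mod_eq_of_lt (show 1 < P by omega), show 1 + (P - 1) = P by omega, Nat.mod_self]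

theorem tr_cpl {P : ℕ} (hP : 2 ≤ P) (b : Bool) : cpl P b.toNat = (!b).toNat := by
  cases b
  · exact tr_cpl0 hP
  · exact tr_cpl1 hP

theorem tr_mod {P : ℕ} (hP : 2 ≤ P) (b : Bool) : b.toNat % P = b.toNat := by
  cases b
  · exact Nat.zero_mod P
  · exact Nat.mod_eq_of_lt (by simp; omega)

theorem tr_getD (u : List Bool) (i : ℕ) : (u.map Bool.toNat).getD i 0 = (u.getD i false).toNat := by
  rw [List.getD_eq_getElem?_getD, List.getD_eq_getElem?_getD, List.getElem?_map]
  cases u[i]? <;> rfl

theorem tr_lit {P : ℕ} (hP : 2 ≤ P) (u : List Bool) (l : Bool × ℕ) :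
    lit P (u.map Bool.toNat) l = (u.getD l.2 false == l.1).toNat := by
  unfold lit
  rw [tr_getD]
  obtain ⟨b, i⟩ := l
  cases b
  · simp only [Bool.false_eq_true, if_false]
    rw [tr_cpl hP]
    cases u.getD i false <;> rfl
  · simp only [if_true]
    rw [tr_mod hP]
    cases u.getD i false <;> rfl

theorem tr_foldl {α : Type} {P : ℕ} (hP : 2 ≤ P) (f : α → ℕ) (g : α → Bool)
    (h : ∀ x, f x = (g x).toNat) (L : List α) : ∀ b : Bool,
    L.foldl (fun v x => v * f x % P) b.toNat = (b && L.all g).toNat := by
  induction L with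
  | nil => intro b; simp
  | cons x L ih =>
    intro b
    rw [List.foldl_cons]
    have : b.toNat * f x % P = (b && g x).toNat := by
      rw [h x]
      have e : b.toNat * (g x).toNat = (b && g x).toNat := by
        cases b <;> cases g x <;> rfl
      rw [e, tr_mod hP]
    rw [this, ih, List.all_cons, Bool.and_assoc]

theorem tr_one {P : ℕ} (hP : 2 ≤ P) : 1 % P = true.toNat := Nat.mod_eq_of_lt (by omega)

theorem tr_cls {P : ℕ} (hP : 2 ≤ P) (u : List Bool) (c : List (Bool × ℕ)) :
    cls P (u.map Bool.toNat) c = (c.any fun l => u.getD l.2 false == l.1).toNat := by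
  unfold cls
  rw [tr_one hP, tr_foldl hP (fun l => cpl P (lit P (u.map Bool.toNat) l))
    (fun l => !(u.getD l.2 false == l.1)) (fun l => by rw [tr_lit hP, tr_cpl hP]), tr_cpl hP]
  congr 1
  rw [Bool.true_and, List.not_all_eq_any_not]
  simp

theorem tr_mat {P : ℕ} (hP : 2 ≤ P) (u : List Bool) (C : List (List (Bool × ℕ))) :
    mat P C (u.map Bool.toNat) = (evc u C).toNat := by
  unfold mat evc
  rw [tr_one hP, tr_foldl hP (fun c => cls P (u.map Bool.toNat) c) _ (fun c => tr_cls hP u c),
    Bool.true_and]

/-- Change of a Boolean variable. -/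
def tr_upd (u : List Bool) (j : ℕ) (b : Bool) : List Bool :=
  (List.range u.length).map fun i => if i = j then b else u.getD i false

theorem tr_upd_map (u : List Bool) (j : ℕ) (b : Bool) :
    upd (u.map Bool.toNat) j b.toNat = (tr_upd u j b).map Bool.toNat := by
  unfold upd tr_upd
  rw [List.length_map, List.map_map]
  apply List.map_congr_left
  intro i _
  simp only [Function.comp]
  split_ifs
  · rfl
  · exact tr_getD u i

theorem tr_upd_self (a : List ℕ) (j : ℕ) : upd a j (a.getD j 0) = a := by
  unfold upd
  apply List.ext_getElem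
  · simp
  · intro i h1 h2
    simp only [List.getElem_map, List.getElem_range]
    split_ifs with h
    · subst h
      rw [List.getD_eq_getElem?_getD, List.getElem?_eq_getElem h2]; rfl
    · rw [List.getD_eq_getElem?_getD, List.getElem?_eq_getElem h2]; rfl

theorem tr_upd_length (u : List Bool) (j : ℕ) (b : Bool) : (tr_upd u j b).length = u.length := by
  simp [tr_upd]

theorem tr_upd_take (u : List Bool) (j : ℕ) (b : Bool) (hj : j < u.length) :
    (tr_upd u j b).take (j + 1) = u.take j ++ [b] := by
  apply List.ext_getElem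
  · simp [tr_upd]; omega
  · intro i h1 h2
    have hi : i < j + 1 := by
      rw [List.length_take] at h1; omega
    rw [List.getElem_take]
    simp only [tr_upd, List.getElem_map, List.getElem_range]
    by_cases hij : i = j
    · subst hij
      rw [if_pos rfl, List.getElem_append_right (by simp)]
      simp
    · rw [if_neg hij, List.getElem_append_left (by simp; omega), List.getElem_take,
        List.getD_eq_getElem?_getD, List.getElem?_eq_getElem (by omega)]
      rfl

/-- Boolean values. -/
theorem tr_val_bool {P : ℕ} (hP : 2 ≤ P) (C : List (List (Bool × ℕ))) (ops : List Op) :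
    ∀ u : List Bool, ∃ b : Bool, val P C ops (u.map Bool.toNat) = b.toNat := by
  induction ops with
  | nil => intro u; exact ⟨_, tr_mat hP u C⟩
  | cons o ops ih =>
    intro u
    obtain ⟨b0, h0⟩ := ih (tr_upd u o.2 false)
    obtain ⟨b1, h1⟩ := ih (tr_upd u o.2 true)
    have e0 : upd (u.map Bool.toNat) o.2 0 = (tr_upd u o.2 false).map Bool.toNat :=
      tr_upd_map u o.2 false
    have e1 : upd (u.map Bool.toNat) o.2 1 = (tr_upd u o.2 true).map Bool.toNat :=
      tr_upd_map u o.2 true
    rw [val, e0, e1, h0, h1, tr_getD]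
    unfold comb
    split_ifs
    · refine ⟨b0 && b1, ?_⟩
      have e : b0.toNat * b1.toNat = (b0 && b1).toNat := by cases b0 <;> cases b1 <;> rfl
      rw [e, tr_mod hP]
    · refine ⟨b0 || b1, ?_⟩
      rw [tr_cpl hP, tr_cpl hP]
      have e : (!b0).toNat * (!b1).toNat = (!(b0 || b1)).toNat := by
        cases b0 <;> cases b1 <;> rfl
      rw [e, tr_cpl hP, Bool.not_not]
    · rw [tr_cpl hP]
      cases u.getD o.2 false
      · refine ⟨b0, ?_⟩
        have e : (!false).toNat * b0.toNat + false.toNat * b1.toNat = b0.toNat := by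
          cases b0 <;> cases b1 <;> rfl
        rw [e, tr_mod hP]
      · refine ⟨b1, ?_⟩
        have e : (!true).toNat * b0.toNat + true.toNat * b1.toNat = b1.toNat := by
          cases b0 <;> cases b1 <;> rfl
        rw [e, tr_mod hP]

theorem tr_lin {P : ℕ} (hP : 2 ≤ P) (C : List (List (Bool × ℕ))) (rest : List Op) (L : List ℕ) :
    ∀ u : List Bool, val P C (L.map (fun j => (2, j)) ++ rest) (u.map Bool.toNat) =
      val P C rest (u.map Bool.toNat) := by
  induction L with
  | nil => intro u; rfl
  | cons j L ih =>
    intro u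
    have hc : List.map (fun j => ((2, j) : Op)) (j :: L) ++ rest =
        ((2, j) : Op) :: (List.map (fun j => ((2, j) : Op)) L ++ rest) := rfl
    have e0 : upd (u.map Bool.toNat) j 0 = (tr_upd u j false).map Bool.toNat :=
      tr_upd_map u j false
    have e1 : upd (u.map Bool.toNat) j 1 = (tr_upd u j true).map Bool.toNat :=
      tr_upd_map u j true
    rw [hc, val]
    simp only
    rw [e0, e1, ih, ih]
    obtain ⟨b0, h0⟩ := tr_val_bool hP C rest (tr_upd u j false)
    obtain ⟨b1, h1⟩ := tr_val_bool hP C rest (tr_upd u j true)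
    have hs := tr_upd_self (u.map Bool.toNat) j
    rw [tr_getD] at hs
    unfold comb
    rw [if_neg (by norm_num), if_neg (by norm_num), tr_getD, tr_cpl hP]
    rcases hb : u.getD j false with _ | _
    · rw [hb] at hs
      have e2 : (tr_upd u j false).map Bool.toNat = u.map Bool.toNat := e0.symm.trans hs
      rw [h0, h1]
      have e : (!false).toNat * b0.toNat + false.toNat * b1.toNat = b0.toNat := by
        cases b0 <;> cases b1 <;> rfl
      rw [e, tr_mod hP, ← h0, e2]
    · rw [hb] at hs
      have e2 : (tr_upd u j true).map Bool.toNat = u.map Bool.toNat := e1.symm.trans hs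
      rw [h0, h1]
      have e : (!true).toNat * b0.toNat + true.toNat * b1.toNat = b1.toNat := by
        cases b0 <;> cases b1 <;> rfl
      rw [e, tr_mod hP, ← h1, e2]

theorem tr_main {P : ℕ} (hP : 2 ≤ P) (C : List (List (Bool × ℕ))) (qs : List Bool) :
    ∀ n i : ℕ, i + n = qs.length → ∀ u : List Bool, u.length = qs.length →
      val P C (((List.range qs.length).drop i).flatMap fun i =>
        ((if qs.getD i false = true then 0 else 1, i) : Op) ::
          (List.range qs.length).map fun j => (2, j)) (u.map Bool.toNat) =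
        (evq (qs.drop i) (fun v => evc (u.take i ++ v) C)).toNat := by
  intro n
  induction n with
  | zero =>
    intro i hi u hu
    rw [add_zero] at hi
    rw [List.drop_eq_nil_of_le (by rw [List.length_range]; omega), List.flatMap_nil,
      List.drop_eq_nil_of_le (by omega)]
    rw [val, evq, tr_mat hP, List.append_nil, List.take_of_length_le (by omega)]
  | succ n ih =>
    intro i hi u hu
    have hil : i < qs.length := by omega
    have hr : (List.range qs.length).drop i = i :: (List.range qs.length).drop (i + 1) := by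
      rw [List.drop_eq_getElem_cons (by simpa using hil)]
      simp
    have hq : qs.drop i = qs.getD i false :: qs.drop (i + 1) := by
      rw [List.drop_eq_getElem_cons hil, List.getD_eq_getElem?_getD,
        List.getElem?_eq_getElem hil]
      rfl
    rw [hr, hq, List.flatMap_cons, List.cons_append, val]
    simp only
    have e0 : upd (u.map Bool.toNat) i 0 = (tr_upd u i false).map Bool.toNat :=
      tr_upd_map u i false
    have e1 : upd (u.map Bool.toNat) i 1 = (tr_upd u i true).map Bool.toNat :=
      tr_upd_map u i true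
    rw [e0, e1, tr_lin hP, tr_lin hP,
      ih (i + 1) (by omega) _ (by rw [tr_upd_length, hu]),
      ih (i + 1) (by omega) _ (by rw [tr_upd_length, hu]),
      tr_upd_take u i false (by omega), tr_upd_take u i true (by omega)]
    rw [evq]
    simp only [List.append_assoc, List.singleton_append]
    set b0 := evq (qs.drop (i + 1)) (fun v => evc (u.take i ++ false :: v) C)
    set b1 := evq (qs.drop (i + 1)) (fun v => evc (u.take i ++ true :: v) C)
    unfold comb
    cases qs.getD i false
    · simp only [Bool.false_eq_true, if_false, one_ne_zero, if_true, cond_false]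
      rw [tr_cpl hP, tr_cpl hP]
      have e : (!b0).toNat * (!b1).toNat = (!(b0 || b1)).toNat := by
        cases b0 <;> cases b1 <;> rfl
      rw [e, tr_cpl hP, Bool.not_not]
    · simp only [if_true, cond_true]
      have e : b0.toNat * b1.toNat = (b0 && b1).toNat := by cases b0 <;> cases b1 <;> rfl
      rw [e, tr_mod hP]

theorem taskTruth : TaskTruth := by
  intro P Q hP
  have h := tr_main hP Q.2 Q.1 Q.1.length 0 (by omega) (List.replicate Q.1.length false) (by simp)
  rw [List.drop_zero, List.drop_zero, List.map_replicate] at h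
  have h' : val P Q.2 (fullOps Q.1) (List.replicate Q.1.length 0) =
      (evq Q.1 (fun v => evc ((List.replicate Q.1.length false).take 0 ++ v) Q.2)).toNat := h
  rw [h']
  simp only [List.take_zero, List.nil_append]
  cases evq Q.1 (fun v => evc v Q.2) <;> rfl

end Pool.Agent.H334R5.Ps
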