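import Pool.Agent.H334R5.Ps.Stmts
import Pool.Agent.H334R5.Clo.Alg

/-!
# Task Vec: the tree evaluates to the vector of values
-/

set_option autoImplicit false

namespace Pool.Agent.H334R5.Ps

open Pool.Agent.NPC
open Pool.Agent.H334R5.Clo (num num_snoc)

theorem asg_nil (ops : List Op) (a : List ℕ) : asg ops a [] = a := by
  unfold asg
  simp

theorem asg_snoc (ops : List Op) (a : List ℕ) (p : List Bool) (b : Bool) (h : p.length < ops.length) :
    asg ops a (p ++ [b]) = upd (asg ops a p) (ops.getD p.length (0, 0)).2 (if b = true then 1 else 0) := by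
  have e : List.zip ops (p ++ [b]) = List.zip ops p ++ [(ops[p.length], b)] := by
    induction p generalizing ops with
    | nil =>
      cases ops with
      | nil => simp at h
      | cons o ops => simp
    | cons x p ih =>
      cases ops with
      | nil => simp at h
      | cons o ops =>
        simp only [List.cons_append, List.zip_cons_cons, List.length_cons, List.getElem_cons_succ]
        rw [ih ops (by simpa using h)]
  unfold asg
  rw [e, List.foldl_append]
  simp only [List.foldl_cons, List.foldl_nil]
  rw [List.getD_eq_getElem _ _ h]

/-- the value of a leaf -/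
def lv (c : Ctx) (i : ℕ) : List ℕ :=
  if i < c.2.2.2.2.2.1.length then [val (c.1 + 1) c.2.1 c.2.2.1 (upd c.2.2.2.1 c.2.2.2.2.1 i)] else []

theorem evt_low (c : Ctx) (d : ℕ) : ∀ path : List Bool,
    path.length + d = c.2.2.2.2.2.1.length + c.2.2.1.length → c.2.2.2.2.2.1.length ≤ path.length →
    evt leafc cmbc c d path =
      if num (path.take c.2.2.2.2.2.1.length) < c.2.2.2.2.2.1.length then
        [val (c.1 + 1) c.2.1 (c.2.2.1.drop (path.length - c.2.2.2.2.2.1.length))
          (asg c.2.2.1 (upd c.2.2.2.1 c.2.2.2.2.1 (num (path.take c.2.2.2.2.2.1.length)))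
            (path.drop c.2.2.2.2.2.1.length))] else [] := by
  induction d with
  | zero =>
    intro path h1 h2
    have e : c.2.2.1.drop (path.length - c.2.2.2.2.2.1.length) = [] := by
      apply List.drop_eq_nil_of_le
      omega
    rw [e]
    simp only [evt, leafc, val]
  | succ d ih =>
    intro path h1 h2
    have hk : path.length - c.2.2.2.2.2.1.length < c.2.2.1.length := by omega
    have ht : ∀ b, (path ++ [b]).take c.2.2.2.2.2.1.length = path.take c.2.2.2.2.2.1.length :=
      fun b => List.take_append_of_le_length h2
    have hd : ∀ b, (path ++ [b]).drop c.2.2.2.2.2.1.length = path.drop c.2.2.2.2.2.1.length ++ [b] :=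
      fun b => List.drop_append_of_le_length h2
    have hl : (path.drop c.2.2.2.2.2.1.length).length < c.2.2.1.length := by
      rw [List.length_drop]; exact hk
    have hn : (path ++ [false]).length - c.2.2.2.2.2.1.length =
        path.length - c.2.2.2.2.2.1.length + 1 := by
      rw [List.length_append, List.length_singleton]; omega
    have hn' : (path ++ [true]).length - c.2.2.2.2.2.1.length =
        path.length - c.2.2.2.2.2.1.length + 1 := by
      rw [List.length_append, List.length_singleton]; omega
    rw [evt, ih (path ++ [false]) (by simp; omega) (by simp; omega),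
      ih (path ++ [true]) (by simp; omega) (by simp; omega), ht, ht, hd, hd, hn, hn', cmbc,
      if_neg (by omega)]
    by_cases hi : num (path.take c.2.2.2.2.2.1.length) < c.2.2.2.2.2.1.length
    · simp only [if_pos hi, List.head?_cons, Option.elim_some]
      rw [asg_snoc _ _ _ _ hl, asg_snoc _ _ _ _ hl, List.length_drop]
      rw [List.drop_eq_getElem_cons hk, List.getD_eq_getElem _ _ hk]
      simp only [val, if_true, Bool.false_eq_true, if_false]
    · simp only [if_neg hi, List.head?_nil, Option.elim_none]

theorem evt_high (c : Ctx) (e : ℕ) : ∀ path : List Bool,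
    path.length + e = c.2.2.2.2.2.1.length →
    evt leafc cmbc c (e + c.2.2.1.length) path =
      (List.range' (num path * 2 ^ e) (2 ^ e)).flatMap (lv c) := by
  induction e with
  | zero =>
    intro path h
    have h' : path.length = c.2.2.2.2.2.1.length := by omega
    rw [evt_low c _ path (by omega) (by omega)]
    rw [← h', List.take_length, List.drop_length, asg_nil, Nat.sub_self, List.drop_zero]
    simp only [pow_zero, mul_one, List.range'_one, List.flatMap_cons, List.flatMap_nil,
      List.append_nil, lv, ← h']
  | succ e ih =>
    intro path h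
    have e1 : e + 1 + c.2.2.1.length = (e + c.2.2.1.length) + 1 := by omega
    rw [e1, evt, ih (path ++ [false]) (by simp; omega), ih (path ++ [true]) (by simp; omega), cmbc,
      if_pos (by omega), num_snoc, num_snoc, ← List.flatMap_append]
    congr 1
    have e2 : (2 * num path + if true = true then 1 else 0) * 2 ^ e =
        (2 * num path + if false = true then 1 else 0) * 2 ^ e + 1 * 2 ^ e := by
      simp; ring
    rw [e2, List.range'_append, ← mul_two, pow_succ]
    congr 1
    simp; ring

theorem taskVec : TaskVec := by
  intro c
  rw [evt_high c _ [] (by simp)]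
  have h0 : num [] = 0 := rfl
  rw [h0, zero_mul]
  have h1 : c.2.2.2.2.2.1.length ≤ 2 ^ c.2.2.2.2.2.1.length := Nat.lt_two_pow_self.le
  obtain ⟨m, hm⟩ := Nat.exists_eq_add_of_le h1
  rw [hm]
  have h2 : List.range' 0 (c.2.2.2.2.2.1.length + m) =
      List.range' 0 c.2.2.2.2.2.1.length ++ List.range' (0 + 1 * c.2.2.2.2.2.1.length) m :=
    (List.range'_append).symm
  rw [h2, List.flatMap_append]
  have h3 : (List.range' (0 + 1 * c.2.2.2.2.2.1.length) m).flatMap (lv c) = [] := by
    rw [List.flatMap_eq_nil_iff]
    intro i hi
    rw [List.mem_range'_1] at hi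
    unfold lv
    rw [if_neg (by omega)]
  rw [h3, List.append_nil]
  unfold vec
  rw [← List.range_eq_range', List.map_eq_flatMap]
  apply List.flatMap_congr
  intro i hi
  rw [List.mem_range] at hi
  unfold lv
  rw [if_pos hi]

end Pool.Agent.H334R5.Ps
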