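import Pool.Agent.H334R5.Ps.Mach4
import Pool.Agent.H334R5.Ps.TaskTree
import Pool.Agent.H334R5.Ps.TaskVec
import Pool.Agent.H334R5.Ps.TaskLB
import Pool.Agent.H334R5.Ps.TaskTruth
import Pool.Agent.H87R3.Ps.TaskDegree
import Pool.Agent.H334R5.Ps.TaskExtr1
import Pool.Agent.H334R5.Ps.TaskExtr2
import Pool.Agent.H334R5.Ps.TaskPrime
import Pool.Agent.H334R5.Ps.TaskExp
import Pool.Agent.H334R5.Ps.TaskPolyVal
import Pool.Agent.H334R5.Ps.TaskPolyStep
import Pool.Agent.H334R5.Ps.TaskTrans
import Pool.Agent.H334R5.Ps.TaskWLen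
import Pool.Agent.H334R5.Ps.TaskMachP
import Pool.Agent.H334R5.Ps.Conv

/-!
# `P = PSPACE` and the exclusion of one threshold pattern
-/

set_option autoImplicit false

namespace Pool.Agent.H334R5.Ps

open Pool.Agent.NPC
open Pool.Agent.H623R2.PS (InPSPACE PSPACEHard)
open Pool.Agent.H334R5.Nd (Pattern DetExcluder)

theorem taskMach : TaskMach :=
  mach_of taskTruth Pool.Agent.H87R3.Ps.taskDegree taskExtr1 (taskExtr2 taskExtr1)
    (taskLB taskTree taskVec) taskPrime TExp.taskExp taskPolyVal taskPolyStep taskTrans taskWLen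

/-- `P = PSPACE` if and only if threshold patterns of some `PSPACE`-hard set can be excluded in
polynomial time. -/
theorem pspace_iff :
    (∃ (A : Set (List Bool)) (q : Polynomial ℕ) (E : List (List Bool) → ℕ),
      PSPACEHard A ∧ DetExcluder A q E) ↔ ∀ L : Set (List Bool), InPSPACE L → InP L := by
  constructor
  · rintro ⟨A, q, E, hA, hE⟩ L hL
    exact taskMachP A L q E hE (taskMach A L q hA hL)
  · intro h
    obtain ⟨q, E, hE⟩ := detExcluder_of_inP (h _ Pool.Agent.H656R2.AK.arcKayles_mem)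
    exact ⟨_, q, E, Pool.Agent.H656R2.AK.arcKayles_hard, hE⟩

end Pool.Agent.H334R5.Ps
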