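import Pool.Agent.H334R5.Ps.Stmts
import Pool.Agent.H334R5.Nd.Main

/-!
# Task MachNP: nondeterministic simulation of search machines
-/

set_option autoImplicit false

namespace Pool.Agent.H334R5.Ps.MNP

open Pool.Agent.NPC
open Pool.Agent.H334R5.Nd (Pattern blk)
open Pool.Agent.H334R5.Cnt (usz bits_poly fpoly_of_poly)

attribute [local instance] Mach.enc

variable {A L : Set (List Bool)} {q : Polynomial ℕ} (M : Mach A L q)
  (E : List (List Bool) → List Bool → ℕ) (ℓ : Polynomial ℕ)

/-- The answer obtained from the guess. -/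
def kans (b : ℕ) (r x : List Bool) (s : M.S) (t : ℕ) : ℕ :=
  E (M.Q x s) ((blk b r t).take (ℓ.eval (bits (M.Q x s)).length))

/-- One step, with a flag. -/
def stp (b : ℕ) (r x : List Bool) (s : Bool × M.S) (t : ℕ) : Bool × M.S :=
  (s.1 && (!M.need x s.2 || decide (kans M E ℓ b r x s.2 t ≤ (M.Q x s.2).length)),
    M.step x s.2 (kans M E ℓ b r x s.2 t))

/-- The state after `T` steps. -/
def st (b : ℕ) (r x : List Bool) (T : ℕ) : Bool × M.S :=
  (List.range T).foldl (stp M E ℓ b r x) (true, M.init x)

theorem st_zero (b : ℕ) (r x : List Bool) : st M E ℓ b r x 0 = (true, M.init x) := rfl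

theorem st_succ (b : ℕ) (r x : List Bool) (T : ℕ) :
    st M E ℓ b r x (T + 1) = stp M E ℓ b r x (st M E ℓ b r x T) T := by
  unfold st
  rw [List.range_succ, List.foldl_append]
  rfl

theorem st_rec (b : ℕ) (r x : List Bool) (T : ℕ) :
    (st M E ℓ b r x T).2 = Nat.rec (M.init x)
      (fun t s => M.step x s (kans M E ℓ b r x (st M E ℓ b r x t).2 t)) T := by
  induction T with
  | zero => rfl
  | succ T ih =>
    rw [st_succ]
    show M.step x (st M E ℓ b r x T).2 _ = M.step x _ _
    rw [← ih]

theorem st_sh (b : ℕ) (r x : List Bool) (T : ℕ) : M.Sh x (st M E ℓ b r x T).2 := by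
  induction T with
  | zero => exact M.sh0 x
  | succ T ih =>
    rw [st_succ]
    exact M.sh_step _ _ _ ih

theorem foldl_sh (b : ℕ) (r x : List Bool) (l : List ℕ) (s : Bool × M.S) (hs : M.Sh x s.2) :
    M.Sh x (l.foldl (stp M E ℓ b r x) s).2 := by
  induction l generalizing s with
  | nil => exact hs
  | cons t l ih =>
    rw [List.foldl_cons]
    exact ih _ (M.sh_step _ _ _ hs)

variable {M E ℓ}

theorem stp_true {b : ℕ} {r x : List Bool} {s : Bool × M.S} {t : ℕ}
    (h : (stp M E ℓ b r x s t).1 = true) :
    s.1 = true ∧ (M.need x s.2 = true → kans M E ℓ b r x s.2 t ≤ (M.Q x s.2).length) := by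
  unfold stp at h
  simp only [Bool.and_eq_true, Bool.or_eq_true, Bool.not_eq_true', decide_eq_true_eq] at h
  refine ⟨h.1, fun hn => ?_⟩
  rcases h.2 with h2 | h2
  · rw [hn] at h2
    exact absurd h2 (by decide)
  · exact h2

/-- an accepted run is correct -/
theorem st_inv (hE : Refuter2 A q ℓ E) {b : ℕ} {r x : List Bool} {T : ℕ}
    (hb : ∀ s, M.Sh x s → ℓ.eval (bits (M.Q x s)).length ≤ b) (hr : T * b ≤ r.length)
    (h : (st M E ℓ b r x T).1 = true) : M.Inv x (st M E ℓ b r x T).2 := by
  induction T with
  | zero => exact M.inv0 x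
  | succ T ih =>
    rw [st_succ] at h ⊢
    obtain ⟨h1, h2⟩ := stp_true h
    rw [add_mul, one_mul] at hr
    have hi := ih (by omega) h1
    have hs := st_sh M E ℓ b r x T
    show M.Inv x (M.step x (st M E ℓ b r x T).2 _)
    cases hn : M.need x (st M E ℓ b r x T).2 with
    | false => exact M.inv_n _ _ _ hs hi hn
    | true =>
      refine M.inv_q _ _ _ hs hi hn (h2 hn) ?_
      refine hE.sound _ _ ?_
      have e1 := hb _ hs
      unfold blk
      rw [List.length_take, List.length_take, List.length_drop]
      omega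

theorem st_congr {b : ℕ} {r r' x : List Bool} {T : ℕ}
    (h : ∀ t < T, blk b r t = blk b r' t) : st M E ℓ b r x T = st M E ℓ b r' x T := by
  induction T with
  | zero => rfl
  | succ T ih =>
    rw [st_succ, st_succ, ih (fun t ht => h t (by omega))]
    unfold stp kans
    rw [h T (by omega)]

/-- good guesses exist -/
theorem st_exists (hE : Refuter2 A q ℓ E) {b : ℕ} {x : List Bool}
    (hb : ∀ s, M.Sh x s → ℓ.eval (bits (M.Q x s)).length ≤ b) (T : ℕ) :
    ∃ r : List Bool, r.length = T * b ∧ (st M E ℓ b r x T).1 = true := by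
  induction T with
  | zero => exact ⟨[], by simp, rfl⟩
  | succ T ih =>
    obtain ⟨r, hr, h⟩ := ih
    have hs := st_sh M E ℓ b r x T
    have hi := st_inv hE hb hr.ge h
    have key : ∀ w : List Bool, w.length = b → (M.need x (st M E ℓ b r x T).2 = true →
        E (M.Q x (st M E ℓ b r x T).2)
          (w.take (ℓ.eval (bits (M.Q x (st M E ℓ b r x T).2)).length)) ≤
            (M.Q x (st M E ℓ b r x T).2).length) →
        ∃ r : List Bool, r.length = (T + 1) * b ∧ (st M E ℓ b r x (T + 1)).1 = true := by
      intro w hw hk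
      refine ⟨r ++ w, by rw [List.length_append, hr, hw]; ring, ?_⟩
      have hc : st M E ℓ b (r ++ w) x T = st M E ℓ b r x T := by
        refine st_congr (fun t ht => ?_)
        unfold blk
        have h1 : (t + 1) * b ≤ T * b := Nat.mul_le_mul_right b (by omega)
        rw [add_mul, one_mul] at h1
        rw [List.drop_append_of_le_length (by omega), List.take_append_of_le_length
          (by rw [List.length_drop]; omega)]
      have hblk : blk b (r ++ w) T = w := by
        unfold blk
        rw [← hr, List.drop_left' rfl, ← hw, List.take_length]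
      rw [st_succ, hc]
      unfold stp kans
      rw [hblk]
      simp only [h, Bool.true_and, Bool.or_eq_true, Bool.not_eq_true', decide_eq_true_eq]
      cases hn : M.need x (st M E ℓ b r x T).2 with
      | false => exact Or.inl rfl
      | true => exact Or.inr (hk hn)
    cases hn : M.need x (st M E ℓ b r x T).2 with
    | false => exact key (List.replicate b false) (by simp) (fun h' => by rw [hn] at h'; cases h')
    | true =>
      obtain ⟨w, hw, hw'⟩ := hE.complete _ _ (M.q_len x _ hs) (M.q_card x _ hs hn)
        (M.q_pat x _ hs hi hn)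
      have hlb := hb _ hs
      refine key (w ++ List.replicate (b - w.length) false) (by simp; omega) (fun _ => ?_)
      rw [← hw, List.take_left' rfl]
      exact hw'

theorem poly_st (M : Mach A L q) (E : List (List Bool) → List Bool → ℕ) (ℓ : Polynomial ℕ)
    (pE : Poly (fun p : List (List Bool) × List Bool => E p.1 p.2)) (bb : Polynomial ℕ) :
    Poly (fun z : List Bool × List Bool =>
      st M E ℓ (bb.eval z.1.length) z.2 z.1 (M.T.eval z.1.length)) := by
  have uX : ∀ (P : Polynomial ℕ), UPoly (fun z : List Bool × List Bool => P.eval z.1.length) :=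
    fun P => (UPoly.length (Poly.fst Poly.id)).eval P
  unfold st
  refine Poly.foldl (l := fun z : List Bool × List Bool => List.range (M.T.eval z.1.length))
    (s := fun z : List Bool × List Bool => ((true, M.init z.1) : Bool × M.S))
    (F := fun z s t => stp M E ℓ (bb.eval z.1.length) z.2 z.1 s t) (uX M.T).range
    (Poly.pair (NPC.Poly.const true) (M.p_init.comp (Poly.fst Poly.id))) ?_
    (M.B + Polynomial.C 10) ?_
  · have hx : Poly (fun p : (List Bool × List Bool) × (Bool × M.S) × ℕ => p.1.1) :=
      Poly.fst (Poly.fst Poly.id)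
    have hr : Poly (fun p : (List Bool × List Bool) × (Bool × M.S) × ℕ => p.1.2) :=
      Poly.snd (Poly.fst Poly.id)
    have ho : Poly (fun p : (List Bool × List Bool) × (Bool × M.S) × ℕ => p.2.1.1) :=
      Poly.fst (Poly.fst (Poly.snd Poly.id))
    have hs : Poly (fun p : (List Bool × List Bool) × (Bool × M.S) × ℕ => p.2.1.2) :=
      Poly.snd (Poly.fst (Poly.snd Poly.id))
    have ht : Poly (fun p : (List Bool × List Bool) × (Bool × M.S) × ℕ => p.2.2) :=
      Poly.snd (Poly.snd Poly.id)
    have hb : Poly (fun p : (List Bool × List Bool) × (Bool × M.S) × ℕ => bb.eval p.1.1.length) :=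
      ((UPoly.length hx).eval bb).toPoly
    have hQ : Poly (fun p : (List Bool × List Bool) × (Bool × M.S) × ℕ => M.Q p.1.1 p.2.1.2) :=
      Poly.comp (g := fun z : List Bool × M.S => M.Q z.1 z.2)
        (f := fun p : (List Bool × List Bool) × (Bool × M.S) × ℕ => (p.1.1, p.2.1.2)) M.p_Q
        (Poly.pair hx hs)
    have hn : Poly (fun p : (List Bool × List Bool) × (Bool × M.S) × ℕ => M.need p.1.1 p.2.1.2) :=
      Poly.comp (g := fun z : List Bool × M.S => M.need z.1 z.2)
        (f := fun p : (List Bool × List Bool) × (Bool × M.S) × ℕ => (p.1.1, p.2.1.2)) M.p_need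
        (Poly.pair hx hs)
    have hk : Poly (fun p : (List Bool × List Bool) × (Bool × M.S) × ℕ =>
        kans M E ℓ (bb.eval p.1.1.length) p.1.2 p.1.1 p.2.1.2 p.2.2) := by
      unfold kans blk
      refine Poly.comp (g := fun p : List (List Bool) × List Bool => E p.1 p.2)
        (f := fun p : (List Bool × List Bool) × (Bool × M.S) × ℕ => (M.Q p.1.1 p.2.1.2,
          ((p.1.2.drop (p.2.2 * bb.eval p.1.1.length)).take (bb.eval p.1.1.length)).take
            (ℓ.eval (bits (M.Q p.1.1 p.2.1.2)).length))) pE (Poly.pair hQ ?_)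
      exact Clo.poly_take (Clo.poly_take (Clo.poly_drop hr (Poly.mul ht hb)) hb)
        ((usz hQ).eval ℓ).toPoly
    unfold stp
    refine Poly.pair (Poly.and ho (Poly.or (Poly.not hn) (Poly.decide_le hk (Poly.length hQ)))) ?_
    exact Poly.comp (g := fun z : List Bool × M.S × ℕ => M.step z.1 z.2.1 z.2.2)
      (f := fun p : (List Bool × List Bool) × (Bool × M.S) × ℕ => (p.1.1, p.2.1.2,
        kans M E ℓ (bb.eval p.1.1.length) p.1.2 p.1.1 p.2.1.2 p.2.2)) M.p_step
      (Poly.pair hx (Poly.pair hs hk))
  · intro z k hk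
    have hsh := foldl_sh M E ℓ (bb.eval z.1.length) z.2 z.1
      ((List.range (M.T.eval z.1.length)).take k) (true, M.init z.1) (M.sh0 _)
    generalize ((List.range (M.T.eval z.1.length)).take k).foldl
        (stp M E ℓ (bb.eval z.1.length) z.2 z.1) (true, M.init z.1) = u at hsh ⊢
    obtain ⟨o, s⟩ := u
    have h1 : sz s ≤ M.B.eval z.1.length := M.sh_sz _ _ hsh
    have h2 : z.1.length ≤ sz z := by
      obtain ⟨x, r⟩ := z
      rw [sz_pair]
      have := length_lt_sz x
      simp only
      omega
    have h3 := eval_mono M.B h2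
    have h6 : sz o ≤ 5 := by cases o <;> decide
    simp only [Polynomial.eval_add, Polynomial.eval_C]
    rw [sz_pair]
    omega

end Pool.Agent.H334R5.Ps.MNP

namespace Pool.Agent.H334R5.Ps

open Pool.Agent.NPC
open Pool.Agent.H334R5.Nd (Pattern blk)
open MNP

attribute [local instance] Mach.enc

theorem taskMachNP : TaskMachNP := by
  rintro A L q ℓ E hE ⟨M⟩
  have pE : Poly (fun p : List (List Bool) × List Bool => E p.1 p.2) := by
    obtain ⟨F, hF, hFR⟩ := hE.poly
    exact Cnt.FPoly.poly ⟨F, hF, fun p => hFR p.1 p.2⟩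
  set bb : Polynomial ℕ := ℓ.comp M.B with hbb
  have hb : ∀ x : List Bool, ∀ s, M.Sh x s →
      ℓ.eval (bits (M.Q x s)).length ≤ bb.eval x.length := by
    intro x s hs
    rw [hbb, Polynomial.eval_comp, bits_length]
    exact eval_mono ℓ (M.q_sz x s hs)
  have pst := poly_st M E ℓ pE bb
  have pacc : Poly (fun y : List Bool => [decide ((unpair y).2.length =
      M.T.eval (unpair y).1.length * bb.eval (unpair y).1.length) &&
      ((st M E ℓ (bb.eval (unpair y).1.length) (unpair y).2 (unpair y).1
        (M.T.eval (unpair y).1.length)).1 &&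
        M.out (unpair y).1 (st M E ℓ (bb.eval (unpair y).1.length) (unpair y).2 (unpair y).1
          (M.T.eval (unpair y).1.length)).2)]) := by
    have h0 : Poly (fun y : List Bool => st M E ℓ (bb.eval (unpair y).1.length) (unpair y).2
        (unpair y).1 (M.T.eval (unpair y).1.length)) :=
      Poly.comp (g := fun z : List Bool × List Bool =>
        st M E ℓ (bb.eval z.1.length) z.2 z.1 (M.T.eval z.1.length)) pst poly_unpair
    have h1 : Poly (fun y : List Bool => (unpair y).1) := Poly.fst poly_unpair
    refine Poly.cons (Poly.and (Poly.decide_eq (Poly.length (Poly.snd poly_unpair))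
      (Poly.mul (((UPoly.length h1).eval M.T).toPoly) (((UPoly.length h1).eval bb).toPoly)))
      (Poly.and (Poly.fst h0) ?_)) (NPC.Poly.const [])
    exact Poly.comp (g := fun z : List Bool × M.S => M.out z.1 z.2)
      (f := fun y : List Bool => ((unpair y).1, (st M E ℓ (bb.eval (unpair y).1.length)
        (unpair y).2 (unpair y).1 (M.T.eval (unpair y).1.length)).2)) M.p_out
      (Poly.pair h1 (Poly.snd h0))
  refine ⟨_, M.T * bb, PIso.poly_iff.1 pacc, fun x => ?_⟩
  simp only [unpair_pairBits]
  have hlen : (M.T * bb).eval x.length = M.T.eval x.length * bb.eval x.length := by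
    rw [Polynomial.eval_mul]
  constructor
  · intro hx
    obtain ⟨r, hr, h⟩ := st_exists hE (hb x) (M.T.eval x.length)
    refine ⟨r, by rw [hlen, hr], ?_⟩
    have hi := st_inv hE (hb x) hr.ge h
    rw [st_rec] at hi
    have h2 := (M.fin x _ hi).2 hx
    rw [← st_rec] at h2
    simp only [hr, h, h2, decide_true, Bool.true_and]
  · rintro ⟨r, -, hacc⟩
    simp only [List.cons.injEq, and_true, Bool.and_eq_true, decide_eq_true_eq] at hacc
    obtain ⟨hr, hok, ho⟩ := hacc
    have hi := st_inv hE (hb x) hr.ge hok
    rw [st_rec] at hi ho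
    exact (M.fin x _ hi).1 ho

end Pool.Agent.H334R5.Ps
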