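import Pool.Agent.H334R5.Ps.Mach2

/-!
# The search machine for a language in polynomial space: correctness
-/

set_option autoImplicit false

namespace Pool.Agent.H334R5.Ps

open Pool.Agent.NPC
open Pool.Agent.H623R2.PS (InPSPACE PSPACEHard evq)
open Pool.Agent.H656R2.AK (QF evc QFwf qbf_hard)
open Pool.Agent.H334R5.Clo (num ext)
open Pool.Agent.H334R5.Nd (Pattern DetExcluder remove_sublist length_remove)
open Pool.Agent.H334R5.Cnt (usz bits_poly fpoly_of_poly)

/-- The invariant. -/
def InvP (P N w : ℕ) (C : List (List (Bool × ℕ))) (ops : List Op) (b : Bool) (s : PSt) : Prop :=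
  JJ P C ops b s ∧ (s.1 < ops.length →
    (W (ctxOf P N w C ops s)).take (N * w - s.2.2.2.1) ∈ s.2.2.2.2)

theorem W_length' (hWL : TaskWLen) (P N w : ℕ) (C : List (List (Bool × ℕ))) (ops : List Op)
    (s : PSt) : (W (ctxOf P N w C ops s)).length = N * w := by
  rw [hWL]
  unfold ctxOf
  simp only [List.length_replicate]

theorem stepP_inv (hDeg : TaskDegree) (hE1 : TaskExtr1) (hE2 : TaskExtr2) (hTr : TaskTrans)
    (hWL : TaskWLen) {P M N w : ℕ} {qs : List Bool} {C : List (List (Bool × ℕ))} {b : Bool}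
    (hP : P.Prime) (hPw : P ≤ 2 ^ w) (hN : N = lc C + 3) (hNP : N ≤ P) (hMP : M * M * N < P)
    {A : Set (List Bool)} {f : List Bool → List Bool}
    (hf : ∀ (c : Ctx) (u : List Bool),
      f (bits ((c, u) : Ctx × List Bool)) ∈ A ↔ num u ≤ num ((W c).take u.length))
    {s : PSt} (hs : ShP P M N w qs.length (fullOps qs).length s)
    (hi : InvP P N w C (fullOps qs) b s) (k : ℕ)
    (hk : s.1 < (fullOps qs).length → M < s.2.2.2.2.length →
      k ≤ (qryP f P N w C (fullOps qs) s).length ∧ ¬ Pattern A (qryP f P N w C (fullOps qs) s) k) :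
    InvP P N w C (fullOps qs) b (stepP P M N w (fullOps qs) s k) := by
  set ops := fullOps qs with hops
  unfold stepP
  split_ifs with h1 h2 h3
  · exact hi
  · -- pruning
    have h1' : s.1 < ops.length := not_le.1 h1
    have hmem := hi.2 h1'
    obtain ⟨hkl, hpat⟩ := hk h1' h2
    refine ⟨hi.1, fun _ => ?_⟩
    have e0 : ctxOf P N w C ops (s.1, s.2.1, s.2.2.1, s.2.2.2.1,
        s.2.2.2.2.take (min k (s.2.2.2.2.length - 1)) ++
          s.2.2.2.2.drop (min k (s.2.2.2.2.length - 1) + 1)) = ctxOf P N w C ops s := rfl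
    rw [e0]
    simp only
    obtain ⟨k0, hk0, hk0w⟩ := List.getElem_of_mem hmem
    have hp := pattern_target (hf (ctxOf P N w C ops s)) hs.c_len hs.sorted hk0 hk0w
    have hne : k0 ≠ k := by
      rintro rfl
      exact hpat hp
    have hl : (qryP f P N w C ops s).length = s.2.2.2.2.length - 1 := by
      unfold qryP
      rw [List.length_map, List.length_tail]
    rw [hl] at hkl
    have hmin : min k (s.2.2.2.2.length - 1) = k := by omega
    rw [hmin, ← hk0w, List.mem_append]
    rcases Nat.lt_or_ge k0 k with h3 | h3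
    · left
      rw [List.mem_take_iff_getElem]
      exact ⟨k0, by omega, rfl⟩
    · right
      rw [List.mem_drop_iff_getElem]
      exact ⟨k0 - (k + 1), by omega, by congr 1; omega⟩
  · -- transition
    have h1' : s.1 < ops.length := not_le.1 h1
    have hmem := hi.2 h1'
    rw [h3, Nat.sub_zero, ← W_length' hWL P N w C ops s, List.take_length] at hmem
    refine ⟨hTr hDeg hE1 hE2 P M N w qs C b s hP hPw hN hNP hMP h1' hs.a_len (by omega)
      (fun y hy => by rw [hs.c_len y hy, h3, Nat.sub_zero]) hmem hi.1, fun _ => ?_⟩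
    simp [trans]
  · -- extension
    have h1' : s.1 < ops.length := not_le.1 h1
    have hmem := hi.2 h1'
    have hr := hs.rem
    refine ⟨hi.1, fun _ => ?_⟩
    have e0 : ctxOf P N w C ops (s.1, s.2.1, s.2.2.1, s.2.2.2.1 - 1, ext s.2.2.2.2) =
        ctxOf P N w C ops s := rfl
    rw [e0]
    simp only
    have hWl := W_length' hWL P N w C ops s
    rw [Clo.mem_ext]
    refine ⟨_, hmem, (W (ctxOf P N w C ops s))[N * w - s.2.2.2.1]'(by omega), ?_⟩
    rw [List.take_append_getElem]
    congr 1
    omega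

theorem init_shapeP {P M N w k len : ℕ} (hP : 2 ≤ P) (hM : 1 ≤ M) :
    ShP P M N w k len (0, List.replicate k 0, [(0, false), (1, true)], N * w, [[]]) := by
  refine ⟨Nat.zero_le _, by simp, ?_, by simp, ?_, le_rfl, ?_, by simp, by simp; omega⟩
  · intro y hy
    simp only at hy
    rw [List.eq_of_mem_replicate hy]
    omega
  · intro b hb
    simp only [List.mem_cons, List.not_mem_nil, or_false] at hb
    rcases hb with rfl | rfl
    · simp only; omega
    · simp only; omega
  · intro u hu
    simp only [List.mem_singleton] at hu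
    subst hu
    simp

theorem init_inv (hTruth : TaskTruth) {P N w : ℕ} (hP : 2 ≤ P) (Q : QF) :
    InvP P N w Q.2 (fullOps Q.1) (evq Q.1 fun v => evc v Q.2)
      (0, List.replicate Q.1.length 0, [(0, false), (1, true)], N * w, [[]]) := by
  have h := hTruth P Q hP
  refine ⟨⟨?_, ?_⟩, fun _ => by simp⟩
  · simp only [List.drop_zero]
    rw [h]
    cases evq Q.1 fun v => evc v Q.2 <;> simp
  · intro v b' hb hv
    simp only [List.drop_zero] at hv
    rw [h] at hv
    simp only [List.mem_cons, Prod.mk.injEq, List.not_mem_nil, or_false] at hb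
    rcases hb with ⟨rfl, rfl⟩ | ⟨rfl, rfl⟩
    · cases hE : evq Q.1 fun v => evc v Q.2
      · rfl
      · rw [hE] at hv; simp at hv
    · cases hE : evq Q.1 fun v => evc v Q.2
      · rw [hE] at hv; simp at hv
      · rfl

theorem out_iff {P N w : ℕ} {C : List (List (Bool × ℕ))} {ops : List Op} {b : Bool} {s : PSt}
    (hi : InvP P N w C ops b s) (ht : s.1 = ops.length) :
    (s.2.2.1.any fun t => decide (t.1 = mat P C s.2.1) && t.2) = true ↔ b = true := by
  have hv : val P C (ops.drop s.1) s.2.1 = mat P C s.2.1 := by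
    rw [ht, List.drop_length]
    rfl
  obtain ⟨⟨h1, h2⟩, -⟩ := hi
  rw [hv] at h1 h2
  rw [List.any_eq_true]
  constructor
  · rintro ⟨⟨v, b'⟩, hm, hb⟩
    simp only [Bool.and_eq_true, decide_eq_true_eq] at hb
    rw [← h2 v b' hm hb.1, hb.2]
  · intro hb
    exact ⟨_, h1, by simp [hb]⟩

end Pool.Agent.H334R5.Ps
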