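import Pool.Agent.H334R5.Ps.Final
import Pool.Agent.H334R5.Ps.TaskMachNP

/-!
# `NP = PSPACE` and the refutation of one threshold pattern
-/

set_option autoImplicit false

namespace Pool.Agent.H334R5.Ps

open Pool.Agent.NPC
open Pool.Agent.H623R2.PS (InPSPACE PSPACEHard)
open Pool.Agent.H334R5.Nd (Pattern)

/-- `PSPACE ⊆ NP` if and only if threshold patterns of some `PSPACE`-hard set can be refuted
nondeterministically. -/
theorem np_pspace_iff :
    (∃ (A : Set (List Bool)) (q ℓ : Polynomial ℕ) (E : List (List Bool) → List Bool → ℕ),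
      PSPACEHard A ∧ Refuter2 A q ℓ E) ↔ ∀ L : Set (List Bool), InPSPACE L → InNP L := by
  constructor
  · rintro ⟨A, q, ℓ, E, hA, hE⟩ L hL
    exact taskMachNP A L q ℓ E hE (taskMach A L q hA hL)
  · intro h
    have h1 := Pool.Agent.H656R2.AK.arcKayles_mem
    obtain ⟨q, ℓ, E, hE⟩ := refuter2_of_np (h _ h1) (h _ (inPSPACE_compl h1))
    exact ⟨_, q, ℓ, E, Pool.Agent.H656R2.AK.arcKayles_hard, hE⟩

end Pool.Agent.H334R5.Ps
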