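import Pool.Agent.H334R5.Ps.Mach

/-!
# The search machine for a language in polynomial space: assembly
-/

set_option autoImplicit false

namespace Pool.Agent.H334R5.Ps

open Pool.Agent.NPC
open Pool.Agent.H623R2.PS (InPSPACE PSPACEHard evq)
open Pool.Agent.H656R2.AK (QF evc QFwf qbf_hard)
open Pool.Agent.H334R5.Clo (num ext)
open Pool.Agent.H334R5.Nd (Pattern DetExcluder remove_sublist length_remove)
open Pool.Agent.H334R5.Cnt (usz bits_poly fpoly_of_poly)

theorem lc_le_sz : ∀ C : List (List (Bool × ℕ)), lc C ≤ sz C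
  | [] => by simp [lc]
  | c :: C => by
    have h1 := lc_le_sz C
    have h2 := length_lt_sz c
    unfold lc at h1 ⊢
    rw [List.map_cons, List.sum_cons, sz_list_cons]
    omega

theorem lc_eq_flatten (C : List (List (Bool × ℕ))) : lc C = C.flatten.length := by
  unfold lc
  rw [List.length_flatten]

theorem poly_fullOps {α : Type} [TEnc α] {qs : α → List Bool} (h : Poly qs) :
    Poly (fun x => fullOps (qs x)) := by
  unfold fullOps
  have hr : Poly (fun x => List.range (qs x).length) := (UPoly.length h).range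
  refine Poly.flatMap (l := fun x => List.range (qs x).length)
    (F := fun x i => (if (qs x).getD i false = true then 0 else 1, i) ::
      (List.range (qs x).length).map fun j => (2, j)) hr ?_
  have h1 : Poly (fun p : α × ℕ => (qs p.1).getD p.2 false) :=
    Poly.getD (h.comp (Poly.fst Poly.id)) (Poly.snd Poly.id) (NPC.Poly.const false)
  refine Poly.cons (Poly.pair (Poly.ite (Poly.decide_bool h1) (NPC.Poly.const 0)
    (NPC.Poly.const 1)) (Poly.snd Poly.id)) ?_
  exact NPC.Poly.map (l := fun p : α × ℕ => List.range (qs p.1).length)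
    (F := fun _ j => (2, j)) (hr.comp (Poly.fst Poly.id))
    (Poly.pair (NPC.Poly.const 2) (Poly.snd Poly.id))

theorem poly_lc {α : Type} [TEnc α] {C : α → List (List (Bool × ℕ))} (h : Poly C) :
    UPoly (fun x => lc (C x)) := by
  have h1 : UPoly (fun x => (C x).flatten.length) := UPoly.length (Poly.flatten h)
  have e : (fun x => lc (C x)) = fun x => (C x).flatten.length :=
    funext fun x => lc_eq_flatten _
  rw [e]
  exact h1

theorem sz_nat_lt {y w : ℕ} (h : y < 2 ^ w) : sz y ≤ 4 * w + 1 := by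
  have h1 := sz_nat_le y
  have h2 : y.size ≤ w := Nat.size_le.2 h
  omega

theorem sz_nat_self (y : ℕ) : sz y ≤ 4 * y + 1 := by
  have h1 := sz_nat_le y
  have h2 := Poly.size_le_self y
  omega

theorem sz_getD_le {ops : List Op} (t : ℕ) : sz (ops.getD t (0, 0)).2 ≤ sz ops + 3 := by
  rcases Nat.lt_or_ge t ops.length with h | h
  · have h1 : ops.getD t (0, 0) ∈ ops := by
      rw [List.getD_eq_getElem?_getD, List.getElem?_eq_getElem h, Option.getD_some]
      exact List.getElem_mem h
    have h2 := sz_le_of_mem h1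
    have h3 : sz (ops.getD t (0, 0)) = sz (ops.getD t (0, 0)).1 + sz (ops.getD t (0, 0)).2 + 1 :=
      sz_pair _ _
    omega
  · have h1 : ops.getD t (0, 0) = (0, 0) := by
      rw [List.getD_eq_getElem?_getD, List.getElem?_eq_none h, Option.getD_none]
    rw [h1]
    have h2 : sz (0 : ℕ) = 1 := rfl
    simp only
    omega

theorem sz_units (n : ℕ) : sz (List.replicate n ()) ≤ 2 * n + 1 := by
  have h := sz_le_length_mul (List.replicate n ()) 1 (fun u _ => by simp)
  rw [List.length_replicate] at h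
  omega

theorem sz_vals {a : List ℕ} {P w : ℕ} (h : ∀ y ∈ a, y < P) (hP : P ≤ 2 ^ w) :
    sz a ≤ a.length * (4 * w + 2) + 1 := by
  have h1 := sz_le_length_mul a (4 * w + 1) (fun y hy => sz_nat_lt (lt_of_lt_of_le (h y hy) hP))
  exact h1

/-- The size of contexts. -/
theorem sz_ctx {P M N w k G O : ℕ} {C : List (List (Bool × ℕ))} {ops : List Op} {s : PSt}
    (hs : ShP P M N w k ops.length s) (hP : P ≤ 2 ^ w) (hC : sz C ≤ G) (hO : sz ops ≤ O)
    (hk : k ≤ G) (hN : N ≤ G + 3) {u : List Bool} (hu : u.length ≤ N * w) :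
    sz ((ctxOf P N w C ops s, u) : Ctx × List Bool) ≤ (4 * w + 1) + G + O +
      (G * (4 * w + 2) + 1) + (O + 3) + (2 * (G + 3) + 1) + (2 * w + 1) +
        (4 * ((G + 3) * w) + 1) + 7 := by
  unfold ctxOf
  rw [sz_pair, sz_pair, sz_pair, sz_pair, sz_pair, sz_pair, sz_pair]
  have h1 : sz (P - 1) ≤ 4 * w + 1 := by
    refine sz_nat_lt ?_
    have : 0 < 2 ^ w := by positivity
    omega
  have h2 := Poly.sz_drop_le ops (s.1 + 1)
  have h3 := sz_vals hs.a_lt hP
  rw [hs.a_len] at h3
  have h4 := sz_getD_le (ops := ops) s.1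
  have h5 := sz_units N
  have h6 := sz_units w
  have h7 := sz_listBool_le u
  have h8 : k * (4 * w + 2) ≤ G * (4 * w + 2) := Nat.mul_le_mul_right _ hk
  have h9 : N * w ≤ (G + 3) * w := Nat.mul_le_mul_right _ hN
  omega

/-- The size of states. -/
theorem sz_state {P M N w k G O : ℕ} {ops : List Op} {s : PSt}
    (hs : ShP P M N w k ops.length s) (hP : P ≤ 2 ^ w) (hO : sz ops ≤ O)
    (hk : k ≤ G) (hN : N ≤ G + 3) :
    sz s ≤ (4 * O + 1) + (G * (4 * w + 2) + 1) + ((2 * M + 2) * (4 * w + 6) + 1) +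
      (4 * ((G + 3) * w) + 1) + (2 * M * (4 * ((G + 3) * w) + 2) + 1) + 4 := by
  obtain ⟨t, a, Ws, r, Cs⟩ := s
  simp only [sz_pair]
  have h1 : sz t ≤ 4 * O + 1 := by
    have e1 := sz_nat_self t
    have e2 : t ≤ ops.length := hs.t_le
    have e3 := length_lt_sz ops
    omega
  have h3 := sz_vals hs.a_lt hP
  rw [hs.a_len] at h3
  simp only at h3
  have h8 : k * (4 * w + 2) ≤ G * (4 * w + 2) := Nat.mul_le_mul_right _ hk
  have h9 : N * w ≤ (G + 3) * w := Nat.mul_le_mul_right _ hN
  have h4 := sz_le_length_mul Ws (4 * w + 5) (by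
    rintro ⟨y, b⟩ hb
    rw [sz_pair]
    have e1 := sz_nat_lt (lt_of_lt_of_le (hs.b_lt _ hb) hP)
    have e2 := sz_bool_le b
    simp only at e1
    omega)
  have h5 : Ws.length * (4 * w + 5 + 1) ≤ (2 * M + 2) * (4 * w + 6) :=
    Nat.mul_le_mul hs.b_len (by omega)
  have h6 : sz r ≤ 4 * ((G + 3) * w) + 1 := by
    have e1 := sz_nat_self r
    have e2 : r ≤ N * w := hs.rem
    omega
  have h7 := sz_le_length_mul Cs (4 * ((G + 3) * w) + 1) (by
    intro u hu
    have e1 := hs.c_len u hu
    have e2 := sz_listBool_le u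
    simp only at e1
    omega)
  have h10 : Cs.length * (4 * ((G + 3) * w) + 1 + 1) ≤ 2 * M * (4 * ((G + 3) * w) + 2) :=
    Nat.mul_le_mul hs.short (by omega)
  omega

end Pool.Agent.H334R5.Ps
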