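import Pool.Agent.H334R5.Ps.Mach3

/-!
# The search machine for a language in polynomial space: the machine
-/

set_option autoImplicit false

namespace Pool.Agent.H334R5.Ps

open Pool.Agent.NPC
open Pool.Agent.H623R2.PS (InPSPACE PSPACEHard evq)
open Pool.Agent.H656R2.AK (QF evc QFwf qbf_hard)
open Pool.Agent.H334R5.Clo (num ext)
open Pool.Agent.H334R5.Nd (Pattern DetExcluder remove_sublist length_remove)
open Pool.Agent.H334R5.Cnt (usz bits_poly fpoly_of_poly)

theorem mach_of (hTruth : TaskTruth) (hDeg : TaskDegree) (hE1 : TaskExtr1) (hE2 : TaskExtr2)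
    (hLB : InPSPACE (lang LB)) (hPrime : TaskPrime) (hExp : TaskExp) (hPV : TaskPolyVal)
    (hPS : TaskPolyStep) (hTr : TaskTrans) (hWL : TaskWLen) : TaskMach := by
  intro A L q hA hL
  obtain ⟨g, pg, -, hgL⟩ := qbf_hard hL
  obtain ⟨f, hf0, hfA⟩ := hA _ hLB
  have pf : Poly (fun z : Ctx × List Bool => f (bits z)) := (PIso.poly_iff.2 hf0).comp bits_poly
  have hf : ∀ (c : Ctx) (u : List Bool),
      f (bits ((c, u) : Ctx × List Bool)) ∈ A ↔ num u ≤ num ((W c).take u.length) := by
    intro c u
    rw [← hfA, bits_mem_lang]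
    rfl
  have pops : Poly (fun x => fullOps (g x).1) := poly_fullOps (Poly.fst pg)
  obtain ⟨rg, hrg⟩ := pg.sz_le
  obtain ⟨ro, hro⟩ := pops.sz_le
  obtain ⟨qf, hqf⟩ := pf.sz_le
  set G : Polynomial ℕ := rg.comp (Polynomial.C 4 * Polynomial.X + Polynomial.C 1) with hG
  set O : Polynomial ℕ := ro.comp (Polynomial.C 4 * Polynomial.X + Polynomial.C 1) with hO
  have hGx : ∀ x : List Bool, sz (g x) ≤ G.eval x.length := by
    intro x
    have h1 := eval_mono rg (sz_listBool_le x)
    have h2 := hrg x
    rw [hG, Polynomial.eval_comp]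
    simp only [Polynomial.eval_add, Polynomial.eval_mul, Polynomial.eval_C, Polynomial.eval_X]
    omega
  have hOx : ∀ x : List Bool, sz (fullOps (g x).1) ≤ O.eval x.length := by
    intro x
    have h1 := eval_mono ro (sz_listBool_le x)
    have h2 := hro x
    rw [hO, Polynomial.eval_comp]
    simp only [Polynomial.eval_add, Polynomial.eval_mul, Polynomial.eval_C, Polynomial.eval_X]
    omega
  -- the size of the queries
  set Z : Polynomial ℕ := (Polynomial.C 4 * Polynomial.X + Polynomial.C 1) + G + O +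
    (G * (Polynomial.C 4 * Polynomial.X + Polynomial.C 2) + Polynomial.C 1) +
    (O + Polynomial.C 3) + (Polynomial.C 2 * (G + Polynomial.C 3) + Polynomial.C 1) +
    (Polynomial.C 2 * Polynomial.X + Polynomial.C 1) +
    (Polynomial.C 4 * ((G + Polynomial.C 3) * Polynomial.X) + Polynomial.C 1) +
    Polynomial.C 7 with hZ
  have eZ : ∀ ω, Z.eval ω = (4 * ω + 1) + G.eval ω + O.eval ω +
      (G.eval ω * (4 * ω + 2) + 1) + (O.eval ω + 3) + (2 * (G.eval ω + 3) + 1) + (2 * ω + 1) +
        (4 * ((G.eval ω + 3) * ω) + 1) + 7 := fun ω => by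
    rw [hZ]
    simp only [Polynomial.eval_add, Polynomial.eval_mul, Polynomial.eval_C, Polynomial.eval_X]
  set nf : Polynomial ℕ := qf.comp Z with hnf
  set MM : Polynomial ℕ := q.comp nf + Polynomial.C 1 with hMM
  have eMM : ∀ ω, MM.eval ω = q.eval (nf.eval ω) + 1 := fun ω => by
    rw [hMM]; simp only [Polynomial.eval_add, Polynomial.eval_comp, Polynomial.eval_C]
  set R : Polynomial ℕ := Polynomial.C 2 * (MM * MM * (G + Polynomial.C 3) +
    (G + Polynomial.C 3)) + Polynomial.C 2 with hR
  have eR : ∀ ω, R.eval ω = 2 * (MM.eval ω * MM.eval ω * (G.eval ω + 3) + (G.eval ω + 3)) + 2 :=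
    fun ω => by
      rw [hR]
      simp only [Polynomial.eval_add, Polynomial.eval_mul, Polynomial.eval_C]
  obtain ⟨c0, hc0⟩ := hExp R
  -- the parameters
  set wf : List Bool → ℕ := fun x => x.length + c0 with hwf
  set Mf : List Bool → ℕ := fun x => MM.eval (wf x) with hMf
  set Nf : List Bool → ℕ := fun x => lc (g x).2 + 3 with hNf
  set Pf : List Bool → ℕ := fun x => prm (Mf x * Mf x * Nf x + Nf x) with hPf
  have hNG : ∀ x, Nf x ≤ G.eval (wf x) + 3 := by
    intro x
    have h1 := lc_le_sz (g x).2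
    have h2 : sz (g x) = sz (g x).1 + sz (g x).2 + 1 := sz_pair _ _
    have h3 := hGx x
    have h4 := eval_mono G (show x.length ≤ wf x by simp only [hwf]; omega)
    simp only [hNf]
    omega
  have hkG : ∀ x, (g x).1.length ≤ G.eval (wf x) := by
    intro x
    have h1 := length_lt_sz (g x).1
    have h2 : sz (g x) = sz (g x).1 + sz (g x).2 + 1 := sz_pair _ _
    have h3 := hGx x
    have h4 := eval_mono G (show x.length ≤ wf x by simp only [hwf]; omega)
    omega
  have hCG : ∀ x, sz (g x).2 ≤ G.eval (wf x) := by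
    intro x
    have h2 : sz (g x) = sz (g x).1 + sz (g x).2 + 1 := sz_pair _ _
    have h3 := hGx x
    have h4 := eval_mono G (show x.length ≤ wf x by simp only [hwf]; omega)
    omega
  have hOG : ∀ x, sz (fullOps (g x).1) ≤ O.eval (wf x) := fun x =>
    (hOx x).trans (eval_mono O (by simp only [hwf]; omega))
  have hM1 : ∀ x, 1 ≤ Mf x := fun x => by simp only [hMf]; rw [eMM]; omega
  have hprm : ∀ x, (Pf x).Prime ∧ Mf x * Mf x * Nf x + Nf x < Pf x ∧
      Pf x ≤ 2 * (Mf x * Mf x * Nf x + Nf x) + 2 := fun x =>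
    hPrime.1 _ (by simp only [hNf]; omega)
  have hPw : ∀ x, Pf x ≤ 2 ^ wf x := by
    intro x
    have h1 := hc0 (wf x) (by simp only [hwf]; omega)
    rw [eR] at h1
    have h2 := (hprm x).2.2
    have h3 : Mf x * Mf x * Nf x ≤ MM.eval (wf x) * MM.eval (wf x) * (G.eval (wf x) + 3) :=
      Nat.mul_le_mul_left _ (hNG x)
    have h4 := hNG x
    omega
  have hMP : ∀ x, Mf x * Mf x * Nf x < Pf x := fun x => by have := (hprm x).2.1; omega
  have hNP : ∀ x, Nf x ≤ Pf x := fun x => by have := (hprm x).2.1; omega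
  have hP2 : ∀ x, 2 ≤ Pf x := fun x => (hprm x).1.two_le
  -- polynomial time
  have uw : UPoly wf := (UPoly.length Poly.id).add (UPoly.const c0)
  have uM : UPoly Mf := uw.eval MM
  have uN : UPoly Nf := (poly_lc (Poly.snd pg)).add (UPoly.const 3)
  have pP : Poly Pf := hPrime.2 _ _ _ (((uM.mul uM).mul uN).add uN)
  have pC : Poly (fun x => (g x).2) := Poly.snd pg
  have prep : ∀ {α : Type} [TEnc α] {n : α → ℕ} (_ : UPoly n) {β : Type} [TEnc β] (b : β),
      Poly (fun x => List.replicate (n x) b) := by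
    intro α _ n hn β _ b
    have h1 : Poly (fun x => (List.range (n x)).map fun _ => b) :=
      NPC.Poly.map (l := fun x => List.range (n x)) (F := fun _ _ => b) hn.range
        (NPC.Poly.const b)
    exact h1.congr fun x => by rw [List.map_const', List.length_range]
  have pinit : Poly (fun x => ((0, List.replicate (g x).1.length 0, [(0, false), (1, true)],
      Nf x * wf x, [[]]) : PSt)) :=
    Poly.pair (NPC.Poly.const 0) (Poly.pair (prep (UPoly.length (Poly.fst pg)) 0)
      (Poly.pair (NPC.Poly.const _) (Poly.pair (uN.mul uw).toPoly (NPC.Poly.const _))))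
  have pctx : Poly (fun p : List Bool × PSt =>
      ctxOf (Pf p.1) (Nf p.1) (wf p.1) (g p.1).2 (fullOps (g p.1).1) p.2) := by
    unfold ctxOf
    have h1 : Poly (fun p : List Bool × PSt => p.1) := Poly.fst Poly.id
    have h2 : Poly (fun p : List Bool × PSt => p.2) := Poly.snd Poly.id
    refine Poly.pair (Poly.sub (pP.comp h1) (NPC.Poly.const 1)) (Poly.pair (pC.comp h1)
      (Poly.pair (Clo.poly_drop (pops.comp h1) (Poly.add (Poly.fst h2) (NPC.Poly.const 1)))
      (Poly.pair (Poly.fst (Poly.snd h2)) (Poly.pair (Poly.snd (Poly.getD (pops.comp h1)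
        (Poly.fst h2) (NPC.Poly.const (0, 0)))) (Poly.pair ?_ ?_)))))
    · exact prep (uN.comp h1) ()
    · exact prep (uw.comp h1) ()
  have pQ : Poly (fun p : List Bool × PSt => qryP f (Pf p.1) (Nf p.1) (wf p.1) (g p.1).2
      (fullOps (g p.1).1) p.2) := by
    unfold qryP
    refine NPC.Poly.map (l := fun p : List Bool × PSt => p.2.2.2.2.2.tail)
      (F := fun p u => f (bits ((ctxOf (Pf p.1) (Nf p.1) (wf p.1) (g p.1).2 (fullOps (g p.1).1)
        p.2, u) : Ctx × List Bool)))
      (Poly.tail (Poly.snd (Poly.snd (Poly.snd (Poly.snd (Poly.snd Poly.id)))))) ?_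
    exact Poly.comp (g := fun z : Ctx × List Bool => f (bits z))
      (f := fun p : (List Bool × PSt) × List Bool => (ctxOf (Pf p.1.1) (Nf p.1.1) (wf p.1.1)
        (g p.1.1).2 (fullOps (g p.1.1).1) p.1.2, p.2)) pf
      (Poly.pair (pctx.comp (Poly.fst Poly.id)) (Poly.snd Poly.id))
  have pstep : Poly (fun p : List Bool × PSt × ℕ => stepP (Pf p.1) (Mf p.1) (Nf p.1) (wf p.1)
      (fullOps (g p.1).1) p.2.1 p.2.2) := by
    have h1 : Poly (fun p : List Bool × PSt × ℕ => p.1) := Poly.fst Poly.id
    exact hPS _ _ _ _ _ _ _ _ _ (pP.comp h1) (uM.comp h1) (uN.comp h1) (uw.comp h1)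
      (pops.comp h1) (Poly.fst (Poly.snd Poly.id)) (Poly.snd (Poly.snd Poly.id))
      (fun p => le_trans (by norm_num) (hP2 p.1))
  have pout : Poly (fun p : List Bool × PSt => p.2.2.2.1.any fun t =>
      decide (t.1 = mat (Pf p.1) (g p.1).2 p.2.2.1) && t.2) := by
    have h1 : Poly (fun p : List Bool × PSt => p.1) := Poly.fst Poly.id
    have h2 : Poly (fun p : List Bool × PSt => p.2) := Poly.snd Poly.id
    have hm : Poly (fun p : List Bool × PSt => mat (Pf p.1) (g p.1).2 p.2.2.1) :=
      hPV _ _ _ _ _ (pP.comp h1) (pC.comp h1) (Poly.fst (Poly.snd h2))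
        (fun p => le_trans (by norm_num) (hP2 p.1))
    refine Poly.any (l := fun p : List Bool × PSt => p.2.2.2.1)
      (p := fun p t => decide (t.1 = mat (Pf p.1) (g p.1).2 p.2.2.1) && t.2)
      (Poly.fst (Poly.snd (Poly.snd h2))) ?_
    exact Poly.and (Poly.decide_eq (Poly.fst (Poly.snd Poly.id)) (hm.comp (Poly.fst Poly.id)))
      (Poly.snd (Poly.snd Poly.id))
  have pneed : Poly (fun p : List Bool × PSt => decide (p.2.1 < (fullOps (g p.1).1).length) &&
      decide (Mf p.1 < p.2.2.2.2.2.length)) := by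
    have h1 : Poly (fun p : List Bool × PSt => p.1) := Poly.fst Poly.id
    have h2 : Poly (fun p : List Bool × PSt => p.2) := Poly.snd Poly.id
    exact Poly.and (Poly.decide_lt (Poly.fst h2) (Poly.length (pops.comp h1)))
      (Poly.decide_lt (uM.toPoly.comp h1)
        (Poly.length (Poly.snd (Poly.snd (Poly.snd (Poly.snd h2))))))
  -- sizes
  set SS : Polynomial ℕ := (Polynomial.C 4 * O + Polynomial.C 1) +
    (G * (Polynomial.C 4 * Polynomial.X + Polynomial.C 2) + Polynomial.C 1) +
    ((Polynomial.C 2 * MM + Polynomial.C 2) * (Polynomial.C 4 * Polynomial.X + Polynomial.C 6) +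
      Polynomial.C 1) +
    (Polynomial.C 4 * ((G + Polynomial.C 3) * Polynomial.X) + Polynomial.C 1) +
    (Polynomial.C 2 * MM * (Polynomial.C 4 * ((G + Polynomial.C 3) * Polynomial.X) +
      Polynomial.C 2) + Polynomial.C 1) + Polynomial.C 4 with hSS
  have eSS : ∀ ω, SS.eval ω = (4 * O.eval ω + 1) + (G.eval ω * (4 * ω + 2) + 1) +
      ((2 * MM.eval ω + 2) * (4 * ω + 6) + 1) + (4 * ((G.eval ω + 3) * ω) + 1) +
        (2 * MM.eval ω * (4 * ((G.eval ω + 3) * ω) + 2) + 1) + 4 := fun ω => by
    rw [hSS]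
    simp only [Polynomial.eval_add, Polynomial.eval_mul, Polynomial.eval_C, Polynomial.eval_X]
  set QQ : Polynomial ℕ := Polynomial.C 2 * MM * (Polynomial.C 4 * nf + Polynomial.C 2) +
    Polynomial.C 1 with hQQ
  have eQQ : ∀ ω, QQ.eval ω = 2 * MM.eval ω * (4 * nf.eval ω + 2) + 1 := fun ω => by
    rw [hQQ]
    simp only [Polynomial.eval_add, Polynomial.eval_mul, Polynomial.eval_C]
  set TT : Polynomial ℕ := O * ((G + Polynomial.C 3) * Polynomial.X * (MM + Polynomial.C 1) +
    Polynomial.C 3) + ((G + Polynomial.C 3) * Polynomial.X * (MM + Polynomial.C 1) +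
      Polynomial.C 1) + Polynomial.C 1 with hTT
  have eTT : ∀ ω, TT.eval ω = O.eval ω * ((G.eval ω + 3) * ω * (MM.eval ω + 1) + 3) +
      ((G.eval ω + 3) * ω * (MM.eval ω + 1) + 1) + 1 := fun ω => by
    rw [hTT]
    simp only [Polynomial.eval_add, Polynomial.eval_mul, Polynomial.eval_C, Polynomial.eval_X]
  have hshift : ∀ (K : Polynomial ℕ) (x : List Bool),
      (K.comp (Polynomial.X + Polynomial.C c0)).eval x.length = K.eval (wf x) := by
    intro K x
    rw [Polynomial.eval_comp]
    simp only [Polynomial.eval_add, Polynomial.eval_C, Polynomial.eval_X, hwf]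
  set Shx : List Bool → PSt → Prop := fun x s =>
    ShP (Pf x) (Mf x) (Nf x) (wf x) (g x).1.length (fullOps (g x).1).length s with hShx
  set bx : List Bool → Bool := fun x => evq (g x).1 (fun v => evc v (g x).2) with hbx
  have hqlen : ∀ (x : List Bool) (s : PSt), Shx x s → ∀ y ∈ qryP f (Pf x) (Nf x) (wf x) (g x).2
      (fullOps (g x).1) s, y.length ≤ nf.eval (wf x) := by
    intro x s hs y hy
    unfold qryP at hy
    rw [List.mem_map] at hy
    obtain ⟨u, hu, rfl⟩ := hy
    have h1 := hqf ((ctxOf (Pf x) (Nf x) (wf x) (g x).2 (fullOps (g x).1) s, u) : Ctx × List Bool)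
    have h2 := length_lt_sz (f (bits ((ctxOf (Pf x) (Nf x) (wf x) (g x).2
      (fullOps (g x).1) s, u) : Ctx × List Bool)))
    have h3 := sz_ctx hs (hPw x) (hCG x) (hOG x) (hkG x) (hNG x) (u := u) (by
      rw [hs.c_len u (List.mem_of_mem_tail hu)]; omega)
    rw [← eZ] at h3
    have h4 := eval_mono qf h3
    rw [hnf, Polynomial.eval_comp]
    omega
  refine ⟨{
    S := PSt
    enc := inferInstance
    init := fun x => (0, List.replicate (g x).1.length 0, [(0, false), (1, true)],
      Nf x * wf x, [[]])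
    need := fun x s => decide (s.1 < (fullOps (g x).1).length) &&
      decide (Mf x < s.2.2.2.2.length)
    Q := fun x s => qryP f (Pf x) (Nf x) (wf x) (g x).2 (fullOps (g x).1) s
    step := fun x s k => stepP (Pf x) (Mf x) (Nf x) (wf x) (fullOps (g x).1) s k
    out := fun x s => s.2.2.1.any fun t => decide (t.1 = mat (Pf x) (g x).2 s.2.1) && t.2
    T := TT.comp (Polynomial.X + Polynomial.C c0)
    nn := nf.comp (Polynomial.X + Polynomial.C c0)
    B := (SS + QQ).comp (Polynomial.X + Polynomial.C c0)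
    Sh := Shx
    Inv := fun x s => InvP (Pf x) (Nf x) (wf x) (g x).2 (fullOps (g x).1) (bx x) s
    p_init := pinit
    p_need := pneed
    p_Q := pQ
    p_step := pstep
    p_out := pout
    sh0 := fun x => init_shapeP (hP2 x) (hM1 x)
    sh_step := fun x s k hs => stepP_shape (hMP x) (hM1 x) hs k
    sh_sz := fun x s hs => ?_
    inv0 := fun x => init_inv hTruth (hP2 x) (g x)
    q_len := fun x s hs y hy => ?_
    q_sz := fun x s hs => ?_
    q_card := fun x s hs hn => ?_
    q_pat := fun x s hs hi hn => ?_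
    inv_q := fun x s k hs hi hn hk hp => ?_
    inv_n := fun x s k hs hi hn => ?_
    fin := fun x ks hi => ?_ }⟩
  · rw [hshift]
    have h1 := sz_state hs (hPw x) (hOG x) (hkG x) (hNG x)
    rw [Polynomial.eval_add, eSS]
    exact le_trans h1 (Nat.le_add_right _ _)
  · rw [hshift]
    exact hqlen x s hs y hy
  · rw [hshift, Polynomial.eval_add, eQQ]
    have h1 := sz_le_length_mul (qryP f (Pf x) (Nf x) (wf x) (g x).2 (fullOps (g x).1) s)
      (4 * nf.eval (wf x) + 1) (by
        intro y hy
        have e1 := hqlen x s hs y hy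
        have e2 := sz_listBool_le y
        omega)
    have h2 : (qryP f (Pf x) (Nf x) (wf x) (g x).2 (fullOps (g x).1) s).length ≤
        2 * MM.eval (wf x) := by
      unfold qryP
      rw [List.length_map, List.length_tail]
      have := hs.short
      simp only [hMf] at this
      omega
    have h3 := Nat.mul_le_mul_right (4 * nf.eval (wf x) + 1 + 1) h2
    have h4 : 4 * nf.eval (wf x) + 1 + 1 = 4 * nf.eval (wf x) + 2 := by ring
    rw [h4] at h1 h3
    omega
  · rw [hshift]
    simp only [Bool.and_eq_true, decide_eq_true_eq] at hn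
    unfold qryP
    rw [List.length_map, List.length_tail]
    have h1 := hn.2
    simp only [hMf] at h1
    rw [eMM] at h1
    omega
  · simp only [Bool.and_eq_true, decide_eq_true_eq] at hn
    obtain ⟨k0, hk0, hk0w⟩ := List.getElem_of_mem (hi.2 hn.1)
    exact ⟨k0, pattern_target (hf _) hs.c_len hs.sorted hk0 hk0w⟩
  · exact stepP_inv hDeg hE1 hE2 hTr hWL (hprm x).1 (hPw x) rfl (hNP x) (hMP x) hf hs hi k
      (fun _ _ => ⟨hk, hp⟩)
  · refine stepP_inv hDeg hE1 hE2 hTr hWL (hprm x).1 (hPw x) rfl (hNP x) (hMP x) hf hs hi k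
      (fun h1 h2 => ?_)
    exfalso
    rw [Bool.and_eq_false_iff] at hn
    rcases hn with h3 | h3
    · exact (of_decide_eq_false h3) h1
    · exact (of_decide_eq_false h3) h2
  · have hT : (TT.comp (Polynomial.X + Polynomial.C c0)).eval x.length = TT.eval (wf x) :=
      hshift TT x
    have hrank := run_rank (P := Pf x) (M := Mf x) (N := Nf x) (w := wf x)
      (ops := fullOps (g x).1) x
      ((0, List.replicate (g x).1.length 0, [(0, false), (1, true)], Nf x * wf x, [[]]) : PSt)
      ks ((TT.comp (Polynomial.X + Polynomial.C c0)).eval x.length) (by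
        rw [hT, eTT]
        unfold potP
        simp only [List.length_cons, List.length_nil, Nat.sub_zero]
        have e1 : (fullOps (g x).1).length ≤ O.eval (wf x) := by
          have e2 := length_lt_sz (fullOps (g x).1)
          have e3 := hOG x
          omega
        have e2 : Nf x * wf x * (Mf x + 1) ≤ (G.eval (wf x) + 3) * wf x * (MM.eval (wf x) + 1) :=
          Nat.mul_le_mul_right _ (Nat.mul_le_mul_right _ (hNG x))
        have e3 := Nat.mul_le_mul e1 (Nat.add_le_add_right e2 3)
        omega)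
      (fun s hs m => by
        unfold stepP
        split_ifs with h1 h2 h3
        · exact hs
        · exact hs
        · simp only [trans]; omega
        · exact hs)
      (Nat.zero_le _)
    rw [out_iff hi hrank, hgL x]

end Pool.Agent.H334R5.Ps
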