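import Pool.Agent.H334R5.Ps.Stmts

/-!
# The length of the vector of values
-/

set_option autoImplicit false

namespace Pool.Agent.H334R5.Ps

theorem fix_length (w v : ℕ) : (fix w v).length = w := by
  unfold fix
  rw [List.length_reverse, List.length_take, List.length_append, List.length_replicate]
  omega

theorem flatMap_length_const {α β : Type} (f : α → List β) (w : ℕ) (h : ∀ a, (f a).length = w)
    (l : List α) : (l.flatMap f).length = l.length * w := by
  induction l with
  | nil => simp
  | cons a l ih =>
    rw [List.flatMap_cons, List.length_append, ih, h, List.length_cons]
    ring

/-- The length of the vector of values. -/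
theorem taskWLen : TaskWLen := by
  intro c
  unfold W
  rw [flatMap_length_const _ c.2.2.2.2.2.2.length (fun v => fix_length _ v)]
  unfold vec
  rw [List.length_map, List.length_range]

end Pool.Agent.H334R5.Ps
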